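import Pool.Agent.Pell.Harm2

namespace Pool.Agent.Pell

open Finset

variable {p : ℕ} [hp : Fact p.Prime]

/-- `uu c = 1 + p c` -/
noncomputable def uu (p : ℕ) [Fact p.Prime] (c : ZMod p) : ZMod (p ^ 2) := 1 + eps p c

lemma uu_mul (c d : ZMod p) : uu p c * uu p d = uu p (c + d) := by
  unfold uu
  rw [eps_add]
  linear_combination eps_mul_eps c d

@[simp] lemma uu_zero : uu p 0 = 1 := by simp [uu]

lemma uu_neg_mul (c : ZMod p) : uu p (-c) * uu p c = 1 := by
  rw [uu_mul]; simp

@[simp] lemma red_uu (c : ZMod p) : red p (uu p c) = 1 := by simp [uu]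

lemma eq_uu_of_sq {a : ZMod (p ^ 2)} {s : ZMod p} (c : ZMod p) (h2 : (2 : ZMod p) ≠ 0)
    (hs : s = 1 ∨ s = -1) (hr : red p a = s) (ha : a ^ 2 = uu p c) :
    a = (if s = 1 then 1 else -1) * uu p (c / 2) := by
  have hcc : uu p (c / 2) ^ 2 = uu p c := by
    have e : uu p (c / 2) ^ 2 = uu p (c / 2) * uu p (c / 2) := by ring
    rw [e, uu_mul]; congr 1; field_simp; ring
  have hne : (1 : ZMod p) ≠ -1 := by
    intro h
    apply h2
    linear_combination h
  rcases hs with rfl | rfl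
  · rw [if_pos rfl, one_mul]
    apply eq_of_sq_eq_of_red_eq h2
    · rw [ha, hcc]
    · rw [hr, red_uu]
    · rw [red_uu]; exact one_ne_zero
  · rw [if_neg (Ne.symm hne)]
    apply eq_of_sq_eq_of_red_eq h2
    · rw [ha, ← hcc]; ring
    · rw [hr, map_mul, red_uu]; simp
    · rw [map_mul, red_uu]; simp

lemma two_ne_zero_of (n : ℕ) (hn : p = 2 * n + 1) : (2 : ZMod p) ≠ 0 := by
  have h2p : p ≠ 2 := by omega
  have : ((2 : ℕ) : ZMod p) ≠ 0 := natCast_ne_zero_of_lt (by norm_num)
    (lt_of_le_of_ne hp.out.two_le (Ne.symm h2p))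
  exact_mod_cast this

lemma fact_red_ne {m : ℕ} (hm : m < p) : red p ((m.factorial : ℕ) : ZMod (p ^ 2)) ≠ 0 := by
  rw [red_natCast, Ne, ZMod.natCast_eq_zero_iff, hp.out.dvd_factorial]
  omega

/-- value of the quadratic character at `2`, for `p ≡ 3 (mod 8)` -/
lemma two_pow_half_three (f : ℕ) (hf : p = 8 * f + 3) : (2 : ZMod p) ^ (4 * f + 1) = -1 := by
  have hp2 : p ≠ 2 := by omega
  have h := ZMod.euler_criterion p (a := (2 : ZMod p)) (two_ne_zero_of (4 * f + 1) (by omega))
  have h3 : ¬ IsSquare (2 : ZMod p) := by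
    rw [ZMod.exists_sq_eq_two_iff hp2]
    omega
  have h4 : p / 2 = 4 * f + 1 := by omega
  rw [h4] at h
  have h5 : (2 : ZMod p) ^ (4 * f + 1) = 1 ∨ (2 : ZMod p) ^ (4 * f + 1) = -1 := by
    have := ZMod.pow_div_two_eq_neg_one_or_one p (a := (2 : ZMod p)) (two_ne_zero_of (4 * f + 1) (by omega))
    rwa [h4] at this
  rcases h5 with h5 | h5
  · exact absurd (h.mpr h5) h3
  · exact h5

lemma two_pow_half_one (f : ℕ) (hf : p = 8 * f + 1) : (2 : ZMod p) ^ (4 * f) = 1 := by
  have hp2 : p ≠ 2 := by omega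
  have h := ZMod.euler_criterion p (a := (2 : ZMod p)) (two_ne_zero_of (4 * f) (by omega))
  have h3 : IsSquare (2 : ZMod p) := by
    rw [ZMod.exists_sq_eq_two_iff hp2]
    omega
  have h4 : p / 2 = 4 * f := by omega
  rw [h4] at h
  exact h.mp h3

lemma red_two : red p (2 : ZMod (p ^ 2)) = (2 : ZMod p) := by
  exact_mod_cast red_natCast (p := p) 2

/-- `2·16^f = 2^n = -(1 - p H_n/4)` for `p = 8f+3` -/
lemma sixteen_pow_three (f : ℕ) (hf : p = 8 * f + 3) :
    (2 : ZMod (p ^ 2)) * 16 ^ f = - uu p (- (Har p (4 * f + 1) / 4)) := by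
  have h2 := two_ne_zero_of (p := p) (4 * f + 1) (by omega)
  have h1 : (2 : ZMod (p ^ 2)) ^ (4 * f + 1) = 2 * 16 ^ f := by
    rw [pow_succ (2 : ZMod (p ^ 2)) (4 * f), pow_mul]; norm_num; ring
  rw [← h1]
  have hsq : ((2 : ZMod (p ^ 2)) ^ (4 * f + 1)) ^ 2 = uu p (- (Har p (4 * f + 1) / 2)) := by
    have := two_pow_pred (p := p) (4 * f + 1) (by omega)
    rw [← pow_mul]
    have e : (4 * f + 1) * 2 = p - 1 := by omega
    rw [e, this]; rfl
  have hne : (-1 : ZMod p) ≠ 1 := by
    intro h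
    apply h2
    linear_combination -h
  have := eq_uu_of_sq (s := -1) _ h2 (Or.inr rfl)
    (by rw [map_pow, red_two]; exact two_pow_half_three f hf) hsq
  rw [if_neg hne] at this
  rw [this]
  have e : - (Har p (4 * f + 1) / 2) / 2 = - (Har p (4 * f + 1) / 4) := by
    have h4 : (4 : ZMod p) ≠ 0 := by
      have : (4 : ZMod p) = 2 * 2 := by norm_num
      rw [this]; exact mul_ne_zero h2 h2
    field_simp
    ring
  rw [e]; ring

theorem choose_B (f : ℕ) (hf : p = 8 * f + 3) :
    (((6 * f + 2).choose (3 * f + 1) : ℕ) : ZMod (p ^ 2)) =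
      2 * (((2 * f).choose f : ℕ) : ZMod (p ^ 2)) *
        uu p (Har p f - Har p (2 * f) - 3 / 4 * Har p (4 * f + 1)) := by
  have hn : p = 2 * (4 * f + 1) + 1 := by omega
  have h2 := two_ne_zero_of (p := p) (4 * f + 1) hn
  set P := (((p - 1).factorial : ℕ) : ZMod (p ^ 2)) with hP
  set A := (((6 * f + 2).factorial : ℕ) : ZMod (p ^ 2)) with hA
  set T := (((3 * f + 1).factorial : ℕ) : ZMod (p ^ 2)) with hT
  set F := ((f.factorial : ℕ) : ZMod (p ^ 2)) with hF
  set G := (((2 * f).factorial : ℕ) : ZMod (p ^ 2)) with hG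
  set N := (((4 * f + 1).factorial : ℕ) : ZMod (p ^ 2)) with hN
  set M := (((4 * f + 1 + f).factorial : ℕ) : ZMod (p ^ 2)) with hM
  set c := (((6 * f + 2).choose (3 * f + 1) : ℕ) : ZMod (p ^ 2)) with hc
  set b := (((2 * f).choose f : ℕ) : ZMod (p ^ 2)) with hb
  set σ := ∑ i ∈ range f, ((2 * i + 1 : ℕ) : ZMod p)⁻¹ with hσ
  have hσ' : σ = Har p (2 * f) - Har p f / 2 := sum_odd f h2
  have E1 : A * G = P * uu p (Har p (2 * f)) := by
    have := fact_reflect (p := p) (2 * f) (by omega)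
    rw [show p - 1 - 2 * f = 6 * f + 2 by omega, pow_mul] at this
    simpa [uu] using this
  have E2 : T * ((-1) ^ (5 * f + 1) * M) = P * uu p (Har p (4 * f + 1 + f)) := by
    have := fact_reflect (p := p) (4 * f + 1 + f) (by omega)
    rw [show p - 1 - (4 * f + 1 + f) = 3 * f + 1 by omega] at this
    rw [show 4 * f + 1 + f = 5 * f + 1 by ring] at this ⊢
    rw [hT, hM, show 4 * f + 1 + f = 5 * f + 1 by ring, this]; rfl
  have E3 : - (N * N) = P * uu p (Har p (4 * f + 1)) := by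
    have := fact_reflect (p := p) (4 * f + 1) (by omega)
    rw [show p - 1 - (4 * f + 1) = 4 * f + 1 by omega] at this
    have e : (-1 : ZMod (p ^ 2)) ^ (4 * f + 1) = -1 := by
      rw [pow_succ (-1 : ZMod (p ^ 2)) (4 * f), pow_mul]; norm_num
    rw [e] at this
    have t2 : N * (-1 * N) = P * (1 + eps p (Har p (4 * f + 1))) := this
    unfold uu
    linear_combination t2
  have E4 : M * (4 ^ f * F) = N * G * uu p σ := fact_dup (p := p) (4 * f + 1) f hn (by omega)
  have E5 : c * (T * T) = A := by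
    have := Nat.choose_mul_factorial_mul_factorial (n := 6 * f + 2) (k := 3 * f + 1) (by omega)
    rw [show 6 * f + 2 - (3 * f + 1) = 3 * f + 1 by omega] at this
    rw [hc, hT, hA, ← this]; push_cast; ring
  have E6 : b * (F * F) = G := by
    have := Nat.choose_mul_factorial_mul_factorial (n := 2 * f) (k := f) (by omega)
    rw [show 2 * f - f = f by omega] at this
    rw [hb, hF, hG, ← this]; push_cast; ring
  have E7 := sixteen_pow_three (p := p) f hf
  have E8 : Har p (4 * f + 1 + f) = Har p (4 * f + 1) + 2 * σ := Har_dup (4 * f + 1) f hn (by omega)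
  have uP : red p P ≠ 0 := fact_red_ne (by omega)
  have uG : red p G ≠ 0 := fact_red_ne (by omega)
  have uF : red p F ≠ 0 := fact_red_ne (by omega)
  have uM : red p M ≠ 0 := fact_red_ne (by omega)
  set h5 := Har p (4 * f + 1 + f) with hh5
  set hn' := Har p (4 * f + 1) with hhn
  -- step 1
  have s1 : c * P * G * uu p (2 * h5) = uu p (Har p (2 * f)) * (M * M) := by
    apply mul_left_cancel_of_red uP
    have hs : ((-1 : ZMod (p ^ 2)) ^ (5 * f + 1)) * ((-1 : ZMod (p ^ 2)) ^ (5 * f + 1)) = 1 := by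
      rw [← mul_pow]; simp
    have e1 : (T * T) * (M * M) = P * P * uu p (2 * h5) := by
      calc (T * T) * (M * M) = (T * ((-1) ^ (5 * f + 1) * M)) * (T * ((-1) ^ (5 * f + 1) * M)) := by
            linear_combination (-(T * T * M * M)) * hs
        _ = (P * uu p h5) * (P * uu p h5) := by rw [E2]
        _ = P * P * (uu p h5 * uu p h5) := by ring
        _ = _ := by rw [uu_mul, ← two_mul]
    calc P * (c * P * G * uu p (2 * h5)) = c * G * (P * P * uu p (2 * h5)) := by ring
      _ = (c * (T * T)) * G * (M * M) := by rw [← e1]; ring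
      _ = (A * G) * (M * M) := by rw [E5]
      _ = _ := by rw [E1]; ring
  -- step 2
  have s2 : c * P * uu p (2 * h5) * 16 ^ f * (F * F) = uu p (Har p (2 * f)) * uu p (2 * σ) * (N * N) * G := by
    apply mul_left_cancel_of_red uG
    have e16 : (16 : ZMod (p ^ 2)) ^ f = 4 ^ f * 4 ^ f := by rw [← mul_pow]; norm_num
    have e2 : (M * M) * (16 ^ f * (F * F)) = (N * N) * (G * G) * uu p (2 * σ) := by
      calc (M * M) * (16 ^ f * (F * F)) = (M * (4 ^ f * F)) * (M * (4 ^ f * F)) := by rw [e16]; ring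
        _ = (N * G * uu p σ) * (N * G * uu p σ) := by rw [E4]
        _ = (N * N) * (G * G) * (uu p σ * uu p σ) := by ring
        _ = _ := by rw [uu_mul, ← two_mul]
    calc G * (c * P * uu p (2 * h5) * 16 ^ f * (F * F)) = (c * P * G * uu p (2 * h5)) * (16 ^ f * (F * F)) := by ring
      _ = uu p (Har p (2 * f)) * ((M * M) * (16 ^ f * (F * F))) := by rw [s1]; ring
      _ = _ := by rw [e2]; ring
  -- step 3
  have s3 : c * uu p (2 * h5) * 16 ^ f = - (uu p (Har p (2 * f)) * uu p (2 * σ) * uu p hn' * b) := by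
    have uFF : red p (F * F * P) ≠ 0 := by
      rw [map_mul, map_mul]; exact mul_ne_zero (mul_ne_zero uF uF) uP
    apply mul_left_cancel_of_red uFF
    calc F * F * P * (c * uu p (2 * h5) * 16 ^ f) = c * P * uu p (2 * h5) * 16 ^ f * (F * F) := by ring
      _ = uu p (Har p (2 * f)) * uu p (2 * σ) * (N * N) * G := s2
      _ = _ := by
        rw [← E6]
        linear_combination (-(uu p (Har p (2 * f)) * uu p (2 * σ) * (b * (F * F)))) * E3
  -- step 4
  have s4 : c * (uu p (2 * h5) * uu p (-(hn' / 4))) = 2 * b * (uu p (Har p (2 * f)) * uu p (2 * σ) * uu p hn') := by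
    linear_combination (-2 : ZMod (p ^ 2)) * s3 + (c * uu p (2 * h5)) * E7
  rw [uu_mul, uu_mul, uu_mul] at s4
  have s5 : c = 2 * b * (uu p (Har p (2 * f) + 2 * σ + hn') * uu p (-(2 * h5 + -(hn' / 4)))) := by
    calc c = c * (uu p (-(2 * h5 + -(hn' / 4))) * uu p (2 * h5 + -(hn' / 4))) := by rw [uu_neg_mul, mul_one]
      _ = (c * uu p (2 * h5 + -(hn' / 4))) * uu p (-(2 * h5 + -(hn' / 4))) := by ring
      _ = _ := by rw [s4]; ring
  rw [s5, uu_mul]
  congr 2
  have h4 : (4 : ZMod p) ≠ 0 := by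
    have : (4 : ZMod p) = 2 * 2 := by norm_num
    rw [this]; exact mul_ne_zero h2 h2
  rw [E8, hσ']
  field_simp
  ring

end Pool.Agent.Pell
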