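import Pool.Agent.Pell.Val

namespace Pool.Agent.Pell

open Finset Polynomial

lemma X_mul_deriv_pow {R : Type*} [CommRing R] (P : R[X]) (k : ℕ) : P * derivative (P ^ k) = (k : R[X]) * (derivative P * P ^ k) := by
  rcases k with _ | k
  · simp
  · rw [derivative_pow, Nat.add_sub_cancel, pow_succ]
    simp
    ring

theorem quad_trans_deriv_poly (n : ℕ) :
    ∑ k ∈ range (n + 1), ((k : ℕ) : ℤ[X]) * (((n.choose k : ℤ) : ℤ[X]) * (ck n k : ℤ[X]) * (X ^ k * (1 + X) ^ (n - k)))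
      = (1 + X) * ∑ m ∈ range (n + 1), ((m : ℕ) : ℤ[X]) * ((rho n m : ℤ[X]) * X ^ m) - (n : ℤ[X]) * X * ∑ m ∈ range (n + 1), (rho n m : ℤ[X]) * X ^ m := by
  have h := quad_trans (X : ℤ[X]) n
  have h1 := congrArg (fun P : ℤ[X] => X * (1 + X) * derivative P) h
  simp only [derivative_sum, Finset.mul_sum] at h1
  have hL : ∀ k ∈ range (n + 1), X * (1 + X) * derivative (((n.choose k : ℤ) : ℤ[X]) * (ck n k : ℤ[X]) * (X ^ k * (1 + X) ^ (n - k)))
      = ((k : ℕ) : ℤ[X]) * (((n.choose k : ℤ) : ℤ[X]) * (ck n k : ℤ[X]) * (X ^ k * (1 + X) ^ (n - k)))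
        + (n : ℤ[X]) * X * (((n.choose k : ℤ) : ℤ[X]) * (ck n k : ℤ[X]) * (X ^ k * (1 + X) ^ (n - k))) := by
    intro k hk
    rw [Finset.mem_range] at hk
    have e1 := X_mul_deriv_pow (X : ℤ[X]) k
    have e2 := X_mul_deriv_pow (1 + X : ℤ[X]) (n - k)
    have e3 : ((n - k : ℕ) : ℤ[X]) = (n : ℤ[X]) - (k : ℤ[X]) := by rw [Nat.cast_sub (by omega)]
    rw [e3] at e2
    simp only [derivative_mul, derivative_intCast, zero_mul, add_zero, zero_add, derivative_X, one_mul, derivative_add, derivative_one] at e1 e2 ⊢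
    set a := derivative ((X : ℤ[X]) ^ k)
    set b := derivative ((1 + X : ℤ[X]) ^ (n - k))
    linear_combination (((n.choose k : ℤ) : ℤ[X]) * (ck n k : ℤ[X]) * (1 + X) * (1 + X) ^ (n - k)) * e1
      + (((n.choose k : ℤ) : ℤ[X]) * (ck n k : ℤ[X]) * X * X ^ k) * e2
  have hR : ∀ m ∈ range (n + 1), X * (1 + X) * derivative ((rho n m : ℤ[X]) * X ^ m) = (1 + X) * (((m : ℕ) : ℤ[X]) * ((rho n m : ℤ[X]) * X ^ m)) := by
    intro m _
    have e1 := X_mul_deriv_pow (X : ℤ[X]) m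
    simp only [derivative_mul, derivative_intCast, zero_mul, zero_add, derivative_X, one_mul] at e1 ⊢
    linear_combination ((1 + X) * (rho n m : ℤ[X])) * e1
  rw [Finset.sum_congr rfl hL, Finset.sum_congr rfl hR, Finset.sum_add_distrib, ← Finset.mul_sum, h, ← Finset.mul_sum] at h1
  linear_combination h1

theorem quad_trans_deriv {A : Type*} [CommRing A] (u : A) (n : ℕ) :
    ∑ k ∈ range (n + 1), (k : A) * (((n.choose k : ℤ) : A) * (ck n k : A) * (u ^ k * (1 + u) ^ (n - k)))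
      = (1 + u) * ∑ m ∈ range (n + 1), ((m : ℤ) : A) * ((rho n m : A) * u ^ m) - (n : A) * u * ∑ m ∈ range (n + 1), (rho n m : A) * u ^ m := by
  have h := congrArg (aeval u) (quad_trans_deriv_poly n)
  simp only [map_sum, map_mul, map_sub, map_add, map_pow, map_natCast, map_intCast, aeval_X, map_one] at h
  simp only [Int.cast_natCast] at h ⊢
  exact h

variable {p : ℕ} [hp : Fact p.Prime]

lemma lift_term {A : Type*} [CommRing A] (s w : A) (hs : s ^ 2 = 2) (hw : 2 * w = 1) (n k : ℕ) (hk : k ≤ n) :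
    (2 + s) ^ n * ((-(s * w)) ^ k * (1 + -(s * w)) ^ (n - k)) = (-(1 + s)) ^ k := by
  have e1 : (2 + s) * -(s * w) = -(1 + s) := by linear_combination -w * hs - (1 + s) * hw
  have e2 : (2 + s) * (1 + -(s * w)) = 1 := by linear_combination -w * hs - (1 + s) * hw
  have e3 : (2 + s) ^ n = (2 + s) ^ k * (2 + s) ^ (n - k) := by rw [← pow_add]; congr 1; omega
  calc _ = ((2 + s) * -(s * w)) ^ k * ((2 + s) * (1 + -(s * w))) ^ (n - k) := by rw [e3, mul_pow, mul_pow]; ring
    _ = _ := by rw [e1, e2, one_pow, mul_one]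

lemma lift_sum {A : Type*} [CommRing A] (r w : A) (hr : r ^ 2 = 2) (hw : 2 * w = 1) (n : ℕ) (W : ℕ → A) :
    ∑ k ∈ range (n + 1), W k * (Qseq k : A) * 2 ^ k * ((n.choose k : A) * ((n + k).choose k : A)) =
      (2 + r) ^ n * ∑ k ∈ range (n + 1), W k * (((n.choose k : ℤ) : A) * (ck n k : A) * ((-(r * w)) ^ k * (1 + -(r * w)) ^ (n - k)))
      + (2 - r) ^ n * ∑ k ∈ range (n + 1), W k * (((n.choose k : ℤ) : A) * (ck n k : A) * ((r * w) ^ k * (1 + r * w) ^ (n - k))) := by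
  rw [Finset.mul_sum, Finset.mul_sum, ← Finset.sum_add_distrib]
  apply Finset.sum_congr rfl
  intro k hk
  rw [Finset.mem_range] at hk
  have h1 := lift_term r w hr hw n k (by omega)
  have h2 := lift_term (-r) w (by rw [neg_sq, hr]) hw n k (by omega)
  rw [← sub_eq_add_neg, neg_mul, neg_neg, ← sub_eq_add_neg] at h2
  rw [← Qseq_eq r hr k]
  unfold ck
  push_cast
  have e1 : (-2 : A) ^ k * (-(1 + r)) ^ k = 2 ^ k * (1 + r) ^ k := by rw [← mul_pow, ← mul_pow]; congr 1; ring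
  have e2 : (-2 : A) ^ k * (-(1 - r)) ^ k = 2 ^ k * (1 - r) ^ k := by rw [← mul_pow, ← mul_pow]; congr 1; ring
  linear_combination (- (W k * (n.choose k : A) * ((n + k).choose k : A) * (-2 : A) ^ k)) * h1
    - (W k * (n.choose k : A) * ((n + k).choose k : A) * (-2 : A) ^ k) * h2
    - (W k * (n.choose k : A) * ((n + k).choose k : A)) * e1 - (W k * (n.choose k : A) * ((n + k).choose k : A)) * e2

lemma io_two_hw (h2 : (2 : ZMod p) ≠ 0) : 2 * io p (hw p) = 1 := by
  have e := congrArg (io p) (two_hw (p := p) h2)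
  rwa [map_mul, map_one, map_ofNat] at e

/-- `H(1/2)` modulo `p` -/
lemma eval_HP {n f : ℕ} (h : Par p n f) : (HP p n f).eval (1 / 2) = red p (Hval p n f) := by
  unfold HP Hval
  rw [eval_finsetSum, map_sum]
  apply Finset.sum_congr rfl
  intro j _
  have h8 := red_eight_pow_ne (p := p) h.two_ne j
  have e8 : red p (8 : ZMod (p ^ 2)) = 4 * 2 := by
    have : red p ((8 : ℕ) : ZMod (p ^ 2)) = ((8 : ℕ) : ZMod p) := red_natCast 8
    push_cast at this
    rw [this]; norm_num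
  have e9 : red p ((Dj n j : ZMod (p ^ 2)) * ((8 : ZMod (p ^ 2)) ^ j)⁻¹) = (Dj n j : ZMod p) * ((4 * 2 : ZMod p) ^ j)⁻¹ := by
    rw [map_mul, red_natCast, red_inv h8, map_pow, e8]
  rw [e9]
  simp only [eval_mul, eval_C, eval_pow, eval_X]
  rw [mul_pow, mul_inv, one_div, inv_pow]
  ring

lemma eval_SP {n f : ℕ} (h : Par p n f) : (SP p n f).eval (1 / 2) = Sval p n f := by
  unfold SP Sval
  rw [eval_finsetSum]
  apply Finset.sum_congr rfl
  intro j _
  simp only [eval_mul, eval_C, eval_pow, eval_X]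
  have e8 : (8 : ZMod p) = 4 * 2 := by norm_num
  rw [e8, mul_pow, mul_inv, one_div, inv_pow]
  ring

/-- `H(1/2) = K` modulo `p^2` -/
theorem Hval_eq {n f : ℕ} (h : Par p n f) : Hval p n f = Kf p f := by
  have hG := gauss_eval (p := p) f n h
  rw [← eval_SP h, SP_half h, eval_HP h] at hG
  have e1 : eps p (Har p (2 * f) * red p (Hval p n f) / 4) = Hval p n f * eps p (Har p (2 * f) / 4) := by
    rw [mul_eps]; congr 1; ring
  rw [e1] at hG
  have e2 : uu p (-(Har p (2 * f) / 4)) * uu p (Har p (2 * f) / 4) = 1 := uu_neg_mul _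
  have e3 : uu p (Har p f / 4) * uu p (-(Har p (2 * f) / 4)) = 1 + eps p ((Har p f - Har p (2 * f)) / 4) := by
    rw [uu_mul]; unfold uu; congr 2; ring
  calc Hval p n f = Hval p n f * (uu p (-(Har p (2 * f) / 4)) * uu p (Har p (2 * f) / 4)) := by rw [e2, mul_one]
    _ = (Hval p n f + Hval p n f * eps p (Har p (2 * f) / 4)) * uu p (-(Har p (2 * f) / 4)) := by
        rw [show uu p (Har p (2 * f) / 4) = 1 + eps p (Har p (2 * f) / 4) from rfl]; ring
    _ = (-1) ^ f * (Nat.choose (2 * f) f : ZMod (p ^ 2)) * ((4 : ZMod (p ^ 2)) ^ f)⁻¹ * (uu p (Har p f / 4) * uu p (-(Har p (2 * f) / 4))) := by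
        rw [hG]; ring
    _ = _ := by rw [e3]; rfl

/-- the odd part at `u0` -/
lemma eps_ro {n f : ℕ} (h : Par p n f) : eps p ((roP p n f).eval (1 / 2)) = hw p * (Kf p f * eps p ((lP p n).eval (1 / 2))) := by
  have h2 := h.two_ne
  have e := ro_half h
  rw [eval_HP h, Hval_eq h] at e
  rw [mul_eps, mul_eps, red_hw h2]
  congr 1
  have : (roP p n f).eval (1 / 2) = 1 / 2 * (2 * (roP p n f).eval (1 / 2)) := by field_simp
  rw [this, e]
  ring

/-- `S0` modulo `p^2` in closed form -/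
theorem S0_closed {n f : ℕ} (h : Par p n f) :
    S0z p = Kf p f * (2 * ((ab n).1 : ZMod (p ^ 2)) - ((ab n).2 : ZMod (p ^ 2)) * eps p ((lP p n).eval (1 / 2))) := by
  apply io_inj
  have h2 := h.two_ne
  have hr := rr_sq p
  have hw2 := io_two_hw (p := p) h2
  have hs := sum_general h (fun k => (Qseq k : ZMod (p ^ 2)))
  unfold S0z
  rw [hs, map_sum]
  have hL := lift_sum (rr p) (io p (hw p)) hr hw2 n (fun _ => 1)
  simp only [one_mul] at hL
  have e0 : ∀ k ∈ range (n + 1), io p ((Qseq k : ZMod (p ^ 2)) * 2 ^ k * ((n.choose k : ZMod (p ^ 2)) * ((n + k).choose k : ZMod (p ^ 2))))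
      = (Qseq k : QA p) * 2 ^ k * ((n.choose k : QA p) * ((n + k).choose k : QA p)) := by
    intro k _
    simp only [map_mul, map_pow, map_intCast, map_natCast, map_ofNat]
  rw [Finset.sum_congr rfl e0, hL, quad_trans, quad_trans, pow_ab (rr p) hr, pow_ab' (rr p) hr]
  have hu1 := aux_u (p := p) h2 (rr p) hr
  have hu2 : (rr p * io p (hw p)) ^ 2 = io p (hw p) := by
    have := hu1
    rwa [neg_sq] at this
  rw [R_val (io p) h _ hu1, R_val (io p) h _ hu2, Hval_eq h, eps_ro h]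
  simp only [map_mul, map_sub, map_intCast, map_ofNat]
  set w := io p (hw p)
  set K := io p (Kf p f)
  set L := io p (eps p ((lP p n).eval (1 / 2)))
  set a := ((ab n).1 : QA p)
  set b := ((ab n).2 : QA p)
  set r := rr p
  linear_combination (-2 * b * w ^ 2 * K * L) * hr - (b * K * L * (2 * w + 1)) * hw2

end Pool.Agent.Pell
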