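import Mathlib

namespace Pool.Agent.Pell

open Finset

section general

variable {k : Type} [Field k] [Fintype k] [DecidableEq k] {S : Type} [CommRing S]

lemma exists_dlog (g : kˣ) (hg : ∀ x : kˣ, x ∈ Subgroup.zpowers g) :
    ∃ d : k → ℕ, ∀ x : k, x ≠ 0 → (g : k) ^ d x = x := by
  have h : ∀ x : k, ∃ n : ℕ, x ≠ 0 → (g : k) ^ n = x := by
    intro x
    by_cases hx : x = 0
    · exact ⟨0, fun h => absurd hx h⟩
    · obtain ⟨n, hn⟩ := mem_powers_iff_mem_zpowers.mpr (hg (Units.mk0 x hx))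
      refine ⟨n, fun _ => ?_⟩
      have := congrArg (fun u : kˣ => (u : k)) hn
      simpa using this
  choose d hd using h
  exact ⟨d, hd⟩

/-- structure of the Jacobi sum `J(ψ, ψ³)` for `ψ` of order 8 -/
theorem jac_struct_aux (g : kˣ) (hg : ∀ x : kˣ, x ∈ Subgroup.zpowers g) :
    ∃ n0 n1 : ℤ, ∀ (S : Type) [CommRing S] (ζ : S) (ψ : MulChar k S), ζ ^ 4 = -1 → ψ (g : k) = ζ →
      jacobiSum ψ (ψ ^ 3) = n0 + n1 * (ζ + ζ ^ 3) := by
  obtain ⟨d, hd⟩ := exists_dlog g hg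
  let s : Finset k := univ.filter (fun x => x ≠ 0 ∧ 1 - x ≠ 0)
  let e : k → ℕ := fun x => (d x + 3 * d (1 - x)) % 8
  let N : ℕ → ℕ := fun m => (s.filter (fun x => e x = m)).card
  have hswap : ∀ m, m < 8 → N m = N (3 * m % 8) := by
    intro m hm
    apply Finset.card_nbij' (fun x => 1 - x) (fun x => 1 - x)
    · intro x hx
      simp only [s, e, Finset.coe_filter, Finset.mem_filter, Finset.mem_univ, true_and, Set.mem_setOf_eq] at hx ⊢
      refine ⟨⟨hx.1.2, by simpa using hx.1.1⟩, ?_⟩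
      rw [sub_sub_cancel, ← hx.2]
      omega
    · intro x hx
      simp only [s, e, Finset.coe_filter, Finset.mem_filter, Finset.mem_univ, true_and, Set.mem_setOf_eq] at hx ⊢
      refine ⟨⟨hx.1.2, by simpa using hx.1.1⟩, ?_⟩
      rw [sub_sub_cancel]
      have := hx.2
      omega
    · intro x _; simp
    · intro x _; simp
  have h13 : N 1 = N 3 := hswap 1 (by norm_num)
  have h26 : N 2 = N 6 := hswap 2 (by norm_num)
  have h57 : N 5 = N 7 := hswap 5 (by norm_num)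
  refine ⟨(N 0 : ℤ) - N 4, (N 1 : ℤ) - N 5, ?_⟩
  intro S _ ζ ψ hζ hψ
  have hζ8 : ζ ^ 8 = 1 := by
    calc ζ ^ 8 = (ζ ^ 4) ^ 2 := by ring
      _ = 1 := by rw [hζ]; ring
  have hval : ∀ x : k, x ≠ 0 → ψ x = ζ ^ d x := by
    intro x hx
    conv_lhs => rw [← hd x hx]
    rw [map_pow, hψ]
  have hterm : ∀ x ∈ s, ψ x * (ψ ^ 3) (1 - x) = ζ ^ e x := by
    intro x hx
    simp only [s, Finset.mem_filter, Finset.mem_univ, true_and] at hx
    rw [MulChar.pow_apply' _ (by norm_num), hval x hx.1, hval (1 - x) hx.2, ← pow_mul, ← pow_add]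
    have h1 : d x + d (1 - x) * 3 = 8 * ((d x + 3 * d (1 - x)) / 8) + e x := by
      simp only [e]; omega
    rw [h1, pow_add, pow_mul, hζ8, one_pow, one_mul]
  have hzero : ∀ x ∈ (univ : Finset k), x ∉ s → ψ x * (ψ ^ 3) (1 - x) = 0 := by
    intro x _ hx
    simp only [s, Finset.mem_filter, Finset.mem_univ, true_and, not_and_or, not_not] at hx
    rcases hx with hx | hx
    · rw [hx, MulChar.map_zero, zero_mul]
    · rw [hx, MulChar.map_zero, mul_zero]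
  unfold jacobiSum
  rw [← Finset.sum_subset (Finset.subset_univ s) hzero, Finset.sum_congr rfl hterm]
  rw [← Finset.sum_fiberwise_of_maps_to (t := range 8) (g := e) (fun x _ => by
    simp only [e, Finset.mem_range]; omega)]
  have hfib : ∀ m ∈ range 8, ∑ x ∈ s.filter (fun x => e x = m), ζ ^ e x = (N m : S) * ζ ^ m := by
    intro m _
    rw [Finset.sum_congr rfl (g := fun _ => ζ ^ m) (by
      intro x hx
      rw [Finset.mem_filter] at hx
      rw [hx.2]), Finset.sum_const, nsmul_eq_mul]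
  rw [Finset.sum_congr rfl hfib]
  simp only [Finset.sum_range_succ, Finset.sum_range_zero]
  rw [h13, h26, h57]
  have e4 : ζ ^ 4 = -1 := hζ
  have e5 : ζ ^ 5 = -ζ := by rw [pow_succ, hζ]; ring
  have e6 : ζ ^ 6 = -ζ ^ 2 := by rw [show ζ ^ 6 = ζ ^ 4 * ζ ^ 2 by ring, hζ]; ring
  have e7 : ζ ^ 7 = -ζ ^ 3 := by rw [show ζ ^ 7 = ζ ^ 4 * ζ ^ 3 by ring, hζ]; ring
  rw [e4, e5, e6, e7]
  push_cast
  ring

/-- structure of the Jacobi sum `J(ψ, ψ³)` for `ψ` of order 8, with the norm -/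
theorem jac_struct (g : kˣ) (hg : ∀ x : kˣ, x ∈ Subgroup.zpowers g) (h8 : 8 ∣ Fintype.card k - 1) :
    ∃ n0 n1 : ℤ, n0 ^ 2 + 2 * n1 ^ 2 = Fintype.card k ∧
      ∀ (S : Type) [CommRing S] (ζ : S) (ψ : MulChar k S), ζ ^ 4 = -1 → ψ (g : k) = ζ →
      jacobiSum ψ (ψ ^ 3) = n0 + n1 * (ζ + ζ ^ 3) := by
  obtain ⟨n0, n1, h⟩ := jac_struct_aux g hg
  refine ⟨n0, n1, ?_, h⟩
  obtain ⟨ζ, hζp⟩ : ∃ ζ : ℂ, IsPrimitiveRoot ζ 8 := ⟨_, Complex.isPrimitiveRoot_exp 8 (by norm_num)⟩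
  have hζ4 : ζ ^ 4 = -1 := by
    have h1 : IsPrimitiveRoot (ζ ^ 4) 2 := hζp.pow (by norm_num) (by norm_num)
    exact h1.eq_neg_one_of_two_right
  have hζ0 : ζ ≠ 0 := hζp.ne_zero (by norm_num)
  -- the character
  let μ : ℂˣ := Units.mk0 ζ hζ0
  have hμ : μ ∈ rootsOfUnity (Fintype.card kˣ) ℂ := by
    rw [mem_rootsOfUnity, Fintype.card_units]
    ext
    push_cast
    obtain ⟨t, ht⟩ := h8
    rw [ht, pow_mul]
    simp [μ, hζp.pow_eq_one]
  let ψ : MulChar k ℂ := MulChar.ofRootOfUnity hμ hg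
  have hψ : ψ (g : k) = ζ := MulChar.ofRootOfUnity_spec hμ hg
  have h1ne : ψ ≠ 1 := by
    intro h1
    have : ψ (g : k) = 1 := by rw [h1]; exact MulChar.one_apply_coe g
    rw [hψ] at this
    rw [this] at hζ4
    norm_num at hζ4
  have h3ne : ψ ^ 3 ≠ 1 := by
    intro h1
    have h2 : (ψ ^ 3) (g : k) = 1 := by rw [h1]; exact MulChar.one_apply_coe g
    rw [MulChar.pow_apply_coe, hψ] at h2
    have : ζ ^ 4 = ζ := by rw [pow_succ, h2, one_mul]
    rw [hζ4] at this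
    rw [← this] at h2
    norm_num at h2
  have h4ne : ψ * ψ ^ 3 ≠ 1 := by
    intro h1
    have h2 : (ψ * ψ ^ 3) (g : k) = 1 := by rw [h1]; exact MulChar.one_apply_coe g
    rw [MulChar.mul_apply, MulChar.pow_apply_coe, hψ] at h2
    have : ζ ^ 4 = 1 := by rw [← h2]; ring
    rw [hζ4] at this
    norm_num at this
  have hchar : ringChar ℂ ≠ ringChar k := by
    rw [ringChar.eq_zero]
    intro h0
    have := CharP.ringChar_ne_one (R := k)
    have h2 := ringChar.charP k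
    rw [← h0] at h2
    exact CharP.char_ne_zero_of_finite k 0 rfl
  have hprod := jacobiSum_mul_jacobiSum_inv hchar h1ne h3ne h4ne
  have hJ := h ℂ ζ ψ hζ4 hψ
  have hψi : ψ⁻¹ (g : k) = ζ⁻¹ := by
    rw [MulChar.inv_apply_eq_inv, hψ, Ring.inverse_eq_inv']
  have hζi4 : ζ⁻¹ ^ 4 = -1 := by rw [inv_pow, hζ4]; norm_num
  have hJi := h ℂ ζ⁻¹ ψ⁻¹ hζi4 hψi
  have h3inv : (ψ ^ 3)⁻¹ = ψ⁻¹ ^ 3 := by rw [inv_pow]
  rw [h3inv, hJ, hJi] at hprod
  have hinv : ζ⁻¹ = -ζ ^ 3 := by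
    have : ζ * (-ζ ^ 3) = 1 := by
      have : ζ * (-ζ ^ 3) = -ζ ^ 4 := by ring
      rw [this, hζ4]; norm_num
    exact inv_eq_of_mul_eq_one_right this
  have hinv3 : ζ⁻¹ ^ 3 = -ζ := by
    rw [hinv]
    have : (-ζ ^ 3) ^ 3 = -(ζ ^ 4) ^ 2 * ζ := by ring
    rw [this, hζ4]; ring
  rw [hinv3, hinv] at hprod
  have hom : (ζ + ζ ^ 3) ^ 2 = -2 := by
    have : (ζ + ζ ^ 3) ^ 2 = ζ ^ 2 * (1 + ζ ^ 4) + 2 * ζ ^ 4 := by ring
    rw [this, hζ4]; ring
  have hfin : ((n0 ^ 2 + 2 * n1 ^ 2 : ℤ) : ℂ) = ((Fintype.card k : ℤ) : ℂ) := by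
    push_cast
    rw [← hprod]
    linear_combination ((n1 : ℂ) ^ 2) * hom
  exact_mod_cast hfin

/-- `J(a, (ab)⁻¹) = a(-1) J(a,b)` -/
lemma jac_twist (a b : MulChar k S) : jacobiSum a (a * b)⁻¹ = a (-1) * jacobiSum a b := by
  unfold jacobiSum
  have z1 : (a : k → S) 1 * (a * b)⁻¹ (1 - 1) = 0 := by rw [sub_self, MulChar.map_zero, mul_zero]
  have z2 : (a : k → S) 1 * b (1 - 1) = 0 := by rw [sub_self, MulChar.map_zero, mul_zero]
  rw [← Finset.sum_erase (s := univ) (a := (1 : k)) (f := fun x => a x * (a * b)⁻¹ (1 - x)) z1,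
    ← Finset.sum_erase (s := univ) (a := (1 : k)) (f := fun x => a x * b (1 - x)) z2, Finset.mul_sum]
  apply Finset.sum_nbij' (fun x => x / (x - 1)) (fun x => x / (x - 1))
  · intro x hx
    rw [Finset.mem_erase] at hx ⊢
    refine ⟨?_, Finset.mem_univ _⟩
    have h1 : x - 1 ≠ 0 := sub_ne_zero.mpr hx.1
    intro h
    rw [div_eq_one_iff_eq h1] at h
    have : (1 : k) = 0 := by linear_combination h
    exact one_ne_zero this
  · intro x hx
    rw [Finset.mem_erase] at hx ⊢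
    refine ⟨?_, Finset.mem_univ _⟩
    have h1 : x - 1 ≠ 0 := sub_ne_zero.mpr hx.1
    intro h
    rw [div_eq_one_iff_eq h1] at h
    have : (1 : k) = 0 := by linear_combination h
    exact one_ne_zero this
  · intro x hx
    rw [Finset.mem_erase] at hx
    have h1 : x - 1 ≠ 0 := sub_ne_zero.mpr hx.1
    have h2 : x / (x - 1) - 1 = 1 / (x - 1) := by field_simp; ring
    rw [h2]
    field_simp
  · intro x hx
    rw [Finset.mem_erase] at hx
    have h1 : x - 1 ≠ 0 := sub_ne_zero.mpr hx.1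
    have h2 : x / (x - 1) - 1 = 1 / (x - 1) := by field_simp; ring
    rw [h2]
    field_simp
  · intro x hx
    rw [Finset.mem_erase] at hx
    have h1 : x - 1 ≠ 0 := sub_ne_zero.mpr hx.1
    -- a x * (ab)⁻¹ (1-x) = a(-1) * (a (x/(x-1)) * b (1 - x/(x-1)))
    have e1 : x / (x - 1) = x * (x - 1)⁻¹ := div_eq_mul_inv _ _
    have e2 : 1 - x / (x - 1) = (1 - x)⁻¹ := by
      have h3 : (1 - x) ≠ 0 := sub_ne_zero.mpr (Ne.symm hx.1)
      field_simp
      ring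
    have e3 : (x - 1)⁻¹ = (-1) * (1 - x)⁻¹ := by
      rw [← neg_sub, inv_neg]; ring
    rw [e2, e1, e3, map_mul, map_mul, MulChar.inv_apply', MulChar.mul_apply]
    have e4 : a (-1) * a (-1) = 1 := by rw [← map_mul]; simp
    linear_combination (-(a x * a (1 - x)⁻¹ * b (1 - x)⁻¹)) * e4

end general

section domain

variable {k : Type} [Field k] [Fintype k] [DecidableEq k] {S : Type} [CommRing S] [IsDomain S]

/-- `a(4) J(a,a) = J(φ,a)` with the quadratic character `φ` -/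
lemma jac_quad (h2 : ringChar k ≠ 2) (a φ : MulChar k S) (ha : a ≠ 1)
    (hφ : ∀ x : k, φ x = ((quadraticChar k x : ℤ) : S)) :
    a 4 * jacobiSum a a = jacobiSum φ a := by
  have hk2 : (2 : k) ≠ 0 := Ring.two_ne_zero h2
  have h4 : (4 : k) ≠ 0 := by
    have : (4 : k) = 2 * 2 := by norm_num
    rw [this]; exact mul_ne_zero hk2 hk2
  -- J(a,a) as a sum over s
  have e1 : a 4 * jacobiSum a a = ∑ s : k, a (1 - s ^ 2) := by
    unfold jacobiSum
    rw [Finset.mul_sum]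
    apply Finset.sum_nbij' (fun x => 1 - 2 * x) (fun s => (1 - s) / 2)
    · intro x _; exact Finset.mem_univ _
    · intro x _; exact Finset.mem_univ _
    · intro x _; field_simp; ring
    · intro x _; field_simp; ring
    · intro x _
      rw [← map_mul, ← map_mul]
      congr 1
      ring
  have e2 : ∑ s : k, a (1 - s ^ 2) = ∑ x : k, (φ x + 1) * a (1 - x) := by
    rw [← Finset.sum_fiberwise_of_maps_to (s := (univ : Finset k)) (t := univ) (g := fun s : k => s ^ 2) (fun _ _ => Finset.mem_univ _)]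
    apply Finset.sum_congr rfl
    intro x _
    rw [Finset.sum_congr rfl (g := fun _ => a (1 - x)) (by
      intro s hs
      rw [Finset.mem_filter] at hs
      rw [hs.2]), Finset.sum_const, nsmul_eq_mul, hφ]
    have := quadraticChar_card_sqrts h2 x
    have h3 : (({s ∈ (univ : Finset k) | s ^ 2 = x}.card : ℤ)) = quadraticChar k x + 1 := by
      rw [← this]
      congr 2
      ext s
      simp
    have h4 : (({s ∈ (univ : Finset k) | s ^ 2 = x}.card : S)) = ((quadraticChar k x : ℤ) : S) + 1 := by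
      exact_mod_cast congrArg (Int.cast : ℤ → S) h3
    rw [h4]
  have e3 : ∑ x : k, a (1 - x) = 0 := by
    have := MulChar.sum_eq_zero_of_ne_one ha
    rw [← this]
    exact Equiv.sum_comp (Equiv.subLeft (1 : k)) (fun x => a x)
  rw [e1, e2]
  unfold jacobiSum
  simp only [add_mul, one_mul, Finset.sum_add_distrib]
  rw [e3, add_zero]

lemma pow_four_quad (h2 : ringChar k ≠ 2) (g : kˣ) (hg : ∀ x : kˣ, x ∈ Subgroup.zpowers g) (ζ : S) (hζ : ζ ^ 4 = -1)
    (ψ : MulChar k S) (hψ : ψ (g : k) = ζ) (x : k) : (ψ ^ 4) x = ((quadraticChar k x : ℤ) : S) := by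
  by_cases hx : x = 0
  · subst hx
    rw [MulChar.map_zero]
    simp
  obtain ⟨d, hd⟩ := exists_dlog g hg
  have hgq : quadraticChar k (g : k) = -1 := by
    rcases quadraticChar_dichotomy (Units.ne_zero g) with h | h
    · exfalso
      obtain ⟨a, ha⟩ := quadraticChar_exists_neg_one h2
      have ha0 : a ≠ 0 := by
        rintro rfl
        rw [MulChar.map_zero] at ha
        norm_num at ha
      rw [← hd a ha0, map_pow, h, one_pow] at ha
      norm_num at ha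
    · exact h
  rw [← hd x hx, map_pow, map_pow, hgq, MulChar.pow_apply_coe, hψ, hζ]
  push_cast
  ring

/-- `J(a,a³) = a(4) J(ψ⁻¹, ψ²)`, `a = ψ⁻¹` of order 8 -/
theorem jac_rel (h2 : ringChar k ≠ 2) (g : kˣ) (hg : ∀ x : kˣ, x ∈ Subgroup.zpowers g) (ζ : S) (hζ : ζ ^ 4 = -1)
    (ψ : MulChar k S) (hψ : ψ (g : k) = ζ) (hS2 : (2 : S) ≠ 0) :
    jacobiSum ψ⁻¹ (ψ⁻¹ ^ 3) = ψ⁻¹ 4 * jacobiSum ψ⁻¹ (ψ ^ 2) := by
  have t1 := jac_twist (ψ⁻¹) (ψ ^ 2)
  have h1 : (ψ⁻¹ * ψ ^ 2)⁻¹ = ψ⁻¹ := by group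
  rw [h1] at t1
  have t2 := jac_twist (ψ⁻¹) (ψ ^ 4)
  have h3 : (ψ⁻¹ * ψ ^ 4)⁻¹ = ψ⁻¹ ^ 3 := by group
  rw [h3] at t2
  have hne : ψ⁻¹ ≠ 1 := by
    intro h
    have h' : ψ = 1 := by rw [← inv_inv ψ, h, inv_one]
    have : ψ (g : k) = 1 := by rw [h']; exact MulChar.one_apply_coe g
    rw [hψ] at this
    rw [this, one_pow] at hζ
    apply hS2
    linear_combination hζ
  have t3 := jac_quad h2 (ψ⁻¹) (ψ ^ 4) hne (pow_four_quad h2 g hg ζ hζ ψ hψ)
  rw [jacobiSum_comm (ψ ^ 4) ψ⁻¹] at t3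
  rw [t2, ← t3, t1]
  have e4 : ψ⁻¹ (-1 : k) * ψ⁻¹ (-1 : k) = 1 := by rw [← map_mul]; simp
  linear_combination (ψ⁻¹ (4 : k) * jacobiSum ψ⁻¹ (ψ ^ 2)) * e4

end domain

end Pool.Agent.Pell
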