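import Pool.Agent.Pell.JFormB
import Pool.Agent.Pell.Jac

namespace Pool.Agent.Pell

open Finset Polynomial

/-- uniqueness of `p = a² + 2b²` -/
lemma rep_A {p : ℕ} (hp : p.Prime) {a b c d : ℤ} (h1 : a ^ 2 + 2 * b ^ 2 = p) (h2 : c ^ 2 + 2 * d ^ 2 = p) :
    a ^ 2 = c ^ 2 ∧ b ^ 2 = d ^ 2 := by
  have hpI : Prime (p : ℤ) := Nat.prime_iff_prime_int.mp hp
  have hpos : (0 : ℤ) < p := by exact_mod_cast hp.pos
  have hprod : (a * d - b * c) * (a * d + b * c) = p * (d ^ 2 - b ^ 2) := by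
    have e1 : a ^ 2 = p - 2 * b ^ 2 := by linarith
    have e2 : c ^ 2 = p - 2 * d ^ 2 := by linarith
    have : (a * d - b * c) * (a * d + b * c) = a ^ 2 * d ^ 2 - b ^ 2 * c ^ 2 := by ring
    rw [this, e1, e2]; ring
  have key : ∀ t u : ℤ, u ^ 2 + 2 * t ^ 2 = p ^ 2 → (p : ℤ) ∣ t → t = 0 := by
    intro t u hu ⟨s, hs⟩
    by_contra h0
    have hs0 : s ≠ 0 := by rintro rfl; exact h0 (by rw [hs]; ring)
    have hs1 : 1 ≤ s ^ 2 := by
      have : 0 < s ^ 2 := by positivity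
      omega
    have : (2 : ℤ) * (p : ℤ) ^ 2 ≤ 2 * t ^ 2 := by
      rw [hs, mul_pow]; nlinarith [sq_nonneg (p : ℤ)]
    nlinarith [sq_nonneg u, pow_pos hpos 2]
  have hd : (p : ℤ) ∣ (a * d - b * c) * (a * d + b * c) := ⟨_, hprod⟩
  have hb2 : d ^ 2 = b ^ 2 := by
    have hz : (a * d - b * c) * (a * d + b * c) = 0 := by
      rcases hpI.dvd_or_dvd hd with h | h
      · have := key (a * d - b * c) (a * c + 2 * b * d) (by
          have : (a * c + 2 * b * d) ^ 2 + 2 * (a * d - b * c) ^ 2 = (a ^ 2 + 2 * b ^ 2) * (c ^ 2 + 2 * d ^ 2) := by ring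
          rw [this, h1, h2]; ring) h
        rw [this, zero_mul]
      · have := key (a * d + b * c) (a * c - 2 * b * d) (by
          have : (a * c - 2 * b * d) ^ 2 + 2 * (a * d + b * c) ^ 2 = (a ^ 2 + 2 * b ^ 2) * (c ^ 2 + 2 * d ^ 2) := by ring
          rw [this, h1, h2]; ring) h
        rw [this, mul_zero]
    rw [hprod] at hz
    rcases mul_eq_zero.mp hz with h | h
    · exact absurd h hpos.ne'
    · linarith
  constructor
  · linarith
  · exact hb2.symm

lemma rep_B {p : ℕ} (hp : p.Prime) {m l X Y : ℤ} (h1 : m ^ 2 + 2 * l ^ 2 = (p : ℤ) ^ 2) (h2 : X ^ 2 + 2 * Y ^ 2 = p)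
    (hp2 : p ≠ 2) (hm : ¬ (p : ℤ) ∣ m) : m = 2 * X ^ 2 - p ∨ m = - (2 * X ^ 2 - p) := by
  have hpI : Prime (p : ℤ) := Nat.prime_iff_prime_int.mp hp
  have hpos : (0 : ℤ) < p := by exact_mod_cast hp.pos
  have hp2' : ¬ (p : ℤ) ∣ 2 := by
    intro h
    have := Int.natCast_dvd_natCast.mp (by exact_mod_cast h : (p : ℤ) ∣ ((2 : ℕ) : ℤ))
    have := (Nat.prime_dvd_prime_iff_eq hp Nat.prime_two).mp this
    exact hp2 this
  -- the main case
  have main : ∀ l : ℤ, m ^ 2 + 2 * l ^ 2 = (p : ℤ) ^ 2 → (p : ℤ) ∣ m * X + 2 * l * Y →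
      m = 2 * X ^ 2 - p ∨ m = - (2 * X ^ 2 - p) := by
    intro l h1 hd
    have hnorm : (m * X + 2 * l * Y) ^ 2 + 2 * (l * X - m * Y) ^ 2 = (p : ℤ) ^ 3 := by
      have : (m * X + 2 * l * Y) ^ 2 + 2 * (l * X - m * Y) ^ 2 = (m ^ 2 + 2 * l ^ 2) * (X ^ 2 + 2 * Y ^ 2) := by ring
      rw [this, h1, h2]; ring
    obtain ⟨α, hα⟩ := hd
    have hd2 : (p : ℤ) ∣ l * X - m * Y := by
      have : (p : ℤ) ∣ 2 * (l * X - m * Y) ^ 2 := by
        rw [hα] at hnorm
        exact ⟨(p : ℤ) ^ 2 - p * α ^ 2, by linear_combination hnorm⟩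
      rcases hpI.dvd_or_dvd this with h | h
      · exact absurd h hp2'
      · exact hpI.dvd_of_dvd_pow h
    obtain ⟨β, hβ⟩ := hd2
    have hab : α ^ 2 + 2 * β ^ 2 = p := by
      rw [hα, hβ] at hnorm
      have : (p : ℤ) ^ 2 * (α ^ 2 + 2 * β ^ 2) = (p : ℤ) ^ 2 * p := by linear_combination hnorm
      exact mul_left_cancel₀ (pow_ne_zero 2 hpos.ne') this
    obtain ⟨ha, hb⟩ := rep_A hp hab h2
    have hmval : m = X * α - 2 * Y * β := by
      have : (p : ℤ) * m = p * (X * α - 2 * Y * β) := by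
        calc (p : ℤ) * m = (X ^ 2 + 2 * Y ^ 2) * m := by rw [h2]
          _ = X * (m * X + 2 * l * Y) - 2 * Y * (l * X - m * Y) := by ring
          _ = X * (p * α) - 2 * Y * (p * β) := by rw [hα, hβ]
          _ = _ := by ring
      exact mul_left_cancel₀ hpos.ne' this
    rcases sq_eq_sq_iff_eq_or_eq_neg.mp ha with h | h <;> rcases sq_eq_sq_iff_eq_or_eq_neg.mp hb with h' | h'
    · left; rw [hmval, h, h']; linear_combination (-1 : ℤ) * h2
    · exfalso; apply hm; rw [hmval, h, h']; exact ⟨1, by linear_combination h2⟩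
    · exfalso; apply hm; rw [hmval, h, h']; exact ⟨-1, by linear_combination (-1 : ℤ) * h2⟩
    · right; rw [hmval, h, h']; linear_combination h2
  have hprod : (m * X + 2 * l * Y) * (m * X - 2 * l * Y) = p * (p * X ^ 2 - 2 * l ^ 2) := by
    have e1 : m ^ 2 = (p : ℤ) ^ 2 - 2 * l ^ 2 := by linarith
    have e2 : Y ^ 2 * 2 = p - X ^ 2 := by linarith
    calc (m * X + 2 * l * Y) * (m * X - 2 * l * Y) = m ^ 2 * X ^ 2 - 2 * l ^ 2 * (Y ^ 2 * 2) := by ring
      _ = _ := by rw [e1, e2]; ring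
  rcases hpI.dvd_or_dvd (⟨_, hprod⟩ : (p : ℤ) ∣ (m * X + 2 * l * Y) * (m * X - 2 * l * Y)) with h | h
  · exact main l h1 h
  · exact main (-l) (by rw [neg_sq]; exact h1) (by
      have : m * X + 2 * -l * Y = m * X - 2 * l * Y := by ring
      rw [this]; exact h)

variable {p : ℕ} [hp : Fact p.Prime] {k : Type} [Field k] [Fintype k] [DecidableEq k] [CharP k p]

/-- the character `x ↦ T(x)^β` -/
noncomputable def tchar (p : ℕ) [Fact p.Prime] (k : Type) [Field k] (β : ℕ) (hβ : β ≠ 0) : MulChar k (WittVector p k) where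
  toFun := fun x => WittVector.teichmuller p x ^ β
  map_one' := by simp
  map_mul' := by intro x y; rw [map_mul, mul_pow]
  map_nonunit' := by
    intro a ha
    have : a = 0 := by
      by_contra h
      exact ha (IsUnit.mk0 a h)
    rw [this, WittVector.teichmuller_zero, zero_pow hβ]

omit [Fintype k] [DecidableEq k] [CharP k p] in
lemma tchar_apply (β : ℕ) (hβ : β ≠ 0) (x : k) : tchar p k β hβ x = WittVector.teichmuller p x ^ β := rfl

/-- the core statement: the Jacobi sum modulo `p²` -/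
theorem core (h2 : p ≠ 2) (g : kˣ) (hg : ∀ x : kˣ, x ∈ Subgroup.zpowers g) (β : ℕ) (hβ : Fintype.card k - 1 = 8 * β) :
    ∃ n0 n1 : ℤ, n0 ^ 2 + 2 * n1 ^ 2 = Fintype.card k ∧
      ∃ U : W2 p k, U * (2 * n0 - U) = Fintype.card k ∧
        U = tau p (4 : k) ^ (7 * β) * ∑ x : k, tau p x ^ (8 * β - β) * tau p (1 - x) ^ (2 * β) := by
  have hcard : 1 < Fintype.card k := Fintype.one_lt_card
  have hβ0 : β ≠ 0 := by rintro rfl; omega
  have hord : orderOf g = Fintype.card k - 1 := by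
    rw [orderOf_eq_card_of_forall_mem_zpowers hg, Nat.card_eq_fintype_card, Fintype.card_units]
  have hinj : ∀ x y : k, WittVector.teichmuller p x = WittVector.teichmuller p y → x = y := by
    intro x y h
    have := congrArg (fun z : WittVector p k => z.coeff 0) h
    simpa using this
  obtain ⟨n0, n1, hn, hJ⟩ := jac_struct g hg (by rw [hβ]; exact dvd_mul_right _ _)
  refine ⟨n0, n1, hn, ?_⟩
  set ψ := tchar p k β hβ0 with hψ
  set ζ := ψ (g : k) with hζ
  have hζ8 : (ζ ^ 4) ^ 2 = 1 := by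
    rw [hζ, hψ, tchar_apply, ← pow_mul, ← pow_mul, ← map_pow]
    have : (g : k) ^ (β * (4 * 2)) = 1 := by
      have : β * (4 * 2) = Fintype.card k - 1 := by rw [hβ]; ring
      rw [this]
      exact FiniteField.pow_card_sub_one_eq_one (g : k) (Units.ne_zero g)
    rw [this, map_one]
  have hζ4 : ζ ^ 4 = -1 := by
    have hfac : (ζ ^ 4 - 1) * (ζ ^ 4 + 1) = 0 := by linear_combination hζ8
    have hcases : ζ ^ 4 = 1 ∨ ζ ^ 4 = -1 := by
      rcases mul_eq_zero.mp hfac with h | h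
      · left; linear_combination h
      · right; linear_combination h
    rcases hcases with h | h
    · exfalso
      rw [hζ, hψ, tchar_apply, ← pow_mul, ← map_pow, ← map_one (WittVector.teichmuller p (R := k))] at h
      have h1 := hinj _ _ h
      have h3 : g ^ (β * 4) = 1 := by
        ext; push_cast; exact h1
      have h4 := orderOf_dvd_of_pow_eq_one h3
      rw [hord, hβ] at h4
      have := Nat.le_of_dvd (by omega) h4
      omega
    · exact h
  have hinv : ψ⁻¹ (g : k) * ζ = 1 := by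
    rw [hζ, ← MulChar.mul_apply, inv_mul_cancel]
    exact MulChar.one_apply_coe g
  set ζ' := ψ⁻¹ (g : k) with hζ'
  have hζ'4 : ζ' ^ 4 = -1 := by
    have : ζ' ^ 4 * ζ ^ 4 = 1 := by rw [← mul_pow, hinv, one_pow]
    rw [hζ4] at this
    linear_combination -this
  have hJ' := hJ (WittVector p k) ζ' ψ⁻¹ hζ'4 rfl
  have hch2 : ringChar k ≠ 2 := by
    rw [ringChar.eq k p]; exact h2
  have hW2 : (2 : WittVector p k) ≠ 0 := by
    intro h
    have h1 : (p : WittVector p k) ∣ ((2 : ℤ) : WittVector p k) := by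
      have : ((2 : ℤ) : WittVector p k) = 2 := by norm_num
      rw [this, h]; exact dvd_zero _
    rw [p_dvd_iff, coeff_zero_intCast] at h1
    have := (CharP.intCast_eq_zero_iff k p 2).mp h1
    have h3 := Int.natCast_dvd_natCast.mp (by exact_mod_cast this : (p : ℤ) ∣ ((2 : ℕ) : ℤ))
    exact h2 ((Nat.prime_dvd_prime_iff_eq hp.out Nat.prime_two).mp h3)
  have hrel := jac_rel hch2 g hg ζ hζ4 ψ rfl hW2
  have hom : (ζ' + ζ' ^ 3) ^ 2 = -2 := by
    have : (ζ' + ζ' ^ 3) ^ 2 = ζ' ^ 2 * (1 + ζ' ^ 4) + 2 * ζ' ^ 4 := by ring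
    rw [this, hζ'4]; ring
  -- values of ψ⁻¹
  have hval : ∀ x : k, x ≠ 0 → ψ⁻¹ x = WittVector.teichmuller p x ^ (7 * β) := by
    intro x hx
    rw [MulChar.inv_apply', hψ, tchar_apply, ← map_pow, ← map_pow]
    congr 1
    have h1 : x ^ (8 * β) = 1 := by rw [← hβ]; exact FiniteField.pow_card_sub_one_eq_one x hx
    have h3 : x ^ (7 * β) * x ^ β = 1 := by rw [← pow_add, ← h1]; congr 1; ring
    rw [inv_pow]
    exact (eq_inv_of_mul_eq_one_left h3).symm
  have hk4 : (4 : k) ≠ 0 := by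
    have h3 : (2 : k) ≠ 0 := Ring.two_ne_zero hch2
    have : (4 : k) = 2 * 2 := by norm_num
    rw [this]; exact mul_ne_zero h3 h3
  refine ⟨mk2 (jacobiSum ψ⁻¹ (ψ⁻¹ ^ 3)), ?_, ?_⟩
  · rw [hJ']
    have h1 : ((n0 : WittVector p k) + n1 * (ζ' + ζ' ^ 3)) * (2 * n0 - (n0 + n1 * (ζ' + ζ' ^ 3))) = ((n0 ^ 2 + 2 * n1 ^ 2 : ℤ) : WittVector p k) := by
      push_cast
      linear_combination (-(n1 : WittVector p k) ^ 2) * hom
    have h3 := congrArg (mk2 (p := p) (k := k)) h1
    rw [hn] at h3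
    rw [RingHom.map_mul, RingHom.map_sub, RingHom.map_mul, map_ofNat, map_intCast, map_intCast, Int.cast_natCast] at h3
    exact h3
  · rw [hrel, RingHom.map_mul, hval 4 hk4]
    congr 1
    unfold jacobiSum
    rw [map_sum]
    apply Finset.sum_congr rfl
    intro x _
    rw [RingHom.map_mul]
    by_cases hx : x = 0
    · subst hx
      rw [MulChar.map_zero, map_zero, zero_mul]
      have : tau p (0 : k) = 0 := by unfold tau; rw [WittVector.teichmuller_zero, map_zero]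
      rw [this, zero_pow (by omega), zero_mul]
    · rw [hval x hx, MulChar.pow_apply' _ (by norm_num), hψ, tchar_apply, ← pow_mul]
      unfold tau
      rw [map_pow, map_pow, show 8 * β - β = 7 * β by omega, show β * 2 = 2 * β by ring]

end Pool.Agent.Pell
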