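import Mathlib

/-!
# First order calculus modulo `p^2`
`red : ZMod (p^2) → ZMod p`, `eps c = p * (lift of c)`.
-/

namespace Pool.Agent.Pell

open Finset

variable (p : ℕ)

/-- reduction modulo `p` -/
noncomputable def red : ZMod (p ^ 2) →+* ZMod p := ZMod.castHom (dvd_pow_self p two_ne_zero) (ZMod p)

/-- `eps c = p * c̃` in `ZMod (p^2)`, which depends only on `c` modulo `p` -/
noncomputable def eps (c : ZMod p) : ZMod (p ^ 2) := (p : ZMod (p ^ 2)) * ((c.val : ℕ) : ZMod (p ^ 2))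

/-- harmonic numbers in `ZMod p` -/
noncomputable def Har (m : ℕ) : ZMod p := ∑ i ∈ range m, ((i + 1 : ℕ) : ZMod p)⁻¹

variable {p} [hp : Fact p.Prime]

@[simp] lemma red_natCast (m : ℕ) : red p (m : ZMod (p ^ 2)) = (m : ZMod p) := map_natCast _ _

@[simp] lemma red_intCast (m : ℤ) : red p (m : ZMod (p ^ 2)) = (m : ZMod p) := map_intCast _ _

lemma red_surj : Function.Surjective (red p) := ZMod.ringHom_surjective _

instance : NeZero (p ^ 2) := ⟨pow_ne_zero 2 hp.out.ne_zero⟩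

lemma p_mul_p : (p : ZMod (p ^ 2)) * (p : ZMod (p ^ 2)) = 0 := by
  rw [← Nat.cast_mul, ← pow_two]; exact ZMod.natCast_self _

lemma p_mul_eq_zero_iff (a : ZMod (p ^ 2)) : (p : ZMod (p ^ 2)) * a = 0 ↔ red p a = 0 := by
  obtain ⟨m, rfl⟩ : ∃ m : ℕ, (m : ZMod (p ^ 2)) = a := ⟨a.val, ZMod.natCast_zmod_val a⟩
  rw [red_natCast, ← Nat.cast_mul, ZMod.natCast_eq_zero_iff, ZMod.natCast_eq_zero_iff, pow_two]
  exact Nat.mul_dvd_mul_iff_left hp.out.pos

lemma p_mul_congr {a b : ZMod (p ^ 2)} (h : red p a = red p b) :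
    (p : ZMod (p ^ 2)) * a = (p : ZMod (p ^ 2)) * b := by
  rw [← sub_eq_zero, ← mul_sub, p_mul_eq_zero_iff, map_sub, h, sub_self]

@[simp] lemma eps_red (a : ZMod (p ^ 2)) : eps p (red p a) = (p : ZMod (p ^ 2)) * a := by
  unfold eps
  apply p_mul_congr
  rw [red_natCast, ZMod.natCast_zmod_val]

@[simp] lemma eps_zero : eps p 0 = 0 := by rw [← map_zero (red p), eps_red, mul_zero]

lemma eps_natCast (m : ℕ) : eps p (m : ZMod p) = (p : ZMod (p ^ 2)) * (m : ZMod (p ^ 2)) := by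
  rw [← red_natCast, eps_red]

lemma eps_intCast (m : ℤ) : eps p (m : ZMod p) = (p : ZMod (p ^ 2)) * (m : ZMod (p ^ 2)) := by
  rw [← red_intCast, eps_red]

@[simp] lemma eps_one : eps p 1 = (p : ZMod (p ^ 2)) := by
  rw [← map_one (red p), eps_red, mul_one]

lemma eps_add (c d : ZMod p) : eps p (c + d) = eps p c + eps p d := by
  obtain ⟨a, rfl⟩ := red_surj c
  obtain ⟨b, rfl⟩ := red_surj d
  rw [← map_add, eps_red, eps_red, eps_red, mul_add]

lemma eps_neg (c : ZMod p) : eps p (-c) = - eps p c := by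
  obtain ⟨a, rfl⟩ := red_surj c
  rw [← map_neg, eps_red, eps_red, mul_neg]

lemma eps_sub (c d : ZMod p) : eps p (c - d) = eps p c - eps p d := by
  rw [sub_eq_add_neg, eps_add, eps_neg, ← sub_eq_add_neg]

lemma eps_mul (c : ZMod p) (a : ZMod (p ^ 2)) : eps p c * a = eps p (c * red p a) := by
  obtain ⟨b, rfl⟩ := red_surj c
  rw [← map_mul, eps_red, eps_red, mul_assoc]

lemma mul_eps (c : ZMod p) (a : ZMod (p ^ 2)) : a * eps p c = eps p (red p a * c) := by
  rw [mul_comm, eps_mul, mul_comm c]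

@[simp] lemma eps_mul_eps (c d : ZMod p) : eps p c * eps p d = 0 := by
  obtain ⟨a, rfl⟩ := red_surj c
  obtain ⟨b, rfl⟩ := red_surj d
  rw [eps_red, eps_red, mul_mul_mul_comm, p_mul_p, zero_mul]

@[simp] lemma red_eps (c : ZMod p) : red p (eps p c) = 0 := by
  unfold eps
  rw [map_mul, red_natCast, ZMod.natCast_self, zero_mul]

lemma eps_sum {ι : Type*} (s : Finset ι) (F : ι → ZMod p) :
    eps p (∑ i ∈ s, F i) = ∑ i ∈ s, eps p (F i) := by
  classical
  induction s using Finset.induction_on with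
  | empty => simp
  | insert a s ha ih => rw [Finset.sum_insert ha, Finset.sum_insert ha, eps_add, ih]

lemma eps_inj {c d : ZMod p} (h : eps p c = eps p d) : c = d := by
  obtain ⟨a, rfl⟩ := red_surj c
  obtain ⟨b, rfl⟩ := red_surj d
  rw [eps_red, eps_red, ← sub_eq_zero, ← mul_sub, p_mul_eq_zero_iff, map_sub, sub_eq_zero] at h
  exact h

/-- kernel of the reduction -/
lemma exists_eps_of_red_eq_zero {a : ZMod (p ^ 2)} (h : red p a = 0) : ∃ c, a = eps p c := by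
  obtain ⟨m, rfl⟩ : ∃ m : ℕ, (m : ZMod (p ^ 2)) = a := ⟨a.val, ZMod.natCast_zmod_val a⟩
  rw [red_natCast, ZMod.natCast_eq_zero_iff] at h
  obtain ⟨t, rfl⟩ := h
  exact ⟨(t : ZMod p), by rw [eps_natCast]; push_cast; ring⟩

lemma exists_eps_of_red_eq {a b : ZMod (p ^ 2)} (h : red p a = red p b) : ∃ c, a = b + eps p c := by
  obtain ⟨c, hc⟩ := exists_eps_of_red_eq_zero (a := a - b) (by rw [map_sub, h, sub_self])
  exact ⟨c, by rw [← hc]; ring⟩

lemma isUnit_of_red_ne_zero {a : ZMod (p ^ 2)} (h : red p a ≠ 0) : IsUnit a := by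
  obtain ⟨m, rfl⟩ : ∃ m : ℕ, (m : ZMod (p ^ 2)) = a := ⟨a.val, ZMod.natCast_zmod_val a⟩
  rw [red_natCast, Ne, ZMod.natCast_eq_zero_iff] at h
  rw [ZMod.isUnit_iff_coprime]
  exact Nat.Coprime.pow_right 2 ((Nat.Prime.coprime_iff_not_dvd hp.out).mpr h).symm

lemma isUnit_iff_red_ne_zero {a : ZMod (p ^ 2)} : IsUnit a ↔ red p a ≠ 0 := by
  refine ⟨fun h => ?_, isUnit_of_red_ne_zero⟩
  exact (h.map (red p)).ne_zero

lemma red_inv {a : ZMod (p ^ 2)} (h : red p a ≠ 0) : red p a⁻¹ = (red p a)⁻¹ := by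
  have hu : a * a⁻¹ = 1 := ZMod.mul_inv_of_unit _ (isUnit_of_red_ne_zero h)
  have := congrArg (red p) hu
  rw [map_mul, map_one] at this
  exact eq_inv_of_mul_eq_one_right this

lemma mul_inv_self' {a : ZMod (p ^ 2)} (h : red p a ≠ 0) : a * a⁻¹ = 1 :=
  ZMod.mul_inv_of_unit _ (isUnit_of_red_ne_zero h)

/-- cancel a unit -/
lemma mul_left_cancel_of_red {a b c : ZMod (p ^ 2)} (h : red p a ≠ 0) (he : a * b = a * c) : b = c :=
  (isUnit_of_red_ne_zero h).mul_left_cancel he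

/-- `a² = b²`, `a ≡ b ≢ 0 (mod p)`, `p` odd, implies `a = b` -/
lemma eq_of_sq_eq_of_red_eq {a b : ZMod (p ^ 2)} (h2 : (2 : ZMod p) ≠ 0) (hab : a ^ 2 = b ^ 2)
    (hr : red p a = red p b) (h0 : red p b ≠ 0) : a = b := by
  have h1 : (a + b) * (a - b) = (a + b) * 0 := by
    rw [mul_zero]; linear_combination hab
  have h3 : red p (a + b) ≠ 0 := by
    rw [map_add, hr, ← two_mul]; exact mul_ne_zero h2 h0
  have := mul_left_cancel_of_red h3 h1
  exact sub_eq_zero.mp this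

lemma prod_add_eps {ι : Type*} (s : Finset ι) (F : ι → ZMod p) :
    ∏ i ∈ s, (1 + eps p (F i)) = 1 + eps p (∑ i ∈ s, F i) := by
  classical
  induction s using Finset.induction_on with
  | empty => simp
  | insert a s ha ih =>
    rw [Finset.prod_insert ha, Finset.sum_insert ha, ih, eps_add]
    have := eps_mul_eps (F a) (∑ i ∈ s, F i)
    linear_combination this

@[simp] lemma Har_zero : Har p 0 = 0 := by simp [Har]

lemma Har_succ (m : ℕ) : Har p (m + 1) = Har p m + ((m + 1 : ℕ) : ZMod p)⁻¹ := by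
  rw [Har, Finset.sum_range_succ]; rfl

/-- the quantity `K ≡ H(1/2)` modulo `p^2` -/
noncomputable def Kf (p : ℕ) [Fact p.Prime] (f : ℕ) : ZMod (p ^ 2) :=
  (-1) ^ f * (Nat.choose (2 * f) f : ZMod (p ^ 2)) * ((4 : ZMod (p ^ 2)) ^ f)⁻¹ *
    (1 + eps p ((Har p f - Har p (2 * f)) / 4))

end Pool.Agent.Pell
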