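import Pool.Agent.Pell.Comb

namespace Pool.Agent.Pell

open Finset Polynomial

variable {p : ℕ} [hp : Fact p.Prime]

lemma Hh_eq {n f : ℕ} (h : Par p n f) : Hh p n = red p (Kf p f) := by
  rw [← Hval_eq h]
  unfold Hh Hval
  rw [map_sum, show n / 2 + 1 = 2 * f + 1 by rcases h with h | h <;> omega]
  apply Finset.sum_congr rfl
  intro j _
  have h8 := red_eight_pow_ne (p := p) h.two_ne j
  have e8 : red p (8 : ZMod (p ^ 2)) = 8 := by
    have : red p ((8 : ℕ) : ZMod (p ^ 2)) = ((8 : ℕ) : ZMod p) := red_natCast 8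
    push_cast at this
    exact this
  rw [map_mul, red_natCast, red_inv h8, map_pow, e8, Dj]
  push_cast
  ring

lemma X_ne (X y : ℤ) (hXY : X ^ 2 + 2 * y ^ 2 = p) (hX : X % 4 = 1) : (X : ZMod p) ≠ 0 := by
  intro h0
  rw [ZMod.intCast_zmod_eq_zero_iff_dvd] at h0
  have hX0 : X ≠ 0 := by rintro rfl; norm_num at hX
  have h1 : (p : ℤ) ≤ |X| := Int.le_of_dvd (abs_pos.mpr hX0) ((dvd_abs _ _).mpr h0)
  have h2 : (1 : ℤ) < p := by exact_mod_cast hp.out.one_lt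
  have h3 : |X| ^ 2 ≤ p := by
    rw [sq_abs]
    nlinarith [sq_nonneg y]
  nlinarith

/-- the common facts -/
lemma facts {n f : ℕ} (h : Par p n f) (hf0 : 0 < f) (X y : ℤ) (hXY : X ^ 2 + 2 * y ^ 2 = p) (hX : X % 4 = 1) :
    red p (Kf p f) * (2 * ((ab n).1 : ZMod p)) = 4 * (X : ZMod p) ∧ ((ab n).1 : ZMod p) ^ 2 = 1 := by
  have h2 := h.two_ne
  have h4 := four_ne h2
  have hK : Hh p n ^ 2 = 4 * (X : ZMod p) ^ 2 := by
    rw [Hh_eq h]
    rcases h with h | h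
    · have e := congrArg (red p) (part2_A f h.1 X y hXY)
      rw [map_mul, map_pow, map_pow, red_two, two_pow_half_one f h.1, map_sub, map_mul, map_mul, map_pow, red_intCast,
        red_natCast, ZMod.natCast_self] at e
      have e4 : red p (4 : ZMod (p ^ 2)) = 4 := by
        have : red p ((4 : ℕ) : ZMod (p ^ 2)) = ((4 : ℕ) : ZMod p) := red_natCast 4
        push_cast at this
        exact this
      rw [e4] at e
      linear_combination e
    · have e := congrArg (red p) (part2_B f h.1 hf0 X y hXY)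
      rw [map_mul, map_neg, map_pow, map_pow, red_two, two_pow_half_three f h.1, map_sub, map_mul, map_mul, map_pow, red_intCast,
        red_natCast, ZMod.natCast_self] at e
      have e4 : red p (4 : ZMod (p ^ 2)) = 4 := by
        have : red p ((4 : ℕ) : ZMod (p ^ 2)) = ((4 : ℕ) : ZMod p) := red_natCast 4
        push_cast at this
        exact this
      rw [e4] at e
      linear_combination e
  obtain ⟨s1, s2⟩ := sign_main f n (by rcases h with h | h; exacts [Or.inl h.1, Or.inr h.1]) h.two_n X y hXY hX hK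
  rw [Tseq_ab] at s1 s2
  push_cast at s1 s2
  rw [Hh_eq h] at s1
  refine ⟨s1, ?_⟩
  have : (4 : ZMod p) * ((ab n).1 : ZMod p) ^ 2 = 4 * 1 := by linear_combination s2
  exact mul_left_cancel₀ h4 this

lemma pow_n_A {n f : ℕ} (h : p = 8 * f + 1 ∧ n = 4 * f) : (2 : ZMod p) ^ n = 1 := by
  rw [h.2]; exact two_pow_half_one f h.1

lemma pow_n_B {n f : ℕ} (h : p = 8 * f + 3 ∧ n = 4 * f + 1) : (2 : ZMod p) ^ n = -1 := by
  rw [h.2]; exact two_pow_half_three f h.1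

lemma norm_ab_p (n : ℕ) : ((ab n).1 : ZMod p) ^ 2 - 2 * ((ab n).2 : ZMod p) ^ 2 = 2 ^ n := by
  have := congrArg (Int.cast : ℤ → ZMod p) (norm_ab n)
  push_cast at this
  exact this

lemma norm_ab_pp (n : ℕ) : ((ab n).1 : ZMod (p ^ 2)) ^ 2 - 2 * ((ab n).2 : ZMod (p ^ 2)) ^ 2 = 2 ^ n := by
  have := congrArg (Int.cast : ℤ → ZMod (p ^ 2)) (norm_ab n)
  push_cast at this
  exact this

/-- `b (a+b) = 0` modulo `p` -/
lemma b_ab {n f : ℕ} (h : Par p n f) : ((ab n).2 : ZMod p) * (((ab n).1 : ZMod p) + ((ab n).2 : ZMod p)) = 0 := by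
  have h2 := h.two_ne
  have h4 := four_ne h2
  have e := congrArg (red p) (eps_log h)
  have e4 : red p (4 : ZMod (p ^ 2)) = 4 := by
    have : red p ((4 : ℕ) : ZMod (p ^ 2)) = ((4 : ℕ) : ZMod p) := red_natCast 4
    push_cast at this
    exact this
  rw [red_eps, map_mul, map_mul, map_mul, map_add, red_intCast, red_intCast, map_pow, red_hw h2, e4] at e
  have hne : (1 / 2 : ZMod p) ^ (2 * n) ≠ 0 := pow_ne_zero _ (by rw [one_div]; exact inv_ne_zero h2)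
  have e' := (mul_eq_zero.mp e.symm).resolve_right hne
  have : (4 : ZMod p) * (((ab n).2 : ZMod p) * (((ab n).1 : ZMod p) + ((ab n).2 : ZMod p))) = 0 := by linear_combination e'
  exact (mul_eq_zero.mp this).resolve_left h4

/-- case A: `b ≡ 0` -/
lemma b_zero {n f : ℕ} (h : p = 8 * f + 1 ∧ n = 4 * f) (ha : ((ab n).1 : ZMod p) ^ 2 = 1) : ((ab n).2 : ZMod p) = 0 := by
  have h2 := Par.two_ne (p := p) (Or.inl h)
  have e := norm_ab_p (p := p) n
  rw [pow_n_A h, ha] at e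
  have : (2 : ZMod p) * (((ab n).2 : ZMod p) * ((ab n).2 : ZMod p)) = 0 := by linear_combination -e
  have h3 := (mul_eq_zero.mp this).resolve_left h2
  exact mul_self_eq_zero.mp h3

/-- case B: `a + b ≡ 0` -/
lemma ab_zero {n f : ℕ} (h : p = 8 * f + 3 ∧ n = 4 * f + 1) (ha : ((ab n).1 : ZMod p) ^ 2 = 1) :
    ((ab n).1 : ZMod p) + ((ab n).2 : ZMod p) = 0 ∧ ((ab n).2 : ZMod p) ^ 2 = 1 := by
  have h2 := Par.two_ne (p := p) (Or.inr h)
  have e := norm_ab_p (p := p) n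
  rw [pow_n_B h, ha] at e
  have hb : ((ab n).2 : ZMod p) ^ 2 = 1 := by
    have : (2 : ZMod p) * ((ab n).2 : ZMod p) ^ 2 = 2 * 1 := by linear_combination -e
    exact mul_left_cancel₀ h2 this
  have hb0 : ((ab n).2 : ZMod p) ≠ 0 := by
    intro h0; rw [h0] at hb; norm_num at hb
  exact ⟨(mul_eq_zero.mp (b_ab (Or.inr h))).resolve_left hb0, hb⟩

lemma half_pow {n : ℕ} (h : (2 : ZMod p) ^ n = 1 ∨ (2 : ZMod p) ^ n = -1) : (1 / 2 : ZMod p) ^ (2 * n) = 1 := by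
  rw [mul_comm, pow_mul, one_div, inv_pow]
  rcases h with h | h <;> rw [h] <;> norm_num

/-- `L` in case B -/
lemma L_B {n f : ℕ} (h : p = 8 * f + 3 ∧ n = 4 * f + 1) (ha : ((ab n).1 : ZMod p) ^ 2 = 1) :
    eps p ((lP p n).eval (1 / 2)) = 4 * ((ab n).2 : ZMod (p ^ 2)) * (((ab n).1 : ZMod (p ^ 2)) + ((ab n).2 : ZMod (p ^ 2))) := by
  have h2 := Par.two_ne (p := p) (Or.inr h)
  rw [eps_log (Or.inr h)]
  obtain ⟨η, hη⟩ := exists_eps_of_red_eq_zero (a := ((ab n).1 : ZMod (p ^ 2)) + ((ab n).2 : ZMod (p ^ 2)))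
    (by rw [map_add, red_intCast, red_intCast]; exact (ab_zero h ha).1)
  have e1 : eps p η * hw p ^ (2 * n) = eps p η := by
    rw [eps_mul, map_pow, red_hw h2, half_pow (Or.inr (pow_n_B h)), mul_one]
  rw [hη]
  linear_combination (4 * ((ab n).2 : ZMod (p ^ 2))) * e1

/-- `S0` in case A -/
lemma S0_A {n f : ℕ} (h : p = 8 * f + 1 ∧ n = 4 * f) (ha : ((ab n).1 : ZMod p) ^ 2 = 1) :
    S0z p = Kf p f * (2 * ((ab n).1 : ZMod (p ^ 2))) := by
  rw [S0_closed (Or.inl h)]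
  obtain ⟨η, hη⟩ := exists_eps_of_red_eq_zero (a := ((ab n).2 : ZMod (p ^ 2)))
    (by rw [red_intCast]; exact b_zero h ha)
  rw [hη, eps_mul_eps, sub_zero]

/-- `S0` in case B -/
lemma S0_B {n f : ℕ} (h : p = 8 * f + 3 ∧ n = 4 * f + 1) (ha : ((ab n).1 : ZMod p) ^ 2 = 1) :
    S0z p = -2 * Kf p f * (((ab n).1 : ZMod (p ^ 2)) + 2 * ((ab n).2 : ZMod (p ^ 2))) := by
  rw [S0_closed (Or.inr h), L_B h ha]
  obtain ⟨η, hη⟩ := exists_eps_of_red_eq_zero (a := ((ab n).1 : ZMod (p ^ 2)) + ((ab n).2 : ZMod (p ^ 2)))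
    (by rw [map_add, red_intCast, red_intCast]; exact (ab_zero h ha).1)
  have e1 : ((ab n).2 : ZMod (p ^ 2)) ^ 2 * eps p η = eps p η := by
    rw [mul_eps, map_pow, red_intCast, (ab_zero h ha).2, one_mul]
  rw [hη]
  linear_combination (4 * Kf p f) * hη - (4 * Kf p f) * e1

/-- the square of `S0` -/
lemma S0_sq {n f : ℕ} (h : Par p n f) (hf0 : 0 < f) (X y : ℤ) (hXY : X ^ 2 + 2 * y ^ 2 = p)
    (ha : ((ab n).1 : ZMod p) ^ 2 = 1) : S0z p ^ 2 = 4 * (4 * (X : ZMod (p ^ 2)) ^ 2 - 2 * (p : ZMod (p ^ 2))) := by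
  have hN := norm_ab_pp (p := p) n
  rcases h with h | h
  · rw [S0_A h ha, ← part2_A f h.1 X y hXY, ← h.2, ← hN]
    obtain ⟨η, hη⟩ := exists_eps_of_red_eq_zero (a := ((ab n).2 : ZMod (p ^ 2)))
      (by rw [red_intCast]; exact b_zero h ha)
    have e1 : ((ab n).2 : ZMod (p ^ 2)) ^ 2 = 0 := by rw [hη, pow_two (eps p η), eps_mul_eps]
    linear_combination (8 * Kf p f ^ 2) * e1
  · rw [S0_B h ha, ← part2_B f h.1 hf0 X y hXY, ← h.2, ← hN]
    obtain ⟨η, hη⟩ := exists_eps_of_red_eq_zero (a := ((ab n).1 : ZMod (p ^ 2)) + ((ab n).2 : ZMod (p ^ 2)))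
      (by rw [map_add, red_intCast, red_intCast]; exact (ab_zero h ha).1)
    have e1 : (((ab n).1 : ZMod (p ^ 2)) + ((ab n).2 : ZMod (p ^ 2))) ^ 2 = 0 := by rw [hη, pow_two (eps p η), eps_mul_eps]
    linear_combination (8 * Kf p f ^ 2) * e1

/-- `S0` modulo `p` -/
lemma S0_red {n f : ℕ} (h : Par p n f) (hf0 : 0 < f) (X y : ℤ) (hXY : X ^ 2 + 2 * y ^ 2 = p) (hX : X % 4 = 1) :
    red p (S0z p) = 4 * (X : ZMod p) := by
  rw [S0_closed h, map_mul, map_sub, map_mul, map_mul, red_eps, red_two, red_intCast, mul_zero, sub_zero]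
  exact (facts h hf0 X y hXY hX).1

/-- Q1 in `ZMod (p^2)` -/
theorem Q1_zmod {n f : ℕ} (h : Par p n f) (hf0 : 0 < f) (X y : ℤ) (hXY : X ^ 2 + 2 * y ^ 2 = p) (hX : X % 4 = 1) :
    S0z p = 4 * (X : ZMod (p ^ 2)) - (p : ZMod (p ^ 2)) * ((X : ZMod (p ^ 2)))⁻¹ := by
  have h2 := h.two_ne
  have h4 := four_ne h2
  have hXne := X_ne (p := p) X y hXY hX
  have hXr : red p (X : ZMod (p ^ 2)) ≠ 0 := by rw [red_intCast]; exact hXne
  have hinv : (X : ZMod (p ^ 2)) * ((X : ZMod (p ^ 2)))⁻¹ = 1 := mul_inv_self' hXr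
  have hf := facts h hf0 X y hXY hX
  have e4 : red p (4 : ZMod (p ^ 2)) = 4 := by
    have : red p ((4 : ℕ) : ZMod (p ^ 2)) = ((4 : ℕ) : ZMod p) := red_natCast 4
    push_cast at this
    exact this
  have hr : red p (4 * (X : ZMod (p ^ 2)) - (p : ZMod (p ^ 2)) * ((X : ZMod (p ^ 2)))⁻¹) = 4 * (X : ZMod p) := by
    rw [map_sub, map_mul, map_mul, red_intCast, red_natCast, ZMod.natCast_self, zero_mul, sub_zero, e4]
  apply eq_of_sq_eq_of_red_eq h2
  · rw [S0_sq h hf0 X y hXY hf.2]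
    have hpp := p_mul_p (p := p)
    linear_combination (8 * (p : ZMod (p ^ 2))) * hinv - ((X : ZMod (p ^ 2)))⁻¹ ^ 2 * hpp
  · rw [hr, S0_red h hf0 X y hXY hX]
  · rw [hr]; exact mul_ne_zero h4 hXne

end Pool.Agent.Pell
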