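import Pool.Agent.Pell.Gauss1
import Pool.Agent.Pell.Q1

namespace Pool.Agent.Pell

open Finset Polynomial

variable {p : ℕ} [hp : Fact p.Prime]

/-- `δ` -/
noncomputable def del (p n f : ℕ) [Fact p.Prime] : ZMod p := (roP p n f).eval (1 / 2) + (derivative (roP p n f)).eval (1 / 2)

theorem S1_closed {n f : ℕ} (h : Par p n f) :
    S1z p = 2 * ((ab n).1 : ZMod (p ^ 2)) * (2 * K1 p n f + hw p * eps p (del p n f) - n * hw p * (hw p * (Kf p f * eps p ((lP p n).eval (1 / 2)))))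
      - 2 * ((ab n).2 : ZMod (p ^ 2)) * (2 * K1 p n f + eps p (del p n f) - n * Kf p f) := by
  apply io_inj
  have h2 := h.two_ne
  have hr := rr_sq p
  have hw2 := io_two_hw (p := p) h2
  have hs := sum_general h (fun k => (k : ZMod (p ^ 2)) * (Qseq k : ZMod (p ^ 2)))
  unfold S1z
  rw [hs, map_sum]
  have hL := lift_sum (rr p) (io p (hw p)) hr hw2 n (fun k => (k : QA p))
  have e0 : ∀ k ∈ range (n + 1), io p ((k : ZMod (p ^ 2)) * (Qseq k : ZMod (p ^ 2)) * 2 ^ k * ((n.choose k : ZMod (p ^ 2)) * ((n + k).choose k : ZMod (p ^ 2))))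
      = (k : QA p) * (Qseq k : QA p) * 2 ^ k * ((n.choose k : QA p) * ((n + k).choose k : QA p)) := by
    intro k _
    simp only [map_mul, map_pow, map_intCast, map_natCast, map_ofNat]
  rw [Finset.sum_congr rfl e0, hL, quad_trans_deriv, quad_trans_deriv, pow_ab (rr p) hr, pow_ab' (rr p) hr]
  have hu1 := aux_u (p := p) h2 (rr p) hr
  have hu2 : (rr p * io p (hw p)) ^ 2 = io p (hw p) := by
    have := hu1
    rwa [neg_sq] at this
  have hD : (∑ j ∈ range (2 * f + 1), (2 * (j : ZMod (p ^ 2))) * ((Dj n j : ZMod (p ^ 2)) * ((8 : ZMod (p ^ 2)) ^ j)⁻¹)) = 2 * K1 p n f := by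
    unfold K1
    rw [Finset.mul_sum]
    apply Finset.sum_congr rfl
    intro j _
    ring
  rw [R_val (io p) h _ hu1, R_val (io p) h _ hu2, D_val (io p) h _ hu1, D_val (io p) h _ hu2, hD, Hval_eq h, eps_ro h]
  unfold del
  simp only [map_mul, map_sub, map_add, map_intCast, map_natCast, map_ofNat]
  set w := io p (hw p)
  set K := io p (Kf p f)
  set L := io p (eps p ((lP p n).eval (1 / 2)))
  set a := ((ab n).1 : QA p)
  set b := ((ab n).2 : QA p)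
  set r := rr p
  set α := io p (K1 p n f)
  set β := io p (eps p ((roP p n f).eval (1 / 2) + (derivative (roP p n f)).eval (1 / 2)))
  linear_combination (2 * a * w ^ 2 * (β - (n : QA p) * (w * (K * L))) - 2 * b * w * (2 * α + β - (n : QA p) * K)) * hr
    + (2 * a * w * (β - (n : QA p) * (w * (K * L))) - 2 * b * (2 * α + β - (n : QA p) * K)) * hw2

lemma K_ne {n f : ℕ} (h : Par p n f) (hf0 : 0 < f) (X y : ℤ) (hXY : X ^ 2 + 2 * y ^ 2 = p) (hX : X % 4 = 1) : red p (Kf p f) ≠ 0 := by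
  have h1 := (facts h hf0 X y hXY hX).1
  have h4 := four_ne h.two_ne
  intro h0
  rw [h0, zero_mul] at h1
  exact mul_ne_zero h4 (X_ne X y hXY hX) h1.symm

lemma K_del {n f : ℕ} (h : Par p n f) (τ : ZMod (p ^ 2)) (hτ : red p τ = (1 / 2) ^ n) :
    Kf p f * eps p (del p n f) = (p : ZMod (p ^ 2)) * (Kf p f ^ 2 - τ) := by
  rw [mul_eps, ← eps_red (Kf p f ^ 2 - τ), map_sub, map_pow, hτ, ← delta_eq h]
  rfl

lemma cast_pn {n f : ℕ} (h : Par p n f) : (p : ZMod (p ^ 2)) = 2 * (n : ZMod (p ^ 2)) + 1 := by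
  have := congrArg (Nat.cast : ℕ → ZMod (p ^ 2)) h.two_n
  push_cast at this
  exact this

/-- Q2 for `p ≡ 1 (mod 8)` -/
theorem Q2_A {n f : ℕ} (h : p = 8 * f + 1 ∧ n = 4 * f) (hf0 : 0 < f) (X y : ℤ) (hXY : X ^ 2 + 2 * y ^ 2 = p) (hX : X % 4 = 1) :
    S1z p = 0 := by
  have hP : Par p n f := Or.inl h
  have h2 := hP.two_ne
  have ha := (facts hP hf0 X y hXY hX).2
  have hK := K_ne hP hf0 X y hXY hX
  obtain ⟨η, hη⟩ := exists_eps_of_red_eq_zero (a := ((ab n).2 : ZMod (p ^ 2)))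
    (by rw [red_intCast]; exact b_zero h ha)
  have hS := S1_closed hP
  have hK1 := K1_eq hP
  have hτ : red p (1 : ZMod (p ^ 2)) = (1 / 2) ^ n := by
    rw [map_one, one_div, inv_pow, pow_n_A h, inv_one]
  have hΔ := K_del hP 1 hτ
  have h2w := two_hw (p := p) h2
  have hLog := eps_log hP
  set W := hw p ^ (2 * n) with hW
  have hWr : red p W = 1 := by rw [hW, map_pow, red_hw h2, half_pow (Or.inl (pow_n_A h))]
  have bW : ((ab n).2 : ZMod (p ^ 2)) * W = ((ab n).2 : ZMod (p ^ 2)) := by rw [hη, eps_mul, hWr, mul_one]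
  have bb : ((ab n).2 : ZMod (p ^ 2)) * ((ab n).2 : ZMod (p ^ 2)) = 0 := by rw [hη, eps_mul_eps]
  have pb : (p : ZMod (p ^ 2)) * ((ab n).2 : ZMod (p ^ 2)) = 0 := by rw [hη, ← eps_one, eps_mul_eps]
  have baa : ((ab n).2 : ZMod (p ^ 2)) * ((ab n).1 : ZMod (p ^ 2)) ^ 2 = ((ab n).2 : ZMod (p ^ 2)) := by
    rw [hη, eps_mul, map_pow, red_intCast, ha, mul_one]
  apply mul_left_cancel_of_red hK
  rw [mul_zero, hS, hLog]
  set K := Kf p f
  set w := hw p
  set a := ((ab n).1 : ZMod (p ^ 2))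
  set b := ((ab n).2 : ZMod (p ^ 2))
  set α := K1 p n f
  set β := eps p (del p n f)
  -- K * (2a(2α + wβ - n w (w (K (4 b (a+b) W)))) - 2b(2α+β-nK)) = 0
  have s1 : 2 * K * α = - (w * p * (K ^ 2 - 1)) := by linear_combination w * hK1 - 2 * K * α * h2w
  have s2 : 4 * w ^ 2 = 1 := by linear_combination (2 * w + 1) * h2w
  linear_combination (2 * a - 2 * b) * s1 + (2 * a * w - 2 * b) * hΔ
    - (2 * a * n * K ^ 2 * b * (a + b) * W) * s2
    - (2 * a * n * K ^ 2 * (a + b)) * bW - (2 * a * n * K ^ 2) * bb - (2 * n * K ^ 2) * baa + (2 * w * (K ^ 2 - 1) - 2 * (K ^ 2 - 1)) * pb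

/-- Q2 for `p ≡ 3 (mod 8)` -/
theorem Q2_B {n f : ℕ} (h : p = 8 * f + 3 ∧ n = 4 * f + 1) (hf0 : 0 < f) (X y : ℤ) (hXY : X ^ 2 + 2 * y ^ 2 = p) (hX : X % 4 = 1) :
    S1z p = 2 * ((X : ZMod (p ^ 2)) + (p : ZMod (p ^ 2)) * ((X : ZMod (p ^ 2)))⁻¹) := by
  have hP : Par p n f := Or.inr h
  have h2 := hP.two_ne
  obtain ⟨hf1, ha⟩ := facts hP hf0 X y hXY hX
  have hK := K_ne hP hf0 X y hXY hX
  obtain ⟨hab, hb2⟩ := ab_zero h ha
  obtain ⟨η, hη⟩ := exists_eps_of_red_eq_zero (a := ((ab n).1 : ZMod (p ^ 2)) + ((ab n).2 : ZMod (p ^ 2)))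
    (by rw [map_add, red_intCast, red_intCast]; exact hab)
  have hS := S1_closed hP
  have hK1 := K1_eq hP
  have hτ : red p (-1 : ZMod (p ^ 2)) = (1 / 2) ^ n := by
    rw [map_neg, map_one, one_div, inv_pow, pow_n_B h, inv_neg, inv_one]
  have hΔ := K_del hP (-1) hτ
  have h2w := two_hw (p := p) h2
  have hLog := L_B h ha
  have hpn := cast_pn hP
  have hXne := X_ne (p := p) X y hXY hX
  have hXr : red p (X : ZMod (p ^ 2)) ≠ 0 := by rw [red_intCast]; exact hXne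
  have yy : (((ab n).1 : ZMod (p ^ 2)) + ((ab n).2 : ZMod (p ^ 2))) * (((ab n).1 : ZMod (p ^ 2)) + ((ab n).2 : ZMod (p ^ 2))) = 0 := by rw [hη, eps_mul_eps]
  have py : (p : ZMod (p ^ 2)) * (((ab n).1 : ZMod (p ^ 2)) + ((ab n).2 : ZMod (p ^ 2))) = 0 := by rw [hη, ← eps_one, eps_mul_eps]
  have bby : ((ab n).2 : ZMod (p ^ 2)) ^ 2 * (((ab n).1 : ZMod (p ^ 2)) + ((ab n).2 : ZMod (p ^ 2))) = ((ab n).1 : ZMod (p ^ 2)) + ((ab n).2 : ZMod (p ^ 2)) := by
    rw [hη, mul_eps, map_pow, red_intCast, hb2, one_mul]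
  have hS0 := Q1_zmod hP hf0 X y hXY hX
  rw [S0_B h ha] at hS0
  -- p K X⁻¹ = -2 b p
  have hpK : (p : ZMod (p ^ 2)) * (Kf p f * ((X : ZMod (p ^ 2)))⁻¹) = (p : ZMod (p ^ 2)) * (-2 * ((ab n).2 : ZMod (p ^ 2))) := by
    apply p_mul_congr
    rw [map_mul, red_inv hXr, red_intCast, map_mul, map_neg, red_two, red_intCast]
    rw [mul_inv_eq_iff_eq_mul₀ hXne]
    have h3 : ((ab n).1 : ZMod p) = - ((ab n).2 : ZMod p) := by linear_combination hab
    rw [h3] at hf1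
    have h4 : (2 : ZMod p) * red p (Kf p f) = 2 * (-2 * ((ab n).2 : ZMod p) * (X : ZMod p)) := by
      linear_combination (-((ab n).2 : ZMod p)) * hf1 - (2 * red p (Kf p f)) * hb2
    exact mul_left_cancel₀ h2 h4
  have hsuff : Kf p f * S1z p = - (Kf p f ^ 2 * (((ab n).1 : ZMod (p ^ 2)) + 2 * ((ab n).2 : ZMod (p ^ 2)))) - 5 * ((ab n).2 : ZMod (p ^ 2)) * (p : ZMod (p ^ 2)) := by
    rw [hS, hLog]
    set K := Kf p f
    set w := hw p
    set a := ((ab n).1 : ZMod (p ^ 2))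
    set b := ((ab n).2 : ZMod (p ^ 2))
    set α := K1 p n f
    set β := eps p (del p n f)
    have s1 : 2 * K * α = - (w * p * (K ^ 2 - 1)) := by linear_combination w * hK1 - 2 * K * α * h2w
    have s2 : 4 * w ^ 2 = 1 := by linear_combination (2 * w + 1) * h2w
    linear_combination (2 * a - 2 * b) * s1 + (2 * a * w - 2 * b) * hΔ
      - (2 * a * n * K ^ 2 * b * (a + b)) * s2 + (2 * a * p + b * p * (K ^ 2 - 1)) * h2w
      - (b * K ^ 2 + K ^ 2 * (a + b)) * hpn + (2 + K ^ 2) * py - (2 * n * K ^ 2 * b) * yy + (2 * n * K ^ 2) * bby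
  apply mul_left_cancel_of_red hK
  rw [hsuff]
  set K := Kf p f
  set a := ((ab n).1 : ZMod (p ^ 2))
  set b := ((ab n).2 : ZMod (p ^ 2))
  set w := hw p
  set x := (X : ZMod (p ^ 2))
  -- hS0 : -2K(a+2b) = 4 x - p x⁻¹
  linear_combination (w * K) * hS0 - (5 * w) * hpK + (K ^ 2 * (a + 2 * b) + 2 * K * x + 5 * b * (p : ZMod (p ^ 2)) + 2 * K * (p : ZMod (p ^ 2)) * x⁻¹) * h2w

end Pool.Agent.Pell
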