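import Pool.Agent.Pell.Stmt
import Pool.Agent.Pell.Q2

namespace Pool.Agent.Pell

open Finset

lemma congr_of (p : ℕ) [hp : Fact p.Prime] (a b : ℚ) (N M : ℤ) (hN : ¬ (p : ℤ) ∣ N) (h : (a - b) * N = M)
    (hM : (p : ℤ) ^ 2 ∣ M) : CongrModSq p a b := by
  unfold CongrModSq
  by_cases hab : a = b
  · exact Or.inl hab
  · right
    have hN0 : (N : ℚ) ≠ 0 := by
      intro h0
      apply hN
      have : N = 0 := by exact_mod_cast h0
      rw [this]; exact dvd_zero _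
    have hab' : a - b ≠ 0 := sub_ne_zero.mpr hab
    have hM0 : M ≠ 0 := by
      intro h0
      rw [h0] at h
      exact mul_ne_zero hab' hN0 (by exact_mod_cast h)
    have h1 : padicValRat p (a - b) + padicValRat p (N : ℚ) = padicValRat p (M : ℚ) := by
      rw [← padicValRat.mul hab' hN0, h]
    rw [padicValRat.of_int, padicValRat.of_int] at h1
    have h2 : padicValInt p N = 0 := padicValInt.eq_zero_of_not_dvd hN
    have h3 : 2 ≤ padicValInt p M := ((padicValInt_dvd_iff 2 M).mp hM).resolve_left hM0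
    omega

lemma companionPell_eq (k : ℕ) : companionPell k = Qseq k := by
  induction k using Nat.twoStepInduction with
  | zero => rfl
  | one => rfl
  | more n h0 h1 => rw [companionPell, Qseq, h0, h1]

/-- cleared sum -/
def MM (p : ℕ) (w : ℕ → ℤ) : ℤ := ∑ k ∈ range p, w k * ((-1) ^ k * 8 ^ (p - k) * ((2 * k).choose k : ℤ) ^ 2)

lemma MM_rat (p : ℕ) (w : ℕ → ℤ) : (MM p w : ℚ) = 8 ^ p * ∑ k ∈ range p, (w k : ℚ) / (-8) ^ k * ((2 * k).choose k : ℚ) ^ 2 := by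
  unfold MM
  push_cast
  rw [Finset.mul_sum]
  apply Finset.sum_congr rfl
  intro k hk
  rw [Finset.mem_range] at hk
  have e1 : (8 : ℚ) ^ p = 8 ^ (p - k) * 8 ^ k := by rw [← pow_add]; congr 1; omega
  have e2 : (-8 : ℚ) ^ k = (-1) ^ k * 8 ^ k := by rw [← mul_pow]; norm_num
  have e3 : ((-1 : ℚ) ^ k) * (-1) ^ k = 1 := by rw [← mul_pow]; norm_num
  have h8 : (8 : ℚ) ^ k ≠ 0 := pow_ne_zero _ (by norm_num)
  have h1 : (-1 : ℚ) ^ k ≠ 0 := pow_ne_zero _ (by norm_num)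
  rw [e1, e2]
  field_simp
  linear_combination ((w k : ℚ) * ((2 * k).choose k : ℚ) ^ 2) * e3

lemma MM_zmod (p : ℕ) [hp : Fact p.Prime] (h2 : (2 : ZMod p) ≠ 0) (w : ℕ → ℤ) :
    (MM p w : ZMod (p ^ 2)) = 8 ^ p * ∑ k ∈ range p, (w k : ZMod (p ^ 2)) * ((-8 : ZMod (p ^ 2)) ^ k)⁻¹ * ((2 * k).choose k : ZMod (p ^ 2)) ^ 2 := by
  unfold MM
  push_cast
  rw [Finset.mul_sum]
  apply Finset.sum_congr rfl
  intro k hk
  rw [Finset.mem_range] at hk
  have e1 : (8 : ZMod (p ^ 2)) ^ p = 8 ^ (p - k) * 8 ^ k := by rw [← pow_add]; congr 1; omega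
  have e2 : (-8 : ZMod (p ^ 2)) ^ k = (-1) ^ k * 8 ^ k := by rw [← mul_pow]; norm_num
  have e3 : ((-1 : ZMod (p ^ 2)) ^ k) * (-1) ^ k = 1 := by rw [← mul_pow]; norm_num
  have e4 : (-8 : ZMod (p ^ 2)) ^ k * ((-8 : ZMod (p ^ 2)) ^ k)⁻¹ = 1 := mul_inv_self' (red_neg_eight_pow_ne h2 k)
  have e5 : (8 : ZMod (p ^ 2)) ^ k * ((-8 : ZMod (p ^ 2)) ^ k)⁻¹ = (-1) ^ k := by
    calc (8 : ZMod (p ^ 2)) ^ k * ((-8 : ZMod (p ^ 2)) ^ k)⁻¹ = ((-1) ^ k * (-1) ^ k) * (8 ^ k * ((-8 : ZMod (p ^ 2)) ^ k)⁻¹) := by rw [e3, one_mul]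
      _ = (-1) ^ k * (((-1) ^ k * 8 ^ k) * ((-8 : ZMod (p ^ 2)) ^ k)⁻¹) := by ring
      _ = _ := by rw [← e2, e4, mul_one]
  rw [e1]
  linear_combination (- (w k : ZMod (p ^ 2)) * 8 ^ (p - k) * ((2 * k).choose k : ZMod (p ^ 2)) ^ 2) * e5

lemma odd_of_class {p : ℕ} (h8 : p % 8 = 1 ∨ p % 8 = 3) (hp3 : p ≠ 3) (hp1 : p ≠ 1) :
    ∃ n f, Par p n f ∧ 0 < f := by
  rcases h8 with h | h
  · exact ⟨4 * (p / 8), p / 8, Or.inl (by omega), by omega⟩
  · exact ⟨4 * (p / 8) + 1, p / 8, Or.inr (by omega), by omega⟩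

lemma prime_dvd_mul_pow (p : ℕ) [hp : Fact p.Prime] (h2 : p ≠ 2) (x : ℤ) (hx : ¬ (p : ℤ) ∣ x) : ¬ (p : ℤ) ∣ 8 ^ p * x := by
  have hpI : Prime (p : ℤ) := Nat.prime_iff_prime_int.mp hp.out
  intro h
  rcases hpI.dvd_or_dvd h with h | h
  · have h1 := hpI.dvd_of_dvd_pow h
    have h3 : (p : ℤ) ∣ 2 := by
      have : (8 : ℤ) = 2 ^ 3 := by norm_num
      rw [this] at h1
      exact hpI.dvd_of_dvd_pow h1
    have h4 : p ∣ 2 := by exact_mod_cast h3
    exact h2 ((Nat.prime_dvd_prime_iff_eq hp.out Nat.prime_two).mp h4)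
  · exact hx h

/-- the transfer principle -/
lemma transfer (p : ℕ) [hp : Fact p.Prime] (h2 : p ≠ 2) (w : ℕ → ℤ) (x T : ℤ) (hx : ¬ (p : ℤ) ∣ x) (b : ℚ)
    (hb : b * x = T)
    (hz : (x : ZMod (p ^ 2)) * ∑ k ∈ range p, (w k : ZMod (p ^ 2)) * ((-8 : ZMod (p ^ 2)) ^ k)⁻¹ * ((2 * k).choose k : ZMod (p ^ 2)) ^ 2 = (T : ZMod (p ^ 2))) :
    CongrModSq p (∑ k ∈ range p, (w k : ℚ) / (-8) ^ k * ((2 * k).choose k : ℚ) ^ 2) b := by
  have h2' : (2 : ZMod p) ≠ 0 := by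
    have : ((2 : ℕ) : ZMod p) ≠ 0 := natCast_ne_zero_of_lt (by norm_num)
      (lt_of_le_of_ne hp.out.two_le (Ne.symm h2))
    exact_mod_cast this
  apply congr_of p _ _ (8 ^ p * x) (x * MM p w - 8 ^ p * T) (prime_dvd_mul_pow p h2 x hx)
  · push_cast
    rw [MM_rat, ← hb]
    ring
  · have : (((x * MM p w - 8 ^ p * T : ℤ)) : ZMod (p ^ 2)) = 0 := by
      push_cast
      rw [MM_zmod p h2', ← hz]
      ring
    rw [ZMod.intCast_zmod_eq_zero_iff_dvd] at this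
    exact_mod_cast this

/-- the sign -/
lemma sign_eps (x : ℤ) (hx : x % 8 = 1 ∨ x % 8 = 3) :
    ∃ ε : ℤ, ε * ε = 1 ∧ ((-1 : ℚ) ^ ((x - 1) / 2)) = ε ∧ (ε * x) % 4 = 1 ∧ ((ε = 1 ∧ x % 8 = 1) ∨ (ε = -1 ∧ x % 8 = 3)) := by
  rcases hx with h | h
  · refine ⟨1, by norm_num, ?_, by omega, Or.inl ⟨rfl, h⟩⟩
    have : Even ((x - 1) / 2) := by
      rw [Int.even_iff]; omega
    rw [this.neg_one_zpow]; norm_num
  · refine ⟨-1, by norm_num, ?_, by omega, Or.inr ⟨rfl, h⟩⟩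
    have : Odd ((x - 1) / 2) := by
      rw [Int.odd_iff]; omega
    rw [this.neg_one_zpow]; norm_num

lemma not_dvd_x (p : ℕ) [hp : Fact p.Prime] (x y : ℤ) (hxy : (p : ℤ) = x ^ 2 + 2 * y ^ 2) (hx : x % 8 = 1 ∨ x % 8 = 3) :
    ¬ (p : ℤ) ∣ x := by
  intro h
  have hx0 : x ≠ 0 := by rintro rfl; norm_num at hx
  have h1 : (p : ℤ) ≤ |x| := Int.le_of_dvd (abs_pos.mpr hx0) ((dvd_abs _ _).mpr h)
  have h2 : (1 : ℤ) < p := by exact_mod_cast hp.out.one_lt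
  have h3 : |x| ^ 2 ≤ p := by
    rw [sq_abs]
    nlinarith [sq_nonneg y]
  nlinarith

lemma x_eq_one (x y : ℤ) (hxy : ((3 : ℕ) : ℤ) = x ^ 2 + 2 * y ^ 2) (hx : x % 8 = 1 ∨ x % 8 = 3) : x = 1 := by
  have h1 : x ≤ 1 := by
    push_cast at hxy
    nlinarith [sq_nonneg y, sq_nonneg (x - 1)]
  have h2 : -1 ≤ x := by
    push_cast at hxy
    nlinarith [sq_nonneg y, sq_nonneg (x + 1)]
  omega

theorem Q1_final (p : ℕ) (hp : p.Prime) (h8 : p % 8 = 1 ∨ p % 8 = 3) (x y : ℤ)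
    (hxy : (p : ℤ) = x ^ 2 + 2 * y ^ 2) (hx : x % 8 = 1 ∨ x % 8 = 3) :
    CongrModSq p (S0 p) ((-1) ^ ((x - 1) / 2) * (4 * x - p / x)) := by
  haveI : Fact p.Prime := ⟨hp⟩
  have hnd := not_dvd_x p x y hxy hx
  have hx0 : (x : ℚ) ≠ 0 := by
    intro h0
    have : x = 0 := by exact_mod_cast h0
    rw [this] at hnd
    exact hnd (dvd_zero _)
  have hp2 : p ≠ 2 := by omega
  by_cases hp3 : p = 3
  · subst hp3
    have hx1 := x_eq_one x y hxy hx
    subst hx1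
    apply congr_of 3 _ _ 8 27
    · norm_num
    · norm_num [S0, Finset.sum_range_succ, companionPell, Nat.choose]
    · norm_num
  · obtain ⟨n, f, h, hf0⟩ := odd_of_class h8 hp3 hp.one_lt.ne'
    obtain ⟨ε, hεε, hε, hX, -⟩ := sign_eps x hx
    have hXY : (ε * x) ^ 2 + 2 * y ^ 2 = p := by
      rw [hxy]; linear_combination x ^ 2 * hεε
    have hQ := Q1_zmod h hf0 (ε * x) y hXY hX
    have hXr : red p ((ε * x : ℤ) : ZMod (p ^ 2)) ≠ 0 := by
      rw [red_intCast]; exact X_ne (ε * x) y hXY hX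
    have hinv := mul_inv_self' hXr
    have hS : S0 p = ∑ k ∈ range p, ((Qseq k : ℤ) : ℚ) / (-8) ^ k * ((2 * k).choose k : ℚ) ^ 2 := by
      unfold S0
      apply Finset.sum_congr rfl
      intro k _
      rw [companionPell_eq]
    rw [hS]
    apply transfer p hp2 Qseq x (ε * (4 * x ^ 2 - p)) hnd
    · rw [hε]
      push_cast
      field_simp
    · have hQ' : ∑ k ∈ range p, (Qseq k : ZMod (p ^ 2)) * ((-8 : ZMod (p ^ 2)) ^ k)⁻¹ * ((2 * k).choose k : ZMod (p ^ 2)) ^ 2 = S0z p := rfl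
      rw [hQ', hQ]
      have hεz : (ε : ZMod (p ^ 2)) * ε = 1 := by exact_mod_cast congrArg (Int.cast : ℤ → ZMod (p ^ 2)) hεε
      push_cast at hinv ⊢
      linear_combination (-(ε : ZMod (p ^ 2)) * p) * hinv + ((p : ZMod (p ^ 2)) * x * ((ε : ZMod (p ^ 2)) * x)⁻¹) * hεz

lemma sq_mod (y : ℤ) (hy : y % 2 = 1) : ∃ u : ℤ, 2 * y ^ 2 = 16 * u + 2 := by
  obtain ⟨s, hs⟩ : ∃ s, y = 2 * s + 1 := ⟨y / 2, by omega⟩
  obtain ⟨u, hu⟩ := Int.even_mul_succ_self s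
  refine ⟨u, ?_⟩
  rw [hs]
  linear_combination 8 * hu

theorem Q2_final (p : ℕ) (hp : p.Prime) (x y : ℤ)
    (hxy : (p : ℤ) = x ^ 2 + 2 * y ^ 2) (hx : x % 8 = 1 ∨ x % 8 = 3) :
    (p % 8 = 1 → CongrModSq p (S1 p) 0) ∧
      (p % 8 = 3 → CongrModSq p (S1 p) ((-1) ^ ((p - 3) / 8) * (2 * (x + p / x)))) := by
  haveI : Fact p.Prime := ⟨hp⟩
  have hnd := not_dvd_x p x y hxy hx
  have hx0 : (x : ℚ) ≠ 0 := by
    intro h0
    have : x = 0 := by exact_mod_cast h0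
    rw [this] at hnd
    exact hnd (dvd_zero _)
  have hS : S1 p = ∑ k ∈ range p, (((k : ℤ) * Qseq k : ℤ) : ℚ) / (-8) ^ k * ((2 * k).choose k : ℚ) ^ 2 := by
    unfold S1
    apply Finset.sum_congr rfl
    intro k _
    rw [companionPell_eq]
    push_cast
    ring
  have hQ' : ∑ k ∈ range p, (((k : ℤ) * Qseq k : ℤ) : ZMod (p ^ 2)) * ((-8 : ZMod (p ^ 2)) ^ k)⁻¹ * ((2 * k).choose k : ZMod (p ^ 2)) ^ 2 = S1z p := by
    unfold S1z
    apply Finset.sum_congr rfl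
    intro k _
    push_cast
    ring
  obtain ⟨ε, hεε, hε, hX, hcase⟩ := sign_eps x hx
  have hXY : (ε * x) ^ 2 + 2 * y ^ 2 = p := by
    rw [hxy]; linear_combination x ^ 2 * hεε
  constructor
  · intro h8
    have hp2 : p ≠ 2 := by omega
    have h : p = 8 * (p / 8) + 1 ∧ 4 * (p / 8) = 4 * (p / 8) := ⟨by omega, rfl⟩
    have hp1 := hp.one_lt
    have hQ := Q2_A h (by omega) (ε * x) y hXY hX
    rw [hS]
    apply transfer p hp2 (fun k => (k : ℤ) * Qseq k) x 0 hnd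
    · simp
    · rw [hQ', hQ]; simp
  · intro h8
    have hp2 : p ≠ 2 := by omega
    by_cases hp3 : p = 3
    · subst hp3
      have hx1 := x_eq_one x y hxy hx
      subst hx1
      apply congr_of 3 _ _ 4 (-9)
      · norm_num
      · norm_num [S1, Finset.sum_range_succ, companionPell, Nat.choose]
      · norm_num
    · have h : p = 8 * (p / 8) + 3 ∧ 4 * (p / 8) + 1 = 4 * (p / 8) + 1 := ⟨by omega, rfl⟩
      have hQ := Q2_B h (by omega) (ε * x) y hXY hX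
      have hXr : red p ((ε * x : ℤ) : ZMod (p ^ 2)) ≠ 0 := by
        rw [red_intCast]; exact X_ne (ε * x) y hXY hX
      have hinv := mul_inv_self' hXr
      -- the sign
      have hsg : ((-1 : ℚ) ^ ((p - 3) / 8)) = ε := by
        have hy : y % 2 = 1 := by
          rcases Int.even_or_odd y with ⟨t, ht⟩ | ⟨t, ht⟩
          · exfalso
            have h1 : (p : ℤ) % 8 = 3 := by omega
            have hx2 : x ^ 2 % 8 = 1 := by
              rcases hx with h | h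
              · rw [pow_two, Int.mul_emod, h]; norm_num
              · rw [pow_two, Int.mul_emod, h]; norm_num
            have h2 : 2 * y ^ 2 = 8 * t ^ 2 := by rw [ht]; ring
            rw [hxy, h2] at h1
            omega
          · omega
        obtain ⟨u, hu⟩ := sq_mod y hy
        rcases hcase with ⟨he, hx8⟩ | ⟨he, hx8⟩
        · obtain ⟨t, ht⟩ : ∃ t, x = 8 * t + 1 := ⟨x / 8, by omega⟩
          have hpp : (p : ℤ) = 16 * (4 * t ^ 2 + t + u) + 3 := by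
            rw [hxy, hu, ht]; ring
          have : Even ((p - 3) / 8) := by rw [Nat.even_iff]; omega
          rw [this.neg_one_pow, he]; norm_num
        · obtain ⟨t, ht⟩ : ∃ t, x = 8 * t + 3 := ⟨x / 8, by omega⟩
          have hpp : (p : ℤ) = 16 * (4 * t ^ 2 + 3 * t + u) + 11 := by
            rw [hxy, hu, ht]; ring
          have : Odd ((p - 3) / 8) := by rw [Nat.odd_iff]; omega
          rw [this.neg_one_pow, he]; norm_num
      rw [hS]
      apply transfer p hp2 (fun k => (k : ℤ) * Qseq k) x (ε * (2 * (x ^ 2 + p))) hnd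
      · rw [hsg]
        push_cast
        field_simp
      · rw [hQ', hQ]
        have hεz : (ε : ZMod (p ^ 2)) * ε = 1 := by exact_mod_cast congrArg (Int.cast : ℤ → ZMod (p ^ 2)) hεε
        push_cast at hinv ⊢
        linear_combination (2 * (ε : ZMod (p ^ 2)) * p) * hinv - (2 * (p : ZMod (p ^ 2)) * x * ((ε : ZMod (p ^ 2)) * x)⁻¹) * hεz

end Pool.Agent.Pell
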