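import Pool.Agent.Pell.CMod

namespace Pool.Agent.Pell

open Finset

section general
variable {A : Type*} [CommRing A]

/-- rising factorial -/
def po (x : A) (k : ℕ) : A := ∏ i ∈ range k, (x + i)

@[simp] lemma po_zero (x : A) : po x 0 = 1 := by simp [po]

lemma po_succ (x : A) (k : ℕ) : po x (k + 1) = po x k * (x + k) := by
  simp [po, Finset.prod_range_succ]

lemma po_succ' (x : A) (k : ℕ) : po x (k + 1) = x * po (x + 1) k := by
  unfold po
  rw [Finset.prod_range_succ']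
  simp only [Nat.cast_zero, add_zero]
  rw [mul_comm]
  congr 1
  apply Finset.prod_congr rfl
  intro i _
  push_cast
  ring

lemma po_add (x : A) (j k : ℕ) : po x (j + k) = po x j * po (x + j) k := by
  induction k with
  | zero => simp
  | succ k ih =>
    rw [← add_assoc, po_succ, po_succ, ih]
    push_cast
    ring

/-- the Gauss sum -/
def GG (m : ℕ) (c : A) : A := ∑ j ∈ range (m + 1),
  (-1) ^ j * (m.choose j : A) * po (2 * c - 1 + m) j * po (c + j) (m - j) * 2 ^ (m - j)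

/-- certificate -/
def Wf (M : ℕ) (c : A) : ℕ → A
  | 0 => 0
  | (j + 1) => (-1) ^ (j + 1) * ((M + 1).choose j : A) * po (2 * c + M + 2) j * po (c + j) (M + 2 - j) * 2 ^ (M + 2 - j)

/-- shifted sum -/
def Vf (M : ℕ) (c : A) : ℕ → A
  | 0 => 0
  | 1 => 0
  | (j + 2) => (-1) ^ j * (M.choose j : A) * po (2 * (c + 2) - 1 + M) j * po (c + 2 + j) (M - j) * 2 ^ (M - j)

lemma GG_term (M : ℕ) (c : A) (j : ℕ) (hj : j < M + 3) :
    (-1) ^ j * ((M + 2).choose j : A) * po (2 * c - 1 + (M + 2 : ℕ)) j * po (c + j) (M + 2 - j) * 2 ^ (M + 2 - j)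
      + (M + 1) * (2 * c + M + 2) * Vf M c j = Wf M c j - Wf M c (j + 1) := by
  match j, hj with
  | 0, _ =>
    simp [Vf, Wf]
  | 1, _ =>
    have e1 : po (c + ((0 : ℕ) : A)) (M + 2 - 0) = c * po (c + ((1 : ℕ) : A)) (M + 2 - 1) := by
      rw [show M + 2 - 0 = (M + 1) + 1 by omega, po_succ', show M + 2 - 1 = M + 1 by omega]
      simp
    have e2 : (2 : A) ^ (M + 2 - 0) = 2 * 2 ^ (M + 2 - 1) := by
      rw [show M + 2 - 0 = (M + 1) + 1 by omega, show M + 2 - 1 = M + 1 by omega, pow_succ]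
      ring
    simp only [Vf, Wf]
    rw [e1, e2, po_succ, po_succ, po_zero, po_zero]
    simp only [Nat.choose_one_right, Nat.choose_zero_right]
    push_cast
    ring
  | (j + 2), hj =>
    have hjM : j ≤ M := by omega
    simp only [Vf, Wf]
    set P := po (2 * c + M + 3) j with hP
    set Z := po (c + (j + 2 : ℕ)) (M + 2 - (j + 2)) * 2 ^ (M + 2 - (j + 2)) with hZ
    have e0 : po (2 * (c + 2) - 1 + (M : A)) j = P := by
      rw [hP]; congr 1; ring
    have e1 : po (2 * c + M + 2) (j + 1) = (2 * c + M + 2) * P := by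
      rw [po_succ', hP]; congr 2; ring
    have e2 : po (2 * c - 1 + ((M + 2 : ℕ) : A)) (j + 2) = (2 * c + M + 1) * ((2 * c + M + 2) * P) := by
      rw [po_succ', ← e1]
      push_cast
      congr 1
      · ring
      · congr 1; ring
    have e3 : po (2 * c + M + 2) (j + 2) = ((2 * c + M + 2) * P) * (2 * c + M + 2 + j + 1) := by
      rw [po_succ, e1]; push_cast; ring
    have e4 : po (c + ((j + 1 : ℕ) : A)) (M + 2 - (j + 1)) * 2 ^ (M + 2 - (j + 1)) = 2 * (c + j + 1) * Z := by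
      rw [show M + 2 - (j + 1) = (M + 2 - (j + 2)) + 1 by omega, po_succ', pow_succ, hZ]
      push_cast
      rw [show c + ((j : A) + 1) + 1 = c + ((j : A) + 2) by ring]
      ring
    have e5 : po (c + 2 + (j : A)) (M - j) * 2 ^ (M - j) = Z := by
      rw [hZ, show M + 2 - (j + 2) = M - j by omega]
      push_cast
      rw [show c + 2 + (j : A) = c + ((j : A) + 2) by ring]
    have c1 : ((M : A) + 1) * (M.choose j : A) = ((M + 1).choose (j + 1) : A) * ((j : A) + 1) := by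
      have := congrArg (Nat.cast : ℕ → A) (Nat.add_one_mul_choose_eq M j)
      push_cast at this
      linear_combination this
    have c2 : ((M + 2).choose (j + 2) : A) = ((M + 1).choose (j + 1) : A) + ((M + 1).choose (j + 2) : A) := by
      have := congrArg (Nat.cast : ℕ → A) (Nat.choose_succ_succ (M + 1) (j + 1))
      push_cast at this
      linear_combination this
    have c3 : ((M + 1).choose (j + 2) : A) * ((j : A) + 2) = ((M + 1).choose (j + 1) : A) * ((M : A) - j) := by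
      have := congrArg (Nat.cast : ℕ → A) (Nat.choose_succ_right_eq (M + 1) (j + 1))
      rw [show M + 1 - (j + 1) = M - j by omega] at this
      push_cast [Nat.cast_sub hjM] at this
      linear_combination this
    have s1 : (-1 : A) ^ (j + 2) = (-1) ^ j := by rw [pow_add]; simp
    have s2 : (-1 : A) ^ (j + 2 + 1) = - (-1) ^ j := by rw [pow_succ, s1]; ring
    have s3 : (-1 : A) ^ (j + 1 + 1) = (-1) ^ j := s1
    calc _ = (-1) ^ j * ((M + 2).choose (j + 2) : A) * ((2 * c + M + 1) * ((2 * c + M + 2) * P)) * Z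
        + (M + 1) * (2 * c + M + 2) * ((-1) ^ j * (M.choose j : A) * P * Z) := by
          rw [s1, e2, e0, mul_assoc (_ * _) (po _ _) (2 ^ _), mul_assoc (_ * _) (po _ _) (2 ^ _), e5]
      _ = (-1) ^ j * ((M + 1).choose (j + 1) : A) * ((2 * c + M + 2) * P) * (2 * (c + j + 1) * Z)
        - (- (-1) ^ j) * ((M + 1).choose (j + 2) : A) * (((2 * c + M + 2) * P) * (2 * c + M + 2 + j + 1)) * Z := by
          rw [c2]
          linear_combination ((-1) ^ j * (2 * c + M + 2) * P * Z) * c1 - ((-1) ^ j * (2 * c + M + 2) * P * Z) * c3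
      _ = _ := by
          rw [s3, s2, e3, e1, ← e4, mul_assoc (_ * _) (po _ _) (2 ^ _), mul_assoc (_ * _) (po _ _) (2 ^ _)]

lemma GG_rec (M : ℕ) (c : A) : GG (M + 2) c = - ((M + 1) * (2 * c + M + 2) * GG M (c + 2)) := by
  have h1 : ∑ j ∈ range (M + 3), ((-1) ^ j * ((M + 2).choose j : A) * po (2 * c - 1 + (M + 2 : ℕ)) j * po (c + j) (M + 2 - j) * 2 ^ (M + 2 - j)
      + (M + 1) * (2 * c + M + 2) * Vf M c j) = 0 := by
    rw [Finset.sum_congr rfl (fun j hj => GG_term M c j (Finset.mem_range.mp hj)), Finset.sum_range_sub']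
    simp [Wf]
  rw [Finset.sum_add_distrib, ← Finset.mul_sum] at h1
  have h2 : ∑ j ∈ range (M + 3), Vf M c j = GG M (c + 2) := by
    rw [Finset.sum_range_succ', Finset.sum_range_succ', GG]
    simp [Vf]
  rw [h2] at h1
  have h3 : GG (M + 2) c = ∑ j ∈ range (M + 3), (-1) ^ j * ((M + 2).choose j : A) * po (2 * c - 1 + (M + 2 : ℕ)) j * po (c + j) (M + 2 - j) * 2 ^ (M + 2 - j) := rfl
  rw [h3]
  linear_combination h1

/-- finite form of the second summation theorem of Gauss -/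
theorem gauss_second (f : ℕ) : ∀ c : A, GG (2 * f) c = (-1) ^ f * (∏ i ∈ range f, (2 * (2 * (i : A) + 1))) * po (c + f) f := by
  induction f with
  | zero => intro c; simp [GG]
  | succ f ih =>
    intro c
    rw [show 2 * (f + 1) = 2 * f + 2 by ring, GG_rec, ih, Finset.prod_range_succ, po_succ', pow_succ]
    push_cast
    rw [show c + ((f : A) + 1) + 1 = c + 2 + f by ring]
    ring

end general

lemma fact_prod (f : ℕ) : (∏ i ∈ range f, (2 * (2 * i + 1))) * f.factorial = (2 * f).factorial := by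
  induction f with
  | zero => simp
  | succ f ih =>
    rw [Finset.prod_range_succ, Nat.factorial_succ, show 2 * (f + 1) = 2 * f + 1 + 1 by ring, Nat.factorial_succ,
      Nat.factorial_succ, ← ih]
    ring

variable {p : ℕ} [hp : Fact p.Prime]

/-- `C(n,2j) C(2j,j)` -/
def Dj (n j : ℕ) : ℕ := n.choose (2 * j) * (2 * j).choose j

lemma Dj_succ (n j : ℕ) : (Dj n (j + 1) : ℤ) * ((j : ℤ) + 1) ^ 2 = (Dj n j : ℤ) * ((n : ℤ) - 2 * j) * ((n : ℤ) - 2 * j - 1) := by
  unfold Dj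
  have h1 : ∀ m, (n.choose (m + 1) : ℤ) * ((m : ℤ) + 1) = (n.choose m : ℤ) * ((n : ℤ) - m) := by
    intro m
    rcases Nat.lt_or_ge n m with h | h
    · rw [Nat.choose_eq_zero_of_lt h, Nat.choose_eq_zero_of_lt (by omega)]; simp
    · have := Nat.choose_succ_right_eq n m
      have h2 := congrArg (Nat.cast : ℕ → ℤ) this
      push_cast [Nat.cast_sub h] at h2
      linear_combination h2
  have h2 := h1 (2 * j)
  have h3 := h1 (2 * j + 1)
  have h4 : (j + 1) * (j + 1).centralBinom = 2 * (2 * j + 1) * j.centralBinom := Nat.succ_mul_centralBinom_succ j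
  have h5 := congrArg (Nat.cast : ℕ → ℤ) h4
  unfold Nat.centralBinom at h5
  push_cast at h2 h3 h5 ⊢
  rw [show 2 * (j + 1) = 2 * j + 1 + 1 by ring] at h5 ⊢
  -- X = choose (2j+2), Y = choose(2j+1), Z = choose (2j)
  have h6 : (n.choose (2 * j + 1 + 1) : ℤ) * (2 * ((j : ℤ) + 1)) * (2 * (j : ℤ) + 1) = (n.choose (2 * j) : ℤ) * ((n : ℤ) - 2 * j) * ((n : ℤ) - 2 * j - 1) := by
    linear_combination (2 * (j : ℤ) + 1) * h3 + ((n : ℤ) - 2 * j - 1) * h2
  linear_combination ((n.choose (2 * j + 1 + 1) : ℤ) * ((j : ℤ) + 1)) * h5 + ((2 * j).choose j : ℤ) * h6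

/-- the value of `H(1/2)` modulo `p^2` -/
noncomputable def Hval (p : ℕ) [Fact p.Prime] (n f : ℕ) : ZMod (p ^ 2) :=
  ∑ j ∈ range (2 * f + 1), (Dj n j : ZMod (p ^ 2)) * ((8 : ZMod (p ^ 2)) ^ j)⁻¹

/-- the value of `S(1/2)` modulo `p` -/
noncomputable def Sval (p : ℕ) [Fact p.Prime] (n f : ℕ) : ZMod p :=
  ∑ j ∈ range (2 * f + 1), (Dj n j : ZMod p) * ((8 : ZMod p) ^ j)⁻¹ * Har p j

/-- `1 - p/4` -/
noncomputable def c0 (p : ℕ) [Fact p.Prime] : ZMod (p ^ 2) := 1 + eps p (-(1 / 4))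

lemma four_ne (h2 : (2 : ZMod p) ≠ 0) : (4 : ZMod p) ≠ 0 := by
  have : (4 : ZMod p) = 2 * 2 := by norm_num
  rw [this]; exact mul_ne_zero h2 h2

lemma po_c0 (j : ℕ) (hj : j < p) : po (c0 p) j = ((j.factorial : ℕ) : ZMod (p ^ 2)) * uu p (- (Har p j / 4)) := by
  induction j with
  | zero => simp
  | succ j ih =>
    rw [po_succ, ih (by omega), Nat.factorial_succ, Har_succ]
    have hne : ((j + 1 : ℕ) : ZMod p) ≠ 0 := natCast_ne_zero_of_lt (by omega) hj
    have e1 : c0 p + (j : ZMod (p ^ 2)) = ((j + 1 : ℕ) : ZMod (p ^ 2)) * uu p (-(((j + 1 : ℕ) : ZMod p)⁻¹ / 4)) := by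
      unfold c0 uu
      rw [mul_add, mul_eps, red_natCast]
      have : ((j + 1 : ℕ) : ZMod p) * -(((j + 1 : ℕ) : ZMod p)⁻¹ / 4) = -(1 / 4) := by
        rw [mul_neg, mul_div_assoc', mul_inv_cancel₀ hne]
      rw [this]
      push_cast
      ring
    rw [e1]
    have e2 : uu p (-(Har p j / 4)) * uu p (-(((j + 1 : ℕ) : ZMod p)⁻¹ / 4)) = uu p (-((Har p j + ((j + 1 : ℕ) : ZMod p)⁻¹) / 4)) := by
      rw [uu_mul]; congr 1; ring
    rw [← e2]
    push_cast
    ring

lemma two_b0 (f : ℕ) (h2 : (2 : ZMod p) ≠ 0) : 2 * (2 * c0 p - 1 + ((2 * f : ℕ) : ZMod (p ^ 2))) = 4 * f + 2 - (p : ZMod (p ^ 2)) := by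
  unfold c0
  have h4 := four_ne h2
  have e : (4 : ZMod (p ^ 2)) * eps p (-(1 / 4)) = - (p : ZMod (p ^ 2)) := by
    rw [mul_eps]
    have : red p (4 : ZMod (p ^ 2)) = (4 : ZMod p) := by exact_mod_cast red_natCast (p := p) 4
    rw [this]
    have : (4 : ZMod p) * -(1 / 4) = -1 := by field_simp
    rw [this, eps_neg, eps_one]
  push_cast
  linear_combination e

lemma gauss_coeff (f n : ℕ) (hf : (p = 8 * f + 1 ∧ n = 4 * f) ∨ (p = 8 * f + 3 ∧ n = 4 * f + 1)) (j : ℕ) (hj : j ≤ 2 * f) :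
    (-1) ^ j * ((2 * f).choose j : ZMod (p ^ 2)) * po (2 * c0 p - 1 + ((2 * f : ℕ) : ZMod (p ^ 2))) j * 4 ^ j
      = (Dj n j : ZMod (p ^ 2)) * (j.factorial : ZMod (p ^ 2)) := by
  have h2 : (2 : ZMod p) ≠ 0 := two_ne_zero_of (p := p) n (by omega)
  induction j with
  | zero => simp [Dj]
  | succ j ih =>
    have ih' := ih (by omega)
    have hne : red p ((j + 1 : ℕ) : ZMod (p ^ 2)) ≠ 0 := by
      rw [red_natCast]; exact natCast_ne_zero_of_lt (by omega) (by omega)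
    apply mul_left_cancel_of_red hne
    have hD : (Dj n (j + 1) : ZMod (p ^ 2)) * ((j : ZMod (p ^ 2)) + 1) ^ 2 = (Dj n j : ZMod (p ^ 2)) * ((n : ZMod (p ^ 2)) - 2 * j) * ((n : ZMod (p ^ 2)) - 2 * j - 1) := by
      have := congrArg (Int.cast : ℤ → ZMod (p ^ 2)) (Dj_succ n j)
      push_cast at this
      exact this
    have hC : ((2 * f).choose (j + 1) : ZMod (p ^ 2)) * ((j : ZMod (p ^ 2)) + 1) = ((2 * f).choose j : ZMod (p ^ 2)) * (2 * (f : ZMod (p ^ 2)) - j) := by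
      have := congrArg (Nat.cast : ℕ → ZMod (p ^ 2)) (Nat.choose_succ_right_eq (2 * f) j)
      push_cast [Nat.cast_sub (show j ≤ 2 * f by omega)] at this
      exact this
    have hb := two_b0 (p := p) f h2
    have key : -4 * (2 * (f : ZMod (p ^ 2)) - j) * (2 * c0 p - 1 + ((2 * f : ℕ) : ZMod (p ^ 2)) + j)
        = ((n : ZMod (p ^ 2)) - 2 * j) * ((n : ZMod (p ^ 2)) - 2 * j - 1) := by
      rcases hf with ⟨h1, h3⟩ | ⟨h1, h3⟩
      · have hpc : (p : ZMod (p ^ 2)) = 8 * f + 1 := by exact_mod_cast congrArg (Nat.cast : ℕ → ZMod (p ^ 2)) h1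
        have hnc : (n : ZMod (p ^ 2)) = 4 * f := by exact_mod_cast congrArg (Nat.cast : ℕ → ZMod (p ^ 2)) h3
        rw [hnc]
        linear_combination (-2 * (2 * (f : ZMod (p ^ 2)) - j)) * hb + (2 * (2 * (f : ZMod (p ^ 2)) - j)) * hpc
      · have hpc : (p : ZMod (p ^ 2)) = 8 * f + 3 := by exact_mod_cast congrArg (Nat.cast : ℕ → ZMod (p ^ 2)) h1
        have hnc : (n : ZMod (p ^ 2)) = 4 * f + 1 := by exact_mod_cast congrArg (Nat.cast : ℕ → ZMod (p ^ 2)) h3
        rw [hnc]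
        linear_combination (-2 * (2 * (f : ZMod (p ^ 2)) - j)) * hb + (2 * (2 * (f : ZMod (p ^ 2)) - j)) * hpc
    rw [po_succ, Nat.factorial_succ, pow_succ (-1 : ZMod (p ^ 2)) j, pow_succ (4 : ZMod (p ^ 2)) j]
    push_cast at ih' hb key ⊢
    linear_combination (-4 * (-1) ^ j * po (2 * c0 p - 1 + 2 * (f : ZMod (p ^ 2))) j * (2 * c0 p - 1 + 2 * (f : ZMod (p ^ 2)) + j) * 4 ^ j) * hC
      + (-4 * (2 * (f : ZMod (p ^ 2)) - j) * (2 * c0 p - 1 + 2 * (f : ZMod (p ^ 2)) + j)) * ih'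
      + ((Dj n j : ZMod (p ^ 2)) * (j.factorial : ZMod (p ^ 2))) * key - (j.factorial : ZMod (p ^ 2)) * hD

lemma red_eight_pow_ne (h2 : (2 : ZMod p) ≠ 0) (j : ℕ) : red p ((8 : ZMod (p ^ 2)) ^ j) ≠ 0 := by
  rw [map_pow]
  have : red p (8 : ZMod (p ^ 2)) = 2 ^ 3 := by
    have h : red p ((8 : ℕ) : ZMod (p ^ 2)) = ((8 : ℕ) : ZMod p) := red_natCast 8
    push_cast at h
    rw [h]; norm_num
  rw [this]
  exact pow_ne_zero _ (pow_ne_zero _ h2)

lemma red_four_pow_ne (h2 : (2 : ZMod p) ≠ 0) (j : ℕ) : red p ((4 : ZMod (p ^ 2)) ^ j) ≠ 0 := by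
  rw [map_pow]
  have : red p (4 : ZMod (p ^ 2)) = 2 ^ 2 := by
    have h : red p ((4 : ℕ) : ZMod (p ^ 2)) = ((4 : ℕ) : ZMod p) := red_natCast 4
    push_cast at h
    rw [h]; norm_num
  rw [this]
  exact pow_ne_zero _ (pow_ne_zero _ h2)

lemma inv_pow_two_pow (a : ZMod (p ^ 2)) (b : ZMod (p ^ 2)) (ha : red p a ≠ 0) (hb : red p b ≠ 0) :
    (a * b)⁻¹ = a⁻¹ * b⁻¹ := by
  have hab : red p (a * b) ≠ 0 := by rw [map_mul]; exact mul_ne_zero ha hb
  apply mul_left_cancel_of_red hab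
  rw [mul_inv_self' hab]
  have := mul_inv_self' ha
  have h2 := mul_inv_self' hb
  calc (1 : ZMod (p ^ 2)) = (a * a⁻¹) * (b * b⁻¹) := by rw [this, h2]; ring
    _ = _ := by ring

theorem gauss_eval (f n : ℕ) (hf : (p = 8 * f + 1 ∧ n = 4 * f) ∨ (p = 8 * f + 3 ∧ n = 4 * f + 1)) :
    Hval p n f + eps p (Sval p n f / 4) =
      (-1) ^ f * (Nat.choose (2 * f) f : ZMod (p ^ 2)) * ((4 : ZMod (p ^ 2)) ^ f)⁻¹ * uu p (Har p f / 4) := by
  have h2 : (2 : ZMod p) ≠ 0 := two_ne_zero_of (p := p) n (by omega)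
  have hG := gauss_second (A := ZMod (p ^ 2)) f (c0 p)
  -- left side
  set F := ((2 * f).factorial : ZMod (p ^ 2)) with hF
  have hterm : ∀ j ∈ range (2 * f + 1),
      (-1) ^ j * ((2 * f).choose j : ZMod (p ^ 2)) * po (2 * c0 p - 1 + ((2 * f : ℕ) : ZMod (p ^ 2))) j * po (c0 p + j) (2 * f - j) * 2 ^ (2 * f - j)
        = 4 ^ f * F * uu p (-(Har p (2 * f) / 4)) * ((Dj n j : ZMod (p ^ 2)) * ((8 : ZMod (p ^ 2)) ^ j)⁻¹ * uu p (Har p j / 4)) := by
    intro j hj
    rw [Finset.mem_range] at hj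
    have hfj : red p ((j.factorial : ℕ) : ZMod (p ^ 2)) ≠ 0 := fact_red_ne (by omega)
    have h8 := red_eight_pow_ne (p := p) h2 j
    have h4 := red_four_pow_ne (p := p) h2 j
    have hunit : red p (4 ^ j * (j.factorial : ZMod (p ^ 2)) * uu p (-(Har p j / 4))) ≠ 0 := by
      rw [map_mul, map_mul, red_uu, mul_one]; exact mul_ne_zero h4 hfj
    apply mul_left_cancel_of_red hunit
    have e1 := gauss_coeff (p := p) f n hf j (by omega)
    have e2 : po (c0 p) (2 * f) = po (c0 p) j * po (c0 p + j) (2 * f - j) := by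
      rw [← po_add]; congr 1; omega
    rw [po_c0 (2 * f) (by omega), po_c0 j (by omega)] at e2
    have e3 : uu p (-(Har p j / 4)) * uu p (Har p j / 4) = 1 := uu_neg_mul _
    have e4 : (2 : ZMod (p ^ 2)) ^ (2 * f - j) * 8 ^ j = 4 ^ f * 4 ^ j := by
      have : (8 : ZMod (p ^ 2)) ^ j = 2 ^ j * 4 ^ j := by rw [← mul_pow]; norm_num
      rw [this, ← mul_assoc, ← pow_add, show 2 * f - j + j = 2 * f by omega, pow_mul (2 : ZMod (p ^ 2)) 2 f]
      norm_num
    have e5 : (8 : ZMod (p ^ 2)) ^ j * (8 ^ j)⁻¹ = 1 := mul_inv_self' h8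
    calc _ = ((-1) ^ j * ((2 * f).choose j : ZMod (p ^ 2)) * po (2 * c0 p - 1 + ((2 * f : ℕ) : ZMod (p ^ 2))) j * 4 ^ j)
          * (((j.factorial : ℕ) : ZMod (p ^ 2)) * uu p (-(Har p j / 4)) * po (c0 p + j) (2 * f - j)) * 2 ^ (2 * f - j) := by ring
      _ = ((Dj n j : ZMod (p ^ 2)) * (j.factorial : ZMod (p ^ 2))) * (F * uu p (-(Har p (2 * f) / 4))) * (2 ^ (2 * f - j) * (8 ^ j * (8 ^ j)⁻¹)) := by
          rw [e1, ← e2, e5]; ring
      _ = ((Dj n j : ZMod (p ^ 2)) * (j.factorial : ZMod (p ^ 2))) * (F * uu p (-(Har p (2 * f) / 4))) * ((2 ^ (2 * f - j) * 8 ^ j) * (8 ^ j)⁻¹)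
            * (uu p (-(Har p j / 4)) * uu p (Har p j / 4)) := by rw [e3]; ring
      _ = _ := by rw [e4]; ring
  have hL : GG (2 * f) (c0 p) = 4 ^ f * F * uu p (-(Har p (2 * f) / 4)) * (Hval p n f + eps p (Sval p n f / 4)) := by
    unfold GG
    rw [Finset.sum_congr rfl hterm, ← Finset.mul_sum]
    congr 1
    unfold Hval Sval
    rw [Finset.sum_div, eps_sum, ← Finset.sum_add_distrib]
    apply Finset.sum_congr rfl
    intro j _
    unfold uu
    rw [mul_add, mul_one, mul_eps]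
    congr 2
    rw [map_mul, red_natCast, red_inv (red_eight_pow_ne h2 j), map_pow]
    have : red p (8 : ZMod (p ^ 2)) = 8 := by exact_mod_cast red_natCast (p := p) 8
    rw [this]
    ring
  rw [hL] at hG
  -- right side
  have hfact : (∏ i ∈ range f, (2 * (2 * (i : ZMod (p ^ 2)) + 1))) * (f.factorial : ZMod (p ^ 2)) = F := by
    have := congrArg (Nat.cast : ℕ → ZMod (p ^ 2)) (fact_prod f)
    push_cast at this
    exact this
  have hchoose : (Nat.choose (2 * f) f : ZMod (p ^ 2)) * ((f.factorial : ZMod (p ^ 2)) * (f.factorial : ZMod (p ^ 2))) = F := by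
    have := Nat.choose_mul_factorial_mul_factorial (n := 2 * f) (k := f) (by omega)
    rw [show 2 * f - f = f by omega] at this
    rw [hF, ← this]; push_cast; ring
  have e2 : po (c0 p) (2 * f) = po (c0 p) f * po (c0 p + f) f := by
    rw [← po_add]; congr 1; omega
  rw [po_c0 (2 * f) (by omega), po_c0 f (by omega)] at e2
  have uF : red p F ≠ 0 := fact_red_ne (by omega)
  have uf : red p ((f.factorial : ℕ) : ZMod (p ^ 2)) ≠ 0 := fact_red_ne (by omega)
  have u4 := red_four_pow_ne (p := p) h2 f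
  have hunit : red p (4 ^ f * F * uu p (-(Har p (2 * f) / 4)) * ((f.factorial : ZMod (p ^ 2)) * (f.factorial : ZMod (p ^ 2)))) ≠ 0 := by
    rw [map_mul, map_mul, map_mul, map_mul, red_uu, mul_one]
    exact mul_ne_zero (mul_ne_zero u4 uF) (mul_ne_zero uf uf)
  apply mul_left_cancel_of_red hunit
  have e3 : uu p (-(Har p f / 4)) * uu p (Har p f / 4) = 1 := uu_neg_mul _
  have e5 : (4 : ZMod (p ^ 2)) ^ f * (4 ^ f)⁻¹ = 1 := mul_inv_self' u4
  calc _ = (4 ^ f * F * uu p (-(Har p (2 * f) / 4)) * (Hval p n f + eps p (Sval p n f / 4))) * ((f.factorial : ZMod (p ^ 2)) * (f.factorial : ZMod (p ^ 2))) := by ring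
    _ = ((-1) ^ f * (∏ i ∈ range f, (2 * (2 * (i : ZMod (p ^ 2)) + 1))) * po (c0 p + f) f) * ((f.factorial : ZMod (p ^ 2)) * (f.factorial : ZMod (p ^ 2)))
        * (uu p (-(Har p f / 4)) * uu p (Har p f / 4)) := by rw [hG, e3]; ring
    _ = (-1) ^ f * ((∏ i ∈ range f, (2 * (2 * (i : ZMod (p ^ 2)) + 1))) * (f.factorial : ZMod (p ^ 2))) *
        (((f.factorial : ℕ) : ZMod (p ^ 2)) * uu p (-(Har p f / 4)) * po (c0 p + f) f) * uu p (Har p f / 4) := by ring
    _ = (-1) ^ f * ((Nat.choose (2 * f) f : ZMod (p ^ 2)) * ((f.factorial : ZMod (p ^ 2)) * (f.factorial : ZMod (p ^ 2)))) *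
        (F * uu p (-(Har p (2 * f) / 4))) * uu p (Har p f / 4) * (4 ^ f * (4 ^ f)⁻¹) := by rw [hfact, ← e2, hchoose, e5]; ring
    _ = _ := by ring

end Pool.Agent.Pell
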