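import Pool.Agent.Pell.Comb

namespace Pool.Agent.Pell

open Finset Polynomial

section general
variable {A : Type*} [CommRing A]

lemma GG_odd (f : ℕ) : ∀ c : A, GG (2 * f + 1) c = 0 := by
  induction f with
  | zero =>
    intro c
    simp [GG, Finset.sum_range_succ, po]
    ring
  | succ f ih =>
    intro c
    rw [show 2 * (f + 1) + 1 = (2 * f + 1) + 2 by ring, GG_rec, ih]
    ring

lemma GG1_zero (f : ℕ) (c : A) : ∑ j ∈ range (2 * f + 1), (j : A) *
    ((-1) ^ j * ((2 * f).choose j : A) * po (2 * c - 1 + ((2 * f : ℕ) : A)) j * po (c + j) (2 * f - j) * 2 ^ (2 * f - j)) = 0 := by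
  rcases f with _ | f
  · simp
  · rw [show 2 * (f + 1) = (2 * f + 1) + 1 by ring, Finset.sum_range_succ']
    simp only [Nat.cast_zero, zero_mul, add_zero]
    have hterm : ∀ j ∈ range (2 * f + 1 + 1), ((j + 1 : ℕ) : A) *
        ((-1) ^ (j + 1) * ((2 * f + 1 + 1).choose (j + 1) : A) * po (2 * c - 1 + ((2 * f + 1 + 1 : ℕ) : A)) (j + 1) * po (c + ((j + 1 : ℕ) : A)) (2 * f + 1 + 1 - (j + 1)) * 2 ^ (2 * f + 1 + 1 - (j + 1)))
        = (-((2 * f + 1 + 1 : ℕ) : A) * (2 * c + 2 * f + 1)) *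
          ((-1) ^ j * ((2 * f + 1).choose j : A) * po (2 * (c + 1) - 1 + ((2 * f + 1 : ℕ) : A)) j * po (c + 1 + j) (2 * f + 1 - j) * 2 ^ (2 * f + 1 - j)) := by
      intro j _
      rw [Nat.add_sub_add_right, po_succ' (2 * c - 1 + _), pow_succ (-1 : A) j]
      have h1 := congrArg (Nat.cast : ℕ → A) (Nat.add_one_mul_choose_eq (2 * f + 1) j)
      have e1 : 2 * c - 1 + ((2 * f + 1 + 1 : ℕ) : A) + 1 = 2 * (c + 1) - 1 + ((2 * f + 1 : ℕ) : A) := by push_cast; ring
      have e2 : c + ((j + 1 : ℕ) : A) = c + 1 + j := by push_cast; ring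
      rw [e1, e2]
      set P := po (2 * (c + 1) - 1 + ((2 * f + 1 : ℕ) : A)) j
      set Z := po (c + 1 + (j : A)) (2 * f + 1 - j)
      push_cast at h1 ⊢
      linear_combination ((-1) ^ j * (2 * c + 2 * f + 1) * P * Z * 2 ^ (2 * f + 1 - j)) * h1
    rw [Finset.sum_congr rfl hterm, ← Finset.mul_sum]
    have := GG_odd f (c + 1)
    unfold GG at this
    rw [this, mul_zero]

end general

variable {p : ℕ} [hp : Fact p.Prime]

lemma gauss_term (f n : ℕ) (hf : Par p n f) (j : ℕ) (hj : j ≤ 2 * f) :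
      (-1) ^ j * ((2 * f).choose j : ZMod (p ^ 2)) * po (2 * c0 p - 1 + ((2 * f : ℕ) : ZMod (p ^ 2))) j * po (c0 p + j) (2 * f - j) * 2 ^ (2 * f - j)
        = 4 ^ f * ((2 * f).factorial : ZMod (p ^ 2)) * uu p (-(Har p (2 * f) / 4)) * ((Dj n j : ZMod (p ^ 2)) * ((8 : ZMod (p ^ 2)) ^ j)⁻¹ * uu p (Har p j / 4)) := by
  have hpn := hf.two_n
  have hb : 2 * f < p := by rcases hf with h | h <;> omega
  have h2 : (2 : ZMod p) ≠ 0 := hf.two_ne
  set F := ((2 * f).factorial : ZMod (p ^ 2)) with hF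
  have hfj : red p ((j.factorial : ℕ) : ZMod (p ^ 2)) ≠ 0 := fact_red_ne (by omega)
  have h8 := red_eight_pow_ne (p := p) h2 j
  have h4 := red_four_pow_ne (p := p) h2 j
  have hunit : red p (4 ^ j * (j.factorial : ZMod (p ^ 2)) * uu p (-(Har p j / 4))) ≠ 0 := by
    rw [map_mul, map_mul, red_uu, mul_one]; exact mul_ne_zero h4 hfj
  apply mul_left_cancel_of_red hunit
  have e1 := gauss_coeff (p := p) f n hf j (by omega)
  have e2 : po (c0 p) (2 * f) = po (c0 p) j * po (c0 p + j) (2 * f - j) := by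
    rw [← po_add]; congr 1; omega
  rw [po_c0 (2 * f) (by omega), po_c0 j (by omega)] at e2
  have e3 : uu p (-(Har p j / 4)) * uu p (Har p j / 4) = 1 := uu_neg_mul _
  have e4 : (2 : ZMod (p ^ 2)) ^ (2 * f - j) * 8 ^ j = 4 ^ f * 4 ^ j := by
    have : (8 : ZMod (p ^ 2)) ^ j = 2 ^ j * 4 ^ j := by rw [← mul_pow]; norm_num
    rw [this, ← mul_assoc, ← pow_add, show 2 * f - j + j = 2 * f by omega, pow_mul (2 : ZMod (p ^ 2)) 2 f]
    norm_num
  have e5 : (8 : ZMod (p ^ 2)) ^ j * (8 ^ j)⁻¹ = 1 := mul_inv_self' h8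
  calc _ = ((-1) ^ j * ((2 * f).choose j : ZMod (p ^ 2)) * po (2 * c0 p - 1 + ((2 * f : ℕ) : ZMod (p ^ 2))) j * 4 ^ j)
        * (((j.factorial : ℕ) : ZMod (p ^ 2)) * uu p (-(Har p j / 4)) * po (c0 p + j) (2 * f - j)) * 2 ^ (2 * f - j) := by ring
    _ = ((Dj n j : ZMod (p ^ 2)) * (j.factorial : ZMod (p ^ 2))) * (F * uu p (-(Har p (2 * f) / 4))) * (2 ^ (2 * f - j) * (8 ^ j * (8 ^ j)⁻¹)) := by
        rw [e1, ← e2, e5]; ring
    _ = ((Dj n j : ZMod (p ^ 2)) * (j.factorial : ZMod (p ^ 2))) * (F * uu p (-(Har p (2 * f) / 4))) * ((2 ^ (2 * f - j) * 8 ^ j) * (8 ^ j)⁻¹)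
          * (uu p (-(Har p j / 4)) * uu p (Har p j / 4)) := by rw [e3]; ring
    _ = _ := by rw [e4]; ring

/-- `v H'(v)` at `1/2` modulo `p^2` -/
noncomputable def K1 (p : ℕ) [Fact p.Prime] (n f : ℕ) : ZMod (p ^ 2) :=
  ∑ j ∈ range (2 * f + 1), (j : ZMod (p ^ 2)) * ((Dj n j : ZMod (p ^ 2)) * ((8 : ZMod (p ^ 2)) ^ j)⁻¹)

/-- `v S'(v)` at `1/2` modulo `p` -/
noncomputable def S1val (p : ℕ) [Fact p.Prime] (n f : ℕ) : ZMod p :=
  ∑ j ∈ range (2 * f + 1), (j : ZMod p) * ((Dj n j : ZMod p) * ((8 : ZMod p) ^ j)⁻¹ * Har p j)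

theorem gauss_eval1 (f n : ℕ) (hf : Par p n f) : K1 p n f + eps p (S1val p n f / 4) = 0 := by
  have h2 : (2 : ZMod p) ≠ 0 := hf.two_ne
  have hb : 2 * f < p := by rcases hf with h | h <;> omega
  have hG := GG1_zero (A := ZMod (p ^ 2)) f (c0 p)
  have hterm : ∀ j ∈ range (2 * f + 1), (j : ZMod (p ^ 2)) *
    ((-1) ^ j * ((2 * f).choose j : ZMod (p ^ 2)) * po (2 * c0 p - 1 + ((2 * f : ℕ) : ZMod (p ^ 2))) j * po (c0 p + j) (2 * f - j) * 2 ^ (2 * f - j))
      = (4 ^ f * ((2 * f).factorial : ZMod (p ^ 2)) * uu p (-(Har p (2 * f) / 4))) *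
        ((j : ZMod (p ^ 2)) * ((Dj n j : ZMod (p ^ 2)) * ((8 : ZMod (p ^ 2)) ^ j)⁻¹) + eps p ((j : ZMod p) * ((Dj n j : ZMod p) * ((8 : ZMod p) ^ j)⁻¹ * Har p j) / 4)) := by
    intro j hj
    rw [Finset.mem_range] at hj
    rw [gauss_term f n hf j (by omega)]
    have e8 : red p (8 : ZMod (p ^ 2)) = 8 := by
      have : red p ((8 : ℕ) : ZMod (p ^ 2)) = ((8 : ℕ) : ZMod p) := red_natCast 8
      push_cast at this
      exact this
    have e1 : eps p ((j : ZMod p) * ((Dj n j : ZMod p) * ((8 : ZMod p) ^ j)⁻¹ * Har p j) / 4)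
        = (j : ZMod (p ^ 2)) * ((Dj n j : ZMod (p ^ 2)) * ((8 : ZMod (p ^ 2)) ^ j)⁻¹) * eps p (Har p j / 4) := by
      rw [mul_eps, map_mul, map_mul, red_natCast, red_natCast, red_inv (red_eight_pow_ne h2 j), map_pow, e8]
      congr 1; ring
    rw [e1]
    unfold uu
    ring
  rw [Finset.sum_congr rfl hterm, ← Finset.mul_sum] at hG
  have hunit : red p (4 ^ f * ((2 * f).factorial : ZMod (p ^ 2)) * uu p (-(Har p (2 * f) / 4))) ≠ 0 := by
    rw [map_mul, map_mul, red_uu, mul_one]
    exact mul_ne_zero (red_four_pow_ne h2 f) (fact_red_ne hb)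
  have h0 := mul_left_cancel_of_red hunit (hG.trans (mul_zero _).symm)
  rw [← h0, Finset.sum_add_distrib]
  unfold K1 S1val
  rw [Finset.sum_div, eps_sum]

/-- Wronskian -/
noncomputable def WW (p n f : ℕ) [Fact p.Prime] : (ZMod p)[X] :=
  2 * (X * (1 - X) * (derivative (SP p n f - C (Har p (2 * f)) * HP p n f) * HP p n f
    - (SP p n f - C (Har p (2 * f)) * HP p n f) * derivative (HP p n f))) - HP p n f ^ 2

lemma deriv_WW {n f : ℕ} (h : Par p n f) : derivative (WW p n f) = 0 := by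
  have a := Dop_HP h
  have b := Dop_SP h
  unfold Dop at a b
  have h16 : (16 : (ZMod p)[X]) * derivative (WW p n f) = 0 := by
    unfold WW
    simp only [derivative_mul, derivative_sub, derivative_X, derivative_one, derivative_C, derivative_ofNat, derivative_pow,
      zero_mul, zero_add, mul_one, one_mul, zero_sub]
    set H := HP p n f
    set S := SP p n f
    set c : (ZMod p)[X] := C (Har p (2 * f))
    have e2 : (C ((2 : ℕ) : ZMod p) : (ZMod p)[X]) = 2 := by rw [Nat.cast_ofNat]; exact map_ofNat C 2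
    rw [e2]
    linear_combination 2 * H * (b - c * a) - 2 * (S - c * H) * a
  have h16' : (16 : (ZMod p)[X]) ≠ 0 := by
    have : (16 : (ZMod p)[X]) = C (2 ^ 4) := by
      have := map_ofNat (C : ZMod p →+* (ZMod p)[X]) 16
      rw [← this]; norm_num
    rw [this, Ne, C_eq_zero]
    exact pow_ne_zero _ h.two_ne
  exact (mul_eq_zero.mp h16).resolve_left h16'

theorem WW_eq {n f : ℕ} (h : Par p n f) : WW p n f = -1 := by
  have hd := deriv_WW h
  have hn := h.n_pos
  have hdeg : (WW p n f).natDegree < p := by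
    have h1 := natDegree_HP h
    have h2 := natDegree_SP h
    have h3 : (SP p n f - C (Har p (2 * f)) * HP p n f).natDegree ≤ 2 * f := by
      refine le_trans (natDegree_sub_le _ _) (max_le h2 ?_)
      exact le_trans (natDegree_C_mul_le _ _) h1
    have h4 : (derivative (SP p n f - C (Har p (2 * f)) * HP p n f)).natDegree ≤ 2 * f - 1 := le_trans (natDegree_derivative_le _) (by omega)
    have h5 : (derivative (HP p n f)).natDegree ≤ 2 * f - 1 := le_trans (natDegree_derivative_le _) (by omega)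
    have h6 : (X * (1 - X) : (ZMod p)[X]).natDegree ≤ 2 := by
      refine le_trans natDegree_mul_le ?_
      rw [natDegree_one_sub_X]
      have := natDegree_X_le (R := ZMod p)
      omega
    rcases Nat.eq_zero_or_pos f with hf | hf
    · -- f = 0: everything constant
      subst hf
      have hH : derivative (HP p n 0) = 0 := by
        have : (HP p n 0).natDegree = 0 := by omega
        rw [natDegree_eq_zero.mp this |>.choose_spec.symm]; simp
      have hS : derivative (SP p n 0 - C (Har p (2 * 0)) * HP p n 0) = 0 := by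
        have : (SP p n 0 - C (Har p (2 * 0)) * HP p n 0).natDegree = 0 := by omega
        rw [natDegree_eq_zero.mp this |>.choose_spec.symm]; simp
      unfold WW
      rw [hH, hS]
      simp only [zero_mul, mul_zero, sub_zero, zero_sub, natDegree_neg]
      refine lt_of_le_of_lt natDegree_pow_le ?_
      have := hp.out.pos
      omega
    · unfold WW
      refine lt_of_le_of_lt (natDegree_sub_le _ _) (max_lt ?_ ?_)
      · have e2 : (2 : (ZMod p)[X]) = C 2 := (map_ofNat C 2).symm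
        rw [e2]
        refine lt_of_le_of_lt (natDegree_C_mul_le _ _) ?_
        refine lt_of_le_of_lt natDegree_mul_le ?_
        have h7 : (derivative (SP p n f - C (Har p (2 * f)) * HP p n f) * HP p n f
            - (SP p n f - C (Har p (2 * f)) * HP p n f) * derivative (HP p n f)).natDegree ≤ 2 * f - 1 + 2 * f := by
          refine le_trans (natDegree_sub_le _ _) (max_le ?_ ?_)
          · refine le_trans natDegree_mul_le ?_
            omega
          · refine le_trans natDegree_mul_le ?_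
            omega
        rcases h with h | h <;> omega
      · refine lt_of_le_of_lt natDegree_pow_le ?_
        rcases h with h | h <;> omega
  ext j
  rcases j with _ | j
  · have h0 : (HP p n f).coeff 0 = 1 := by rw [coeff_HP h]; simp [Dj]
    have e2 : (2 : (ZMod p)[X]) = C 2 := (map_ofNat C 2).symm
    unfold WW
    rw [coeff_sub, e2, coeff_C_mul, mul_assoc X, coeff_X_mul_zero, pow_two, mul_coeff_zero, h0]
    simp
  · have h1 : (-1 : (ZMod p)[X]).coeff (j + 1) = 0 := by simp [coeff_one]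
    rw [h1]
    rcases Nat.lt_or_ge (j + 1) p with hj | hj
    · have h3 := congrArg (fun P : (ZMod p)[X] => P.coeff j) hd
      simp only [coeff_derivative, coeff_zero] at h3
      have hne : ((j + 1 : ℕ) : ZMod p) ≠ 0 := natCast_ne_zero_of_lt (by omega) hj
      push_cast at hne
      exact (mul_eq_zero.mp h3).resolve_right hne
    · exact coeff_eq_zero_of_natDegree_lt (by omega)

/-- `K S'(1/2) = 2 (K^2 - 1)` -/
lemma dSP_half {n f : ℕ} (h : Par p n f) : red p (Kf p f) * (derivative (SP p n f)).eval (1 / 2) = 2 * (red p (Kf p f) ^ 2 - 1) := by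
  have h2 := h.two_ne
  have h1 := congrArg (eval (1 / 2 : ZMod p)) (WW_eq h)
  unfold WW at h1
  simp only [derivative_sub, derivative_mul, derivative_C, zero_mul, zero_add, eval_sub, eval_mul, eval_X, eval_one, eval_ofNat,
    eval_pow, eval_C, eval_neg] at h1
  rw [dHP_half h, SP_half h, eval_HP h, Hval_eq h] at h1
  set K := red p (Kf p f)
  set d := (derivative (SP p n f)).eval (1 / 2)
  have e : (1 / 2 : ZMod p) * 2 = 1 := by field_simp
  have h3 : 2 * ((1 / 2 : ZMod p) * (1 - 1 / 2) * (d * K)) = K ^ 2 - 1 := by linear_combination h1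
  have h4 : 2 * ((1 / 2 : ZMod p) * (1 - 1 / 2) * (d * K)) = (1 / 2) * (d * K) := by
    have : (1 / 2 : ZMod p) * (1 - 1 / 2) * 2 = 1 / 2 := by field_simp; norm_num
    linear_combination (d * K) * this
  rw [h4] at h3
  linear_combination 2 * h3 - (K * d) * e

lemma S1val_eq {n f : ℕ} (h : Par p n f) : 2 * S1val p n f = (derivative (SP p n f)).eval (1 / 2) := by
  have h2 := h.two_ne
  have e : (derivative (SP p n f)).eval (1 / 2) = 2 * (X * derivative (SP p n f)).eval (1 / 2) := by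
    rw [eval_mul, eval_X]; field_simp
  rw [e]
  congr 1
  have e2 : X * derivative (SP p n f) = ∑ j ∈ range (2 * f + 1), C ((j : ZMod p) * ((Dj n j : ZMod p) * ((4 : ZMod p) ^ j)⁻¹ * Har p j)) * X ^ j := by
    ext j
    rw [coeff_theta, coeff_sum_C_mul_X_pow]
    unfold SP
    rw [coeff_sum_C_mul_X_pow]
    split_ifs with hj
    · rfl
    · rw [mul_zero]
  rw [e2, eval_finsetSum]
  unfold S1val
  apply Finset.sum_congr rfl
  intro j _
  simp only [eval_mul, eval_C, eval_pow, eval_X]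
  have e8 : (8 : ZMod p) = 4 * 2 := by norm_num
  rw [e8, mul_pow, mul_inv, one_div, inv_pow]
  ring

/-- `4 K K1 = - p (K^2 - 1)` -/
theorem K1_eq {n f : ℕ} (h : Par p n f) : 4 * Kf p f * K1 p n f = - (p : ZMod (p ^ 2)) * (Kf p f ^ 2 - 1) := by
  have h2 := h.two_ne
  have h4 := four_ne h2
  have e1 := gauss_eval1 f n h
  have e2 := dSP_half h
  rw [← S1val_eq h] at e2
  have e3 : red p (Kf p f) * S1val p n f = red p (Kf p f) ^ 2 - 1 := by
    apply mul_left_cancel₀ h2
    linear_combination e2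
  have e5 : red p (4 : ZMod (p ^ 2)) = 4 := by
    have : red p ((4 : ℕ) : ZMod (p ^ 2)) = ((4 : ℕ) : ZMod p) := red_natCast 4
    push_cast at this
    exact this
  have e4 : 4 * Kf p f * eps p (S1val p n f / 4) = (p : ZMod (p ^ 2)) * (Kf p f ^ 2 - 1) := by
    rw [mul_eps, map_mul, e5, ← eps_red (Kf p f ^ 2 - 1), map_sub, map_pow, map_one, ← e3]
    congr 1; field_simp
  linear_combination (4 * Kf p f) * e1 - e4

/-- `2 δ = 2K(1-τ) + τ S'(1/2)`, so `K δ = K² - τ` -/
lemma delta_eq {n f : ℕ} (h : Par p n f) : red p (Kf p f) * ((roP p n f).eval (1 / 2) + (derivative (roP p n f)).eval (1 / 2))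
    = red p (Kf p f) ^ 2 - (1 / 2) ^ n := by
  have h2 := h.two_ne
  have hF := congrArg derivative (FF_zero h)
  have h1 := congrArg (eval (1 / 2 : ZMod p)) hF
  unfold FF at h1
  simp only [derivative_sub, derivative_mul, derivative_C, zero_mul, zero_add, eval_sub, eval_mul, eval_X, eval_one, eval_ofNat,
    eval_pow, eval_C, eval_neg, derivative_ofNat, eval_add, derivative_zero, eval_zero] at h1
  rw [dHP_half h, SP_half h, eval_HP h, Hval_eq h] at h1
  have h3 := ro_half h
  rw [eval_HP h, Hval_eq h] at h3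
  have h4 := congrArg (eval (1 / 2 : ZMod p)) (lP_ode h)
  simp only [eval_mul, eval_sub, eval_one, eval_X, eval_add, eval_pow, eval_ofNat] at h4
  have h5 := dSP_half h
  set K := red p (Kf p f)
  set d := (derivative (SP p n f)).eval (1 / 2)
  set l := (lP p n).eval (1 / 2)
  set l' := (derivative (lP p n)).eval (1 / 2)
  set r := (roP p n f).eval (1 / 2)
  set r' := (derivative (roP p n f)).eval (1 / 2)
  have e : (1 / 2 : ZMod p) * 2 = 1 := by field_simp
  have h4' : l' + l = 2 * (1 - (1 / 2) ^ n) := by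
    have : (1 - (1 / 2 : ZMod p)) * (2 * (1 / 2) * l' + l) = (1 / 2) * (l' + l) := by
      have e1 : (1 - (1 / 2 : ZMod p)) = 1 / 2 := by linear_combination -e
      rw [e1]; linear_combination ((1 / 2) * l') * e
    rw [this] at h4
    linear_combination 2 * h4 - (l' + l) * e
  apply mul_left_cancel₀ h2
  linear_combination K * h1 + K * h3 + K ^ 2 * h4' + (1 / 2 : ZMod p) ^ n * h5

end Pool.Agent.Pell
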