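import Pool.Agent.Pell.Defs

namespace Pool.Agent.Pell

open Finset

variable {p : ℕ} [hp : Fact p.Prime]

lemma natCast_ne_zero_of_lt {m : ℕ} (h0 : m ≠ 0) (h : m < p) : ((m : ℕ) : ZMod p) ≠ 0 := by
  rw [Ne, ZMod.natCast_eq_zero_iff]
  exact fun hd => absurd (Nat.le_of_dvd (Nat.pos_of_ne_zero h0) hd) (not_le.mpr h)

lemma choose_ne_zero_of_lt {b k : ℕ} (hk : k ≤ b) (hb : b < p) : ((b.choose k : ℕ) : ZMod p) ≠ 0 := by
  rw [Ne, ZMod.natCast_eq_zero_iff]
  intro hd
  have h1 : p ∣ b.factorial := by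
    rw [← Nat.choose_mul_factorial_mul_factorial hk]
    exact Dvd.dvd.mul_right (Dvd.dvd.mul_right hd _) _
  exact absurd ((hp.out.dvd_factorial).mp h1) (not_le.mpr hb)

/-- `∑_{j<k} (-1)^j C(b,j)/(k-j)` -/
noncomputable def fs (p b k : ℕ) : ZMod p :=
  ∑ j ∈ range k, (-1) ^ j * (b.choose j : ZMod p) * (((k - j : ℕ) : ZMod p))⁻¹

lemma fs_succ (b k : ℕ) : fs p (b + 1) (k + 1) = fs p b (k + 1) - fs p b k := by
  unfold fs
  rw [Finset.sum_range_succ', Finset.sum_range_succ' (fun j => (-1) ^ j * (b.choose j : ZMod p) * (((k + 1 - j : ℕ) : ZMod p))⁻¹)]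
  have h : ∀ j ∈ range k, (-1) ^ (j + 1) * ((b + 1).choose (j + 1) : ZMod p) * (((k + 1 - (j + 1) : ℕ) : ZMod p))⁻¹
      = (-1) ^ (j + 1) * (b.choose (j + 1) : ZMod p) * (((k + 1 - (j + 1) : ℕ) : ZMod p))⁻¹
        - (-1) ^ j * (b.choose j : ZMod p) * (((k - j : ℕ) : ZMod p))⁻¹ := by
    intro j _
    rw [Nat.choose_succ_succ, Nat.add_sub_add_right, pow_succ]
    push_cast
    ring
  rw [Finset.sum_congr rfl h, Finset.sum_sub_distrib]
  simp
  ring

lemma fs_gt (b : ℕ) : ∀ k, b < k → k < p →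
    fs p b k = (-1) ^ b * ((((k - b : ℕ) : ZMod p)) * (k.choose b : ZMod p))⁻¹ := by
  induction b with
  | zero =>
    intro k hk hkp
    unfold fs
    obtain ⟨m, rfl⟩ : ∃ m, k = m + 1 := ⟨k - 1, by omega⟩
    rw [Finset.sum_range_succ']
    simp
  | succ b ih =>
    intro k hk hkp
    obtain ⟨m, rfl⟩ : ∃ m, k = m + 1 := ⟨k - 1, by omega⟩
    rw [fs_succ, ih (m + 1) (by omega) hkp, ih m (by omega) (by omega), Nat.add_sub_add_right]
    have h1 : (m + 1) * m.choose b = (m + 1).choose (b + 1) * (b + 1) := Nat.add_one_mul_choose_eq m b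
    have h2 : (m + 1).choose b * (m + 1 - b) = (m + 1) * m.choose b := by
      rw [← Nat.choose_mul_succ_eq, mul_comm]
    have h1' : ((m + 1 : ℕ) : ZMod p) * (m.choose b : ZMod p) = ((m + 1).choose (b + 1) : ZMod p) * ((b + 1 : ℕ) : ZMod p) := by
      exact_mod_cast congrArg (Nat.cast : ℕ → ZMod p) h1
    have h2' : ((m + 1).choose b : ZMod p) * ((m + 1 - b : ℕ) : ZMod p) = ((m + 1 : ℕ) : ZMod p) * (m.choose b : ZMod p) := by
      exact_mod_cast congrArg (Nat.cast : ℕ → ZMod p) h2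
    have n1 : ((m + 1 : ℕ) : ZMod p) ≠ 0 := natCast_ne_zero_of_lt (by omega) hkp
    have n2 : ((b + 1 : ℕ) : ZMod p) ≠ 0 := natCast_ne_zero_of_lt (by omega) (by omega)
    have n3 : ((m - b : ℕ) : ZMod p) ≠ 0 := natCast_ne_zero_of_lt (by omega) (by omega)
    have n4 : (m.choose b : ZMod p) ≠ 0 := choose_ne_zero_of_lt (by omega) (by omega)
    have n5 : ((m + 1).choose (b + 1) : ZMod p) ≠ 0 := choose_ne_zero_of_lt (by omega) (by omega)
    have e1 : ((m - b : ℕ) : ZMod p) = ((m + 1 : ℕ) : ZMod p) - ((b + 1 : ℕ) : ZMod p) := by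
      rw [Nat.cast_sub (by omega)]; push_cast; ring
    rw [mul_comm (((m + 1 - b : ℕ) : ZMod p)), h2', pow_succ]
    have e2 : ((m + 1).choose (b + 1) : ZMod p) = ((m + 1 : ℕ) : ZMod p) * (m.choose b : ZMod p) / ((b + 1 : ℕ) : ZMod p) := by
      rw [h1']; field_simp
    rw [e2]
    have e3 : ((m - b : ℕ) : ZMod p) ≠ 0 := n3
    rw [e1] at e3 ⊢
    field_simp
    ring

lemma fs_le (b : ℕ) : ∀ k, k ≤ b → b < p →
    fs p b k = - ((-1) ^ k * (b.choose k : ZMod p) * (Har p b - Har p (b - k))) := by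
  induction b with
  | zero =>
    intro k hk _
    obtain rfl : k = 0 := by omega
    simp [fs]
  | succ b ih =>
    intro k hk hb
    rcases Nat.eq_zero_or_pos k with rfl | hk0
    · simp [fs]
    obtain ⟨m, rfl⟩ : ∃ m, k = m + 1 := ⟨k - 1, by omega⟩
    rw [fs_succ, Nat.add_sub_add_right]
    rcases Nat.lt_or_ge m b with hmb | hmb
    · rw [ih (m + 1) (by omega) (by omega), ih m (by omega) (by omega), Nat.choose_succ_succ, Har_succ]
      have e1 : Har p (b - m) = Har p (b - (m + 1)) + ((b - m : ℕ) : ZMod p)⁻¹ := by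
        have : b - m = (b - (m + 1)) + 1 := by omega
        rw [this, Har_succ]
      have h1 : b.choose (m + 1) * (m + 1) = b.choose m * (b - m) := Nat.choose_succ_right_eq b m
      have h1' : (b.choose (m + 1) : ZMod p) * ((m + 1 : ℕ) : ZMod p) = (b.choose m : ZMod p) * ((b - m : ℕ) : ZMod p) := by
        exact_mod_cast congrArg (Nat.cast : ℕ → ZMod p) h1
      have n1 : ((m + 1 : ℕ) : ZMod p) ≠ 0 := natCast_ne_zero_of_lt (by omega) (by omega)
      have n2 : ((b + 1 : ℕ) : ZMod p) ≠ 0 := natCast_ne_zero_of_lt (by omega) (by omega)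
      have n3 : ((b - m : ℕ) : ZMod p) ≠ 0 := natCast_ne_zero_of_lt (by omega) (by omega)
      have e2 : (b.choose (m + 1) : ZMod p) = (b.choose m : ZMod p) * ((b - m : ℕ) : ZMod p) / ((m + 1 : ℕ) : ZMod p) := by
        rw [← h1']; field_simp
      have e3 : ((b - m : ℕ) : ZMod p) = ((b + 1 : ℕ) : ZMod p) - ((m + 1 : ℕ) : ZMod p) := by
        rw [Nat.cast_sub (by omega)]; push_cast; ring
      rw [e1]
      push_cast [e2]
      rw [e3] at n3 ⊢
      push_cast at n1 n2 n3 ⊢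
      field_simp
      ring
    · obtain rfl : m = b := by omega
      rw [fs_gt m (m + 1) (by omega) (by omega), ih m le_rfl (by omega)]
      simp [Har_succ, pow_succ]
      ring

/-- `∑_{k<j≤b} (-1)^j C(b,j)/(j-k)` -/
noncomputable def gs (p b k : ℕ) : ZMod p :=
  ∑ i ∈ range (b - k), (-1) ^ (k + 1 + i) * (b.choose (k + 1 + i) : ZMod p) * (((i + 1 : ℕ) : ZMod p))⁻¹

lemma gs_eq_fs (b k : ℕ) (hk : k ≤ b) : gs p b k = (-1) ^ b * fs p b (b - k) := by
  unfold gs fs
  rw [Finset.mul_sum, ← Finset.sum_range_reflect]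
  apply Finset.sum_congr rfl
  intro j hj
  rw [Finset.mem_range] at hj
  have e1 : k + 1 + (b - k - 1 - j) = b - j := by omega
  have e2 : b - k - 1 - j + 1 = b - k - j := by omega
  have e3 : (-1 : ZMod p) ^ (b - j) = (-1) ^ b * (-1) ^ j := by
    have : (b - j) + 2 * j = b + j := by omega
    calc (-1 : ZMod p) ^ (b - j) = (-1) ^ (b - j) * ((-1) ^ 2) ^ j := by simp
      _ = (-1) ^ ((b - j) + 2 * j) := by rw [← pow_mul, ← pow_add]
      _ = _ := by rw [this, pow_add]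
  rw [e1, e2, Nat.choose_symm (by omega), e3]
  ring

lemma gs_le (b k : ℕ) (hk : k ≤ b) (hb : b < p) :
    gs p b k = - ((-1) ^ k * (b.choose k : ZMod p) * (Har p b - Har p k)) := by
  rw [gs_eq_fs b k hk, fs_le b (b - k) (by omega) hb, Nat.choose_symm hk]
  have e1 : b - (b - k) = k := by omega
  have e3 : (-1 : ZMod p) ^ b * (-1) ^ (b - k) = (-1) ^ k := by
    rw [← pow_add]
    have : b + (b - k) = k + 2 * (b - k) := by omega
    rw [this, pow_add, pow_mul]; simp
  rw [e1]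
  linear_combination (-(b.choose k : ZMod p) * (Har p b - Har p k)) * e3

end Pool.Agent.Pell
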