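import Pool.Agent.Pell.Harm

namespace Pool.Agent.Pell

open Finset

variable {p : ℕ} [hp : Fact p.Prime]

/-- `C(p,i)/p` -/
def cc (p i : ℕ) : ℕ := p.choose i / p

lemma p_mul_cc {i : ℕ} (h0 : i ≠ 0) (hi : i < p) : p * cc p i = p.choose i :=
  Nat.mul_div_cancel' (hp.out.dvd_choose_self h0 hi)

lemma choose_pred_prime (i : ℕ) (hi : i < p) : (((p - 1).choose i : ℕ) : ZMod p) = (-1) ^ i := by
  induction i with
  | zero => simp
  | succ i ih =>
    have h1 : (p - 1).choose i + (p - 1).choose (i + 1) = p.choose (i + 1) := by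
      have : p = (p - 1) + 1 := by have := hp.out.pos; omega
      conv_rhs => rw [this]
      rw [Nat.choose_succ_succ]
    have h2 : ((p.choose (i + 1) : ℕ) : ZMod p) = 0 := by
      rw [ZMod.natCast_eq_zero_iff]; exact hp.out.dvd_choose_self (by omega) hi
    rw [← h1, Nat.cast_add, ih (by omega)] at h2
    rw [pow_succ]
    linear_combination h2

lemma cc_cast {i : ℕ} (h0 : i ≠ 0) (hi : i < p) :
    ((cc p i : ℕ) : ZMod p) = (-1) ^ (i - 1) * ((i : ℕ) : ZMod p)⁻¹ := by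
  have h1 : cc p i * i = (p - 1).choose (i - 1) := by
    have h2 : p * ((p - 1).choose (i - 1)) = p.choose i * i := by
      obtain ⟨j, rfl⟩ : ∃ j, i = j + 1 := ⟨i - 1, by omega⟩
      have hpp : p = (p - 1) + 1 := by have := hp.out.pos; omega
      have := Nat.add_one_mul_choose_eq (p - 1) j
      rw [← hpp] at this
      simpa using this
    rw [← p_mul_cc h0 hi, mul_assoc] at h2
    exact (Nat.eq_of_mul_eq_mul_left hp.out.pos h2).symm
  have hn : ((i : ℕ) : ZMod p) ≠ 0 := natCast_ne_zero_of_lt h0 hi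
  rw [eq_mul_inv_iff_mul_eq₀ hn, ← Nat.cast_mul, h1, choose_pred_prime _ (by omega)]

lemma Har_pred (h2 : p ≠ 2) : Har p (p - 1) = 0 := by
  -- sum of inverses of all nonzero elements
  have h1 : Har p (p - 1) = - Har p (p - 1) := by
    unfold Har
    conv_lhs => rw [← Finset.sum_range_reflect]
    rw [← Finset.sum_neg_distrib]
    apply Finset.sum_congr rfl
    intro j hj
    rw [Finset.mem_range] at hj
    have : p - 1 - 1 - j + 1 = p - (j + 1) := by omega
    rw [this, Nat.cast_sub (by omega), ZMod.natCast_self, zero_sub, inv_neg]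
  have h3 : (2 : ZMod p) * Har p (p - 1) = 0 := by linear_combination h1
  rcases mul_eq_zero.mp h3 with h | h
  · exfalso
    have : ((2 : ℕ) : ZMod p) ≠ 0 := natCast_ne_zero_of_lt (by norm_num)
      (lt_of_le_of_ne hp.out.two_le (Ne.symm h2))
    exact this (by exact_mod_cast h)
  · exact h

lemma Har_reflect (h2 : p ≠ 2) (m : ℕ) (hm : m ≤ p - 1) : Har p (p - 1 - m) = Har p m := by
  induction m with
  | zero => simpa using Har_pred h2
  | succ m ih =>
    have ih' := ih (by omega)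
    have e1 : p - 1 - m = (p - 1 - (m + 1)) + 1 := by omega
    rw [e1, Har_succ] at ih'
    rw [Har_succ, ← ih']
    have : p - 1 - (m + 1) + 1 = p - (m + 1) := by omega
    rw [this, Nat.cast_sub (by omega), ZMod.natCast_self, zero_sub, inv_neg]
    ring

/-- `∑_{i=1}^{m} 1/(2i-1) = H_{2m} - H_m/2` -/
lemma sum_odd (m : ℕ) (h2 : (2 : ZMod p) ≠ 0) :
    ∑ i ∈ range m, ((2 * i + 1 : ℕ) : ZMod p)⁻¹ = Har p (2 * m) - Har p m / 2 := by
  induction m with
  | zero => simp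
  | succ m ih =>
    rw [Finset.sum_range_succ, ih]
    have : 2 * (m + 1) = 2 * m + 1 + 1 := by ring
    rw [this, Har_succ, Har_succ, Har_succ]
    have e : ((2 * m + 1 + 1 : ℕ) : ZMod p) = 2 * ((m + 1 : ℕ) : ZMod p) := by push_cast; ring
    rw [e, mul_inv]
    field_simp
    ring

lemma alt_sum (n : ℕ) (h2 : (2 : ZMod p) ≠ 0) :
    ∑ i ∈ range (2 * n), (-1) ^ i * ((i + 1 : ℕ) : ZMod p)⁻¹ = Har p (2 * n) - Har p n := by
  induction n with
  | zero => simp
  | succ n ih =>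
    have : 2 * (n + 1) = 2 * n + 1 + 1 := by ring
    rw [this, Finset.sum_range_succ, Finset.sum_range_succ, ih, Har_succ, Har_succ, Har_succ]
    have e : ((2 * n + 1 + 1 : ℕ) : ZMod p) = 2 * ((n + 1 : ℕ) : ZMod p) := by push_cast; ring
    have e2 : (-1 : ZMod p) ^ (2 * n) = 1 := by rw [pow_mul]; simp
    rw [e, mul_inv, pow_succ, e2]
    field_simp
    ring

/-- `2^{p-1} = 1 - p H_n/2` modulo `p²`, `n = (p-1)/2` -/
lemma two_pow_pred (n : ℕ) (hn : p = 2 * n + 1) :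
    (2 : ZMod (p ^ 2)) ^ (p - 1) = 1 + eps p (- (Har p n / 2)) := by
  have h2p : p ≠ 2 := by omega
  have h2 : (2 : ZMod p) ≠ 0 := by
    have : ((2 : ℕ) : ZMod p) ≠ 0 := natCast_ne_zero_of_lt (by norm_num)
      (lt_of_le_of_ne hp.out.two_le (Ne.symm h2p))
    exact_mod_cast this
  have h1 : (2 : ZMod (p ^ 2)) ^ p = 2 + eps p (- Har p n) := by
    have hsum : (2 : ℕ) ^ p = ∑ i ∈ range (p + 1), p.choose i := (Nat.sum_range_choose p).symm
    have hs2 : ∑ i ∈ range (p + 1), p.choose i = 2 + p * ∑ i ∈ range (p - 1), cc p (i + 1) := by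
      have hpp : p = (p - 1) + 1 := by omega
      rw [Finset.sum_range_succ]
      have : ∑ i ∈ range p, p.choose i = ∑ i ∈ range (p - 1), p.choose (i + 1) + 1 := by
        conv_lhs => rw [hpp]
        rw [Finset.sum_range_succ']
        simp [← hpp]
      rw [this, Nat.choose_self, Finset.mul_sum]
      have : ∑ i ∈ range (p - 1), p.choose (i + 1) = ∑ i ∈ range (p - 1), p * cc p (i + 1) := by
        apply Finset.sum_congr rfl
        intro i hi
        rw [Finset.mem_range] at hi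
        rw [p_mul_cc (by omega) (by omega)]
      rw [this]; ring
    have h3 : ((2 : ℕ) ^ p : ℕ) = 2 + p * ∑ i ∈ range (p - 1), cc p (i + 1) := by rw [hsum, hs2]
    have h4 := congrArg (Nat.cast : ℕ → ZMod (p ^ 2)) h3
    rw [Nat.cast_pow, Nat.cast_add, Nat.cast_mul, ← eps_natCast] at h4
    have h5 : ((∑ i ∈ range (p - 1), cc p (i + 1) : ℕ) : ZMod p) = - Har p n := by
      push_cast
      have : ∀ i ∈ range (p - 1), ((cc p (i + 1) : ℕ) : ZMod p) = (-1) ^ i * ((i + 1 : ℕ) : ZMod p)⁻¹ := by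
        intro i hi
        rw [Finset.mem_range] at hi
        rw [cc_cast (by omega) (by omega)]; simp
      rw [Finset.sum_congr rfl this]
      have hp1 : p - 1 = 2 * n := by omega
      rw [hp1, alt_sum n h2, ← hp1, Har_pred h2p]; ring
    rw [h5] at h4
    exact_mod_cast h4
  have hpp : p = (p - 1) + 1 := by omega
  have hr2 : red p (2 : ZMod (p ^ 2)) ≠ 0 := by
    have : red p (2 : ZMod (p ^ 2)) = (2 : ZMod p) := by exact_mod_cast red_natCast (p := p) 2
    rw [this]; exact h2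
  apply mul_left_cancel_of_red (a := (2 : ZMod (p ^ 2))) hr2
  have h6 : (2 : ZMod (p ^ 2)) * (2 : ZMod (p ^ 2)) ^ (p - 1) = 2 ^ p := by
    rw [← pow_succ', ← hpp]
  rw [h6, h1, mul_add, mul_one, mul_eps]
  have : red p (2 : ZMod (p ^ 2)) = (2 : ZMod p) := by exact_mod_cast red_natCast (p := p) 2
  rw [this]
  congr 2
  field_simp

/-- `(p-1-m)! (-1)^m m! = (p-1)! (1 + p H_m)` -/
lemma fact_reflect (m : ℕ) (hm : m ≤ p - 1) :
    (((p - 1 - m).factorial : ℕ) : ZMod (p ^ 2)) * ((-1) ^ m * ((m.factorial : ℕ) : ZMod (p ^ 2))) =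
      (((p - 1).factorial : ℕ) : ZMod (p ^ 2)) * (1 + eps p (Har p m)) := by
  induction m with
  | zero => simp
  | succ m ih =>
    have ih' := ih (by omega)
    have e1 : p - 1 - m = (p - 1 - (m + 1)) + 1 := by omega
    rw [e1, Nat.factorial_succ] at ih'
    rw [Nat.factorial_succ m, Har_succ, eps_add]
    have e2 : ((p - 1 - (m + 1) + 1 : ℕ) : ZMod (p ^ 2)) = (p : ZMod (p ^ 2)) - ((m + 1 : ℕ) : ZMod (p ^ 2)) := by
      have : p - 1 - (m + 1) + 1 = p - (m + 1) := by omega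
      rw [this, Nat.cast_sub (by omega)]
    rw [Nat.cast_mul, e2] at ih'
    have hn : ((m + 1 : ℕ) : ZMod p) ≠ 0 := natCast_ne_zero_of_lt (by omega) (by omega)
    -- multiply both sides by (p - (m+1)), a unit
    have hu : red p ((p : ZMod (p ^ 2)) - ((m + 1 : ℕ) : ZMod (p ^ 2))) ≠ 0 := by
      rw [map_sub, red_natCast, red_natCast, ZMod.natCast_self, zero_sub]
      exact neg_ne_zero.mpr hn
    apply mul_left_cancel_of_red hu
    have key : ((p : ZMod (p ^ 2)) - ((m + 1 : ℕ) : ZMod (p ^ 2))) * (1 + (eps p (Har p m) + eps p ((m + 1 : ℕ) : ZMod p)⁻¹))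
        = - ((m + 1 : ℕ) : ZMod (p ^ 2)) * (1 + eps p (Har p m)) := by
      have k1 : (p : ZMod (p ^ 2)) * eps p (Har p m) = 0 := by rw [← eps_one, eps_mul_eps]
      have k2 : (p : ZMod (p ^ 2)) * eps p ((m + 1 : ℕ) : ZMod p)⁻¹ = 0 := by rw [← eps_one, eps_mul_eps]
      have k3 : ((m + 1 : ℕ) : ZMod (p ^ 2)) * eps p ((m + 1 : ℕ) : ZMod p)⁻¹ = (p : ZMod (p ^ 2)) := by
        rw [mul_eps, red_natCast, mul_inv_cancel₀ hn, eps_one]
      linear_combination k1 + k2 - k3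
    calc _ = (((p : ZMod (p ^ 2)) - ((m + 1 : ℕ) : ZMod (p ^ 2))) * (((p - 1 - (m + 1)).factorial : ℕ) : ZMod (p ^ 2)) *
          ((-1) ^ m * ((m.factorial : ℕ) : ZMod (p ^ 2)))) * (- ((m + 1 : ℕ) : ZMod (p ^ 2))) := by
            push_cast; ring
      _ = (((p - 1).factorial : ℕ) : ZMod (p ^ 2)) * (- ((m + 1 : ℕ) : ZMod (p ^ 2)) * (1 + eps p (Har p m))) := by
            rw [ih']; ring
      _ = _ := by rw [← key]; ring

/-- `(n+f)! 4^f f! = n! (2f)! (1 + p (2 H_{2f} - H_f)/2)`, `p = 2n+1` -/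
lemma fact_dup (n f : ℕ) (hn : p = 2 * n + 1) (hf : 2 * f < p) :
    (((n + f).factorial : ℕ) : ZMod (p ^ 2)) * (4 ^ f * ((f.factorial : ℕ) : ZMod (p ^ 2))) =
      ((n.factorial : ℕ) : ZMod (p ^ 2)) * (((2 * f).factorial : ℕ) : ZMod (p ^ 2)) *
        (1 + eps p (∑ i ∈ range f, ((2 * i + 1 : ℕ) : ZMod p)⁻¹)) := by
  induction f with
  | zero => simp
  | succ f ih =>
    have ih' := ih (by omega)
    have hn1 : ((2 * f + 1 : ℕ) : ZMod p) ≠ 0 := natCast_ne_zero_of_lt (by omega) (by omega)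
    rw [Finset.sum_range_succ, eps_add]
    have e1 : n + (f + 1) = (n + f) + 1 := by ring
    have e2 : 2 * (f + 1) = 2 * f + 1 + 1 := by ring
    rw [e1, e2, Nat.factorial_succ, Nat.factorial_succ, Nat.factorial_succ, Nat.factorial_succ]
    have e3 : (2 : ZMod (p ^ 2)) * ((n + f + 1 : ℕ) : ZMod (p ^ 2)) = (p : ZMod (p ^ 2)) + ((2 * f + 1 : ℕ) : ZMod (p ^ 2)) := by
      conv_rhs => rw [show (p : ZMod (p ^ 2)) = ((2 * n + 1 : ℕ) : ZMod (p ^ 2)) by rw [← hn]]
      push_cast; ring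
    have k3 : ((2 * f + 1 : ℕ) : ZMod (p ^ 2)) * eps p ((2 * f + 1 : ℕ) : ZMod p)⁻¹ = (p : ZMod (p ^ 2)) := by
      rw [mul_eps, red_natCast, mul_inv_cancel₀ hn1, eps_one]
    have k1 : (p : ZMod (p ^ 2)) * eps p (∑ i ∈ range f, ((2 * i + 1 : ℕ) : ZMod p)⁻¹) = 0 := by rw [← eps_one, eps_mul_eps]
    set S := eps p (∑ i ∈ range f, ((2 * i + 1 : ℕ) : ZMod p)⁻¹) with hS
    set e := eps p ((2 * f + 1 : ℕ) : ZMod p)⁻¹ with he
    set A := (((n + f).factorial : ℕ) : ZMod (p ^ 2))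
    set B := ((f.factorial : ℕ) : ZMod (p ^ 2))
    set C := ((n.factorial : ℕ) : ZMod (p ^ 2))
    set D := (((2 * f).factorial : ℕ) : ZMod (p ^ 2))
    push_cast
    push_cast at e3 k3
    have e4 : (4 : ZMod (p ^ 2)) ^ (f + 1) = 2 * 2 * 4 ^ f := by rw [pow_succ]; ring
    rw [e4]
    linear_combination (2 * ((n : ZMod (p ^ 2)) + f + 1) * 2 * (f + 1)) * ih'
      + (C * D * (1 + S) * 2 * (f + 1)) * e3 + (C * D * 2 * (f + 1)) * k1
      - (C * D * 2 * (f + 1)) * k3

lemma Har_dup (n f : ℕ) (hn : p = 2 * n + 1) (hf : 2 * f < p) :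
    Har p (n + f) = Har p n + 2 * ∑ i ∈ range f, ((2 * i + 1 : ℕ) : ZMod p)⁻¹ := by
  have h2 : (2 : ZMod p) ≠ 0 := by
    have h2p : p ≠ 2 := by omega
    have : ((2 : ℕ) : ZMod p) ≠ 0 := natCast_ne_zero_of_lt (by norm_num)
      (lt_of_le_of_ne hp.out.two_le (Ne.symm h2p))
    exact_mod_cast this
  induction f with
  | zero => simp
  | succ f ih =>
    have ih' := ih (by omega)
    have hn1 : ((2 * f + 1 : ℕ) : ZMod p) ≠ 0 := natCast_ne_zero_of_lt (by omega) (by omega)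
    rw [show n + (f + 1) = (n + f) + 1 by ring, Har_succ, ih', Finset.sum_range_succ]
    have e3 : (2 : ZMod p) * ((n + f + 1 : ℕ) : ZMod p) = ((2 * f + 1 : ℕ) : ZMod p) := by
      have : ((2 * n + 1 : ℕ) : ZMod p) = 0 := by rw [← hn]; exact ZMod.natCast_self p
      push_cast at this ⊢
      linear_combination this
    have e4 : ((n + f + 1 : ℕ) : ZMod p) = ((2 * f + 1 : ℕ) : ZMod p) / 2 := by
      rw [← e3]; field_simp
    rw [e4]
    field_simp
    ring

end Pool.Agent.Pell
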