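import Pool.Agent.Pell.Teich
import Pool.Agent.Pell.CMod

namespace Pool.Agent.Pell

open Finset Polynomial

variable {p : ℕ} [hp : Fact p.Prime] {k : Type} [Field k] [Fintype k] [DecidableEq k] [CharP k p]

lemma sub_pow_of_sq_zero {R : Type*} [CommRing R] (q A B : R) (hq : q * q = 0) (b : ℕ) :
    (A - q * B) ^ b = A ^ b - q * (b * A ^ (b - 1) * B) := by
  induction b with
  | zero => simp
  | succ b ih =>
    rw [pow_succ, ih]
    rcases b with _ | b
    · simp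
    · rw [Nat.add_sub_cancel, Nat.add_sub_cancel]
      push_cast
      linear_combination (((b : R) + 1) * A ^ b * B * B) * hq

/-- The Jacobi-type sum modulo `p²` over a field with `p` elements -/
lemma jsum_A (h2 : p ≠ 2) (hcard : Fintype.card k = p) (g : kˣ) (hg : ∀ x : kˣ, x ∈ Subgroup.zpowers g)
    (b e : ℕ) (he : 0 < e) (heb : e < b) (hb : b < p - 1) :
    ∑ x : k, tau p x ^ (p - 1 - e) * tau p (1 - x) ^ b =
      (((p - 1 : ℕ) : ℤ) * ((((1 - X : ℤ[X]) ^ b).coeff e) -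
        p * b * ((LL p * (1 - X) ^ (b - 1)).coeff e + (LL p * (1 - X) ^ (b - 1)).coeff (e + (p - 1)))) : ℤ) := by
  have hF : ∀ x : k, x ^ p = x := by
    intro x; rw [← hcard]; exact FiniteField.pow_card x
  have h1 : ∀ x : k, tau p x ^ (p - 1 - e) * tau p (1 - x) ^ b =
      tau p x ^ (p - 1 - e) * aeval (tau p x) ((1 - X : ℤ[X]) ^ b) -
        (p : W2 p k) * b * (tau p x ^ (p - 1 - e) * aeval (tau p x) (LL p * (1 - X) ^ (b - 1))) := by
    intro x
    rw [tau_one_sub h2 x x (hF x), sub_pow_of_sq_zero _ _ _ W2_p_sq]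
    simp only [map_mul, map_pow, map_sub, map_one, aeval_X]
    ring
  rw [Finset.sum_congr rfl (fun x _ => h1 x), Finset.sum_sub_distrib, ← Finset.mul_sum]
  have hN : Fintype.card k - 1 = p - 1 := by rw [hcard]
  have hp3 := hp.out.two_le
  have s1 := sum_tau_aeval (p := p) g hg e he (by omega) ((1 - X : ℤ[X]) ^ b)
    (lt_of_le_of_lt (natDegree_one_sub_X_pow b) (by omega))
  have s2 := sum_tau_aeval (p := p) g hg e he (by omega) (LL p * (1 - X : ℤ[X]) ^ (b - 1))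
    (lt_of_le_of_lt natDegree_mul_le (by
      have := natDegree_one_sub_X_pow (b - 1)
      have := natDegree_LL (p := p)
      omega))
  rw [hN] at s1 s2
  rw [s1, s2]
  have z : ((1 - X : ℤ[X]) ^ b).coeff (e + (p - 1)) = 0 :=
    coeff_eq_zero_of_natDegree_lt (lt_of_le_of_lt (natDegree_one_sub_X_pow b) (by omega))
  rw [z]
  push_cast
  ring

/-- the value for `b = 2e` -/
lemma jsum_A_val (h2 : p ≠ 2) (e : ℕ) (he : 0 < e) (hb : 2 * e < p - 1) :
    ((((p - 1 : ℕ) : ℤ) * ((((1 - X : ℤ[X]) ^ (2 * e)).coeff e) -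
        p * (2 * e : ℕ) * ((LL p * (1 - X) ^ (2 * e - 1)).coeff e + (LL p * (1 - X) ^ (2 * e - 1)).coeff (e + (p - 1)))) : ℤ) : ZMod (p ^ 2)) =
      - ((-1) ^ e * (((2 * e).choose e : ℕ) : ZMod (p ^ 2))) * uu p (2 * e * (Har p (2 * e) - Har p e)) := by
  obtain ⟨m, rfl⟩ : ∃ m, e = m + 1 := ⟨e - 1, by omega⟩
  have hpp := hp.out.two_le
  set T := (LL p * (1 - X : ℤ[X]) ^ (2 * (m + 1) - 1)).coeff (m + 1) + (LL p * (1 - X : ℤ[X]) ^ (2 * (m + 1) - 1)).coeff (m + 1 + (p - 1)) with hT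
  have hTc : ((T : ℤ) : ZMod p) = - ((-1) ^ (m + 1) * (((2 * (m + 1)).choose (m + 1) : ℕ) : ZMod p) *
      (Har p (2 * m + 1) - Har p m)) := by
    rw [hT]
    push_cast
    rw [coeff_LL_mul_low _ _ (by omega)]
    rw [show m + 1 + (p - 1) = m + p by omega, coeff_LL_mul_high _ _ (by omega) (by omega),
      show 2 * (m + 1) - 1 = 2 * m + 1 by omega, fs_le _ _ (by omega) (by omega), gs_le _ _ (by omega) (by omega)]
    rw [show 2 * m + 1 - (m + 1) = m by omega, show 2 * (m + 1) = 2 * m + 1 + 1 by ring,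
      Nat.choose_succ_succ (2 * m + 1) m, pow_succ]
    push_cast
    ring
  have hcast : ∀ z : ℤ, (p : ZMod (p ^ 2)) * ((z : ℤ) : ZMod (p ^ 2)) = eps p ((z : ℤ) : ZMod p) := by
    intro z; rw [eps_intCast]
  push_cast
  rw [coeff_one_sub_X_pow]
  push_cast
  have e1 : (((p - 1 : ℕ)) : ZMod (p ^ 2)) = - uu p (-1) := by
    rw [Nat.cast_sub (by omega), uu, eps_neg, eps_one]; push_cast; ring
  have e2 : (p : ZMod (p ^ 2)) * (2 * ((m : ZMod (p ^ 2)) + 1)) * ((T : ℤ) : ZMod (p ^ 2)) =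
      eps p (((2 * (m + 1) : ℕ) : ZMod p) * ((T : ℤ) : ZMod p)) := by
    have := hcast (((2 * (m + 1) : ℕ) : ℤ) * T)
    push_cast at this ⊢
    rw [← this]; ring
  rw [e2, hTc, e1]
  have h2z : (2 : ZMod p) ≠ 0 := by
    have : ((2 : ℕ) : ZMod p) ≠ 0 := natCast_ne_zero_of_lt (by norm_num)
      (lt_of_le_of_ne hp.out.two_le (Ne.symm h2))
    exact_mod_cast this
  have hm1 : ((m + 1 : ℕ) : ZMod p) ≠ 0 := natCast_ne_zero_of_lt (by omega) (by omega)
  -- main term as multiple of a unit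
  have e3 : eps p (((2 * (m + 1) : ℕ) : ZMod p) * - ((-1) ^ (m + 1) * (((2 * (m + 1)).choose (m + 1) : ℕ) : ZMod p) *
      (Har p (2 * m + 1) - Har p m))) = - (((-1) ^ (m + 1) * (((2 * (m + 1)).choose (m + 1) : ℕ) : ZMod (p ^ 2))) *
        eps p (((2 * (m + 1) : ℕ) : ZMod p) * (Har p (2 * m + 1) - Har p m))) := by
    rw [mul_eps, ← eps_neg]
    congr 1
    rw [map_mul, map_pow, map_neg, map_one, red_natCast]
    ring
  rw [e3]
  have e4 : (2 : ZMod p) * ((m + 1 : ℕ) : ZMod p) * (Har p (2 * (m + 1)) - Har p (m + 1)) =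
      ((2 * (m + 1) : ℕ) : ZMod p) * (Har p (2 * m + 1) - Har p m) + (-1) := by
    rw [show 2 * (m + 1) = 2 * m + 1 + 1 by ring, Har_succ (2 * m + 1), Har_succ m]
    have e5 : ((2 * m + 1 + 1 : ℕ) : ZMod p) = 2 * ((m + 1 : ℕ) : ZMod p) := by push_cast; ring
    rw [e5]
    field_simp
    ring
  have e6 : uu p (2 * ((m + 1 : ℕ) : ZMod p) * (Har p (2 * (m + 1)) - Har p (m + 1))) =
      uu p (((2 * (m + 1) : ℕ) : ZMod p) * (Har p (2 * m + 1) - Har p m)) * uu p (-1) := by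
    rw [uu_mul, e4]
  push_cast at e6
  rw [e6]
  have e7 : uu p (((2 * (m + 1) : ℕ) : ZMod p) * (Har p (2 * m + 1) - Har p m)) =
    1 + eps p (((2 * (m + 1) : ℕ) : ZMod p) * (Har p (2 * m + 1) - Har p m)) := rfl
  push_cast at e7 ⊢
  rw [e7]
  ring

end Pool.Agent.Pell
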