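import Pool.Agent.Pell.JForm

namespace Pool.Agent.Pell

open Finset Polynomial

variable {p : ℕ} [hp : Fact p.Prime] {k : Type} [Field k] [Fintype k] [DecidableEq k] [CharP k p]

/-- The Jacobi-type sum modulo `p²` over a field with `p²` elements -/
lemma jsum_B (h2 : p ≠ 2) (hcard : Fintype.card k = p ^ 2) (g : kˣ) (hg : ∀ x : kˣ, x ∈ Subgroup.zpowers g)
    (b1 b0 e1 e0 : ℕ) (he1 : 0 < e1) (he0 : 0 < e0) (h1 : e1 < b1) (h0 : e0 < b0) (hb1 : b1 < p) (hb0 : b0 < p) :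
    ∑ x : k, tau p x ^ (p ^ 2 - 1 - (p * e1 + e0)) * tau p (1 - x) ^ (p * b1 + b0) =
      (((p ^ 2 - 1 : ℕ) : ℤ) * (((1 - X : ℤ[X]) ^ b1).coeff e1 * ((1 - X : ℤ[X]) ^ b0).coeff e0 -
        p * b1 * (((1 - X : ℤ[X]) ^ (b1 - 1)).coeff e1 * (LL p * (1 - X) ^ b0).coeff e0 +
          ((1 - X : ℤ[X]) ^ (b1 - 1)).coeff (e1 - 1) * (LL p * (1 - X) ^ b0).coeff (e0 + p)) -
        p * b0 * ((LL p * (1 - X) ^ b1).coeff e1 * ((1 - X : ℤ[X]) ^ (b0 - 1)).coeff e0 +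
          (LL p * (1 - X) ^ b1).coeff (e1 + p) * ((1 - X : ℤ[X]) ^ (b0 - 1)).coeff (e0 - 1))) : ℤ) := by
  have hpp := hp.out.two_le
  have hF : ∀ x : k, (x ^ p) ^ p = x := by
    intro x
    have := FiniteField.pow_card x
    rw [hcard] at this
    rw [← pow_mul, ← pow_two]; exact this
  have h1' : ∀ x : k, tau p x ^ (p ^ 2 - 1 - (p * e1 + e0)) * tau p (1 - x) ^ (p * b1 + b0) =
      tau p x ^ (p ^ 2 - 1 - (p * e1 + e0)) * aeval (tau p x) (expand ℤ p ((1 - X : ℤ[X]) ^ b1) * (1 - X) ^ b0) -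
        (p : W2 p k) * b1 * (tau p x ^ (p ^ 2 - 1 - (p * e1 + e0)) *
          aeval (tau p x) (expand ℤ p ((1 - X : ℤ[X]) ^ (b1 - 1)) * (LL p * (1 - X) ^ b0))) -
        (p : W2 p k) * b0 * (tau p x ^ (p ^ 2 - 1 - (p * e1 + e0)) *
          aeval (tau p x) (expand ℤ p (LL p * (1 - X : ℤ[X]) ^ b1) * (1 - X) ^ (b0 - 1))) := by
    intro x
    have ex : (tau p (1 - x)) ^ p = 1 - tau p x ^ p - (p : W2 p k) * aeval (tau p x) (LL p) := by
      rw [← tau_pow, sub_pow_char, one_pow, tau_one_sub h2 (x ^ p) x rfl, tau_pow]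
    have ey : tau p (1 - x) = 1 - tau p x - (p : W2 p k) * aeval (tau p x ^ p) (LL p) := by
      rw [tau_one_sub h2 x (x ^ p) (hF x), tau_pow]
    have e3 : tau p (1 - x) ^ (p * b1 + b0) = (tau p (1 - x) ^ p) ^ b1 * tau p (1 - x) ^ b0 := by
      rw [pow_add, pow_mul]
    rw [e3, ex, ey, sub_pow_of_sq_zero _ _ _ W2_p_sq, sub_pow_of_sq_zero _ _ _ W2_p_sq]
    simp only [map_mul, map_pow, map_sub, map_one, aeval_X, expand_aeval, expand_X]
    have hq := W2_p_sq (p := p) (k := k)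
    linear_combination (tau p x ^ (p ^ 2 - 1 - (p * e1 + e0)) * ((b1 : W2 p k) * (1 - tau p x ^ p) ^ (b1 - 1) * aeval (tau p x) (LL p)) *
      ((b0 : W2 p k) * (1 - tau p x) ^ (b0 - 1) * aeval (tau p x ^ p) (LL p))) * hq
  rw [Finset.sum_congr rfl (fun x _ => h1' x), Finset.sum_sub_distrib, Finset.sum_sub_distrib,
    ← Finset.mul_sum, ← Finset.mul_sum]
  have hN : Fintype.card k - 1 = p ^ 2 - 1 := by rw [hcard]
  have hsq : p ^ 2 = p * p := by ring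
  have b1p : p * b1 ≤ p * (p - 1) := Nat.mul_le_mul_left p (by omega)
  have e1p : p * (e1 + 1) ≤ p * b1 := Nat.mul_le_mul_left p (by omega)
  have ppm : p * (p - 1) = p * p - p := by rw [Nat.mul_sub, mul_one]
  have ppge : p * 2 ≤ p * p := Nat.mul_le_mul_left p hpp
  have e11 : p * 1 ≤ p * e1 := Nat.mul_le_mul_left p (by omega)
  rw [mul_add] at e1p
  have dA : ∀ m : ℕ, (expand ℤ p ((1 - X : ℤ[X]) ^ m)).natDegree ≤ p * m := by
    intro m
    rw [natDegree_expand, mul_comm]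
    exact Nat.mul_le_mul_left p (natDegree_one_sub_X_pow m)
  have dL : (expand ℤ p (LL p * (1 - X : ℤ[X]) ^ b1)).natDegree ≤ p * (p - 1) + p * b1 := by
    rw [natDegree_expand, mul_comm, ← mul_add]
    apply Nat.mul_le_mul_left
    refine le_trans natDegree_mul_le ?_
    have := natDegree_one_sub_X_pow b1
    have := natDegree_LL (p := p)
    omega
  have dB : (LL p * (1 - X : ℤ[X]) ^ b0).natDegree ≤ (p - 1) + b0 := by
    refine le_trans natDegree_mul_le ?_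
    have := natDegree_one_sub_X_pow b0
    have := natDegree_LL (p := p)
    omega
  have s0 := sum_tau_aeval (p := p) g hg (p * e1 + e0) (by omega) (by omega)
    (expand ℤ p ((1 - X : ℤ[X]) ^ b1) * (1 - X) ^ b0)
    (lt_of_le_of_lt natDegree_mul_le (by
      have := natDegree_one_sub_X_pow b0
      have := dA b1
      omega))
  have s1 := sum_tau_aeval (p := p) g hg (p * e1 + e0) (by omega) (by omega)
    (expand ℤ p ((1 - X : ℤ[X]) ^ (b1 - 1)) * (LL p * (1 - X) ^ b0))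
    (lt_of_le_of_lt natDegree_mul_le (by
      have := dA (b1 - 1)
      have h3 : p * (b1 - 1) ≤ p * b1 := Nat.mul_le_mul_left p (by omega)
      omega))
  have s2 := sum_tau_aeval (p := p) g hg (p * e1 + e0) (by omega) (by omega)
    (expand ℤ p (LL p * (1 - X : ℤ[X]) ^ b1) * (1 - X) ^ (b0 - 1))
    (lt_of_le_of_lt natDegree_mul_le (by
      have := natDegree_one_sub_X_pow (b0 - 1)
      omega))
  rw [hN] at s0 s1 s2
  rw [s0, s1, s2]
  have hsh : p * e1 + e0 + (p ^ 2 - 1) = p * (e1 + p) + (e0 - 1) := by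
    rw [mul_add]; omega
  rw [hsh]
  have zlow : ∀ b r : ℕ, b < r → ((1 - X : ℤ[X]) ^ b).coeff r = 0 := by
    intro b r hbr
    exact coeff_eq_zero_of_natDegree_lt (lt_of_le_of_lt (natDegree_one_sub_X_pow b) hbr)
  have dB0 : ((1 - X : ℤ[X]) ^ b0).natDegree < 2 * p := lt_of_le_of_lt (natDegree_one_sub_X_pow b0) (by omega)
  have dB0' : ((1 - X : ℤ[X]) ^ (b0 - 1)).natDegree < 2 * p := lt_of_le_of_lt (natDegree_one_sub_X_pow (b0 - 1)) (by omega)
  have dB1 : (LL p * (1 - X : ℤ[X]) ^ b0).natDegree < 2 * p := lt_of_le_of_lt dB (by omega)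
  rw [coeff_expand_mul _ _ dB0 e1 e0 (by omega), coeff_expand_mul _ _ dB0 (e1 + p) (e0 - 1) (by omega),
    coeff_expand_mul _ _ dB1 e1 e0 (by omega), coeff_expand_mul _ _ dB1 (e1 + p) (e0 - 1) (by omega),
    coeff_expand_mul _ _ dB0' e1 e0 (by omega), coeff_expand_mul _ _ dB0' (e1 + p) (e0 - 1) (by omega)]
  rw [if_neg (by omega : ¬ e1 = 0), if_neg (by omega : ¬ e1 + p = 0), if_neg (by omega : ¬ e1 = 0),
    if_neg (by omega : ¬ e1 + p = 0), if_neg (by omega : ¬ e1 = 0), if_neg (by omega : ¬ e1 + p = 0)]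
  rw [zlow b0 (e0 + p) (by omega), zlow b1 (e1 + p) (by omega), zlow b1 (e1 + p - 1) (by omega),
    zlow (b1 - 1) (e1 + p) (by omega), zlow (b1 - 1) (e1 + p - 1) (by omega),
    zlow (b0 - 1) (e0 + p) (by omega), zlow (b0 - 1) (e0 - 1 + p) (by omega)]
  push_cast
  ring

/-- the value for `b = 2e` -/
lemma jsum_B_val (e1 e0 : ℕ) (he1 : 0 < e1) (he0 : 0 < e0) (hb1 : 2 * e1 < p) (hb0 : 2 * e0 < p) :
    ((((p ^ 2 - 1 : ℕ) : ℤ) * (((1 - X : ℤ[X]) ^ (2 * e1)).coeff e1 * ((1 - X : ℤ[X]) ^ (2 * e0)).coeff e0 -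
        p * (2 * e1 : ℕ) * (((1 - X : ℤ[X]) ^ (2 * e1 - 1)).coeff e1 * (LL p * (1 - X) ^ (2 * e0)).coeff e0 +
          ((1 - X : ℤ[X]) ^ (2 * e1 - 1)).coeff (e1 - 1) * (LL p * (1 - X) ^ (2 * e0)).coeff (e0 + p)) -
        p * (2 * e0 : ℕ) * ((LL p * (1 - X) ^ (2 * e1)).coeff e1 * ((1 - X : ℤ[X]) ^ (2 * e0 - 1)).coeff e0 +
          (LL p * (1 - X) ^ (2 * e1)).coeff (e1 + p) * ((1 - X : ℤ[X]) ^ (2 * e0 - 1)).coeff (e0 - 1))) : ℤ) : ZMod (p ^ 2)) =
      - ((-1) ^ (e1 + e0) * (((2 * e1).choose e1 : ℕ) : ZMod (p ^ 2)) * (((2 * e0).choose e0 : ℕ) : ZMod (p ^ 2))) *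
        uu p (2 * e1 * (Har p (2 * e0) - Har p e0) + 2 * e0 * (Har p (2 * e1) - Har p e1)) := by
  have hpp := hp.out.two_le
  set D := (-1 : ZMod (p ^ 2)) ^ (e1 + e0) * (((2 * e1).choose e1 : ℕ) : ZMod (p ^ 2)) * (((2 * e0).choose e0 : ℕ) : ZMod (p ^ 2)) with hD
  have hcast : ∀ z : ℤ, (p : ZMod (p ^ 2)) * ((z : ℤ) : ZMod (p ^ 2)) = eps p ((z : ℤ) : ZMod p) := by
    intro z; rw [eps_intCast]
  set T1 : ℤ := ((1 - X : ℤ[X]) ^ (2 * e1 - 1)).coeff e1 * (LL p * (1 - X) ^ (2 * e0)).coeff e0 +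
          ((1 - X : ℤ[X]) ^ (2 * e1 - 1)).coeff (e1 - 1) * (LL p * (1 - X) ^ (2 * e0)).coeff (e0 + p) with hT1
  set T2 : ℤ := (LL p * (1 - X) ^ (2 * e1)).coeff e1 * ((1 - X : ℤ[X]) ^ (2 * e0 - 1)).coeff e0 +
          (LL p * (1 - X) ^ (2 * e1)).coeff (e1 + p) * ((1 - X : ℤ[X]) ^ (2 * e0 - 1)).coeff (e0 - 1) with hT2
  have pas : ∀ e : ℕ, 0 < e → ((2 * e).choose e : ℕ) = (2 * e - 1).choose e + (2 * e - 1).choose (e - 1) := by
    intro e he
    obtain ⟨m, rfl⟩ : ∃ m, e = m + 1 := ⟨e - 1, by omega⟩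
    have : 2 * (m + 1) = (2 * (m + 1) - 1) + 1 := by omega
    conv_lhs => rw [this]
    rw [Nat.choose_succ_succ, add_comm]
    rfl
  have sgn : ∀ e : ℕ, 0 < e → (-1 : ZMod p) ^ (e - 1) = - (-1) ^ e := by
    intro e he
    obtain ⟨m, rfl⟩ : ∃ m, e = m + 1 := ⟨e - 1, by omega⟩
    rw [Nat.add_sub_cancel, pow_succ]; ring
  have c1 : ((T1 : ℤ) : ZMod p) = - (red p D * (Har p (2 * e0) - Har p e0)) := by
    rw [hT1]
    push_cast
    rw [coeff_LL_mul_low _ _ (by omega), coeff_LL_mul_high _ _ (by omega) (by omega), coeff_one_sub_X_pow, coeff_one_sub_X_pow,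
      fs_le _ _ (by omega) (by omega), gs_le _ _ (by omega) (by omega), show 2 * e0 - e0 = e0 by omega, hD]
    simp only [map_mul, map_pow, map_neg, map_one, red_natCast]
    rw [pas e1 he1]
    push_cast
    rw [sgn e1 he1, pow_add]
    ring
  have c2 : ((T2 : ℤ) : ZMod p) = - (red p D * (Har p (2 * e1) - Har p e1)) := by
    rw [hT2]
    push_cast
    rw [coeff_LL_mul_low _ _ (by omega), coeff_LL_mul_high _ _ (by omega) (by omega), coeff_one_sub_X_pow, coeff_one_sub_X_pow,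
      fs_le _ _ (by omega) (by omega), gs_le _ _ (by omega) (by omega), show 2 * e1 - e1 = e1 by omega, hD]
    simp only [map_mul, map_pow, map_neg, map_one, red_natCast]
    rw [pas e0 he0]
    push_cast
    rw [sgn e0 he0, pow_add]
    ring
  have hq : (((p ^ 2 - 1 : ℕ)) : ZMod (p ^ 2)) = -1 := by
    have h1 : 1 ≤ p ^ 2 := Nat.one_le_pow _ _ hp.out.pos
    rw [Nat.cast_sub h1, ZMod.natCast_self]; simp
  have e1' : (p : ZMod (p ^ 2)) * ((2 * e1 : ℕ) : ZMod (p ^ 2)) * ((T1 : ℤ) : ZMod (p ^ 2)) =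
      - (D * eps p (2 * e1 * (Har p (2 * e0) - Har p e0))) := by
    have := hcast (((2 * e1 : ℕ) : ℤ) * T1)
    rw [Int.cast_mul, Int.cast_natCast, Int.cast_mul, Int.cast_natCast, c1] at this
    rw [mul_assoc, this, mul_eps, ← eps_neg]
    congr 1
    push_cast
    ring
  have e2' : (p : ZMod (p ^ 2)) * ((2 * e0 : ℕ) : ZMod (p ^ 2)) * ((T2 : ℤ) : ZMod (p ^ 2)) =
      - (D * eps p (2 * e0 * (Har p (2 * e1) - Har p e1))) := by
    have := hcast (((2 * e0 : ℕ) : ℤ) * T2)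
    rw [Int.cast_mul, Int.cast_natCast, Int.cast_mul, Int.cast_natCast, c2] at this
    rw [mul_assoc, this, mul_eps, ← eps_neg]
    congr 1
    push_cast
    ring
  have e3' : ((((1 - X : ℤ[X]) ^ (2 * e1)).coeff e1 * ((1 - X : ℤ[X]) ^ (2 * e0)).coeff e0 : ℤ) : ZMod (p ^ 2)) = D := by
    rw [coeff_one_sub_X_pow, coeff_one_sub_X_pow, hD, pow_add]
    push_cast
    ring
  rw [Int.cast_mul, Int.cast_natCast, hq, Int.cast_sub, Int.cast_sub, e3', Int.cast_mul, Int.cast_mul, Int.cast_natCast,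
    Int.cast_natCast, e1', Int.cast_mul, Int.cast_mul, Int.cast_natCast, Int.cast_natCast, e2', uu, eps_add]
  ring

end Pool.Agent.Pell
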