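import Pool.Agent.Pell.Harm2

namespace Pool.Agent.Pell

open Finset Polynomial

variable {p : ℕ} [hp : Fact p.Prime]

lemma coeff_one_sub_X_pow (b j : ℕ) : ((1 - X : ℤ[X]) ^ b).coeff j = (-1) ^ j * (b.choose j : ℤ) := by
  induction b generalizing j with
  | zero =>
    rcases j with _ | j
    · simp
    · simp [coeff_one]
  | succ b ih =>
    rw [pow_succ, mul_sub, mul_one, coeff_sub]
    rcases j with _ | j
    · simp [ih]
    · rw [coeff_mul_X, ih, ih, Nat.choose_succ_succ, pow_succ]
      push_cast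
      ring

lemma natDegree_one_sub_X_pow (b : ℕ) : ((1 - X : ℤ[X]) ^ b).natDegree ≤ b := by
  rw [natDegree_le_iff_coeff_eq_zero]
  intro j hj
  rw [coeff_one_sub_X_pow, Nat.choose_eq_zero_of_lt hj]
  simp

/-- integer lift of `1/i` -/
def dd (p i : ℕ) : ℤ := (-1) ^ (i + 1) * (cc p i : ℤ)

lemma dd_cast {i : ℕ} (h0 : i ≠ 0) (hi : i < p) : ((dd p i : ℤ) : ZMod p) = ((i : ℕ) : ZMod p)⁻¹ := by
  unfold dd
  push_cast
  rw [cc_cast h0 hi]
  obtain ⟨j, rfl⟩ : ∃ j, i = j + 1 := ⟨i - 1, by omega⟩
  rw [← mul_assoc, ← pow_add]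
  have : j + 1 + 1 + (j + 1 - 1) = 2 * (j + 1) := by omega
  rw [this, pow_mul]
  simp

/-- `£(X) = ∑_{i=1}^{p-1} X^i/i` -/
noncomputable def LL (p : ℕ) : ℤ[X] := ∑ i ∈ range (p - 1), C (dd p (i + 1)) * X ^ (i + 1)

lemma coeff_LL (m : ℕ) : (LL p).coeff m = if m ≠ 0 ∧ m < p then dd p m else 0 := by
  unfold LL
  rw [finset_sum_coeff]
  simp only [coeff_C_mul, coeff_X_pow]
  split_ifs with h
  · rw [Finset.sum_eq_single (m - 1)]
    · rw [if_pos (by omega), Nat.sub_add_cancel (by omega), mul_one]
    · intro b _ hb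
      rw [if_neg (by omega), mul_zero]
    · intro hm
      rw [Finset.mem_range] at hm
      omega
  · apply Finset.sum_eq_zero
    intro i hi
    rw [Finset.mem_range] at hi
    rw [if_neg, mul_zero]
    rintro rfl
    apply h
    omega

lemma natDegree_LL : (LL p).natDegree ≤ p - 1 := by
  rw [natDegree_le_iff_coeff_eq_zero]
  intro m hm
  rw [coeff_LL, if_neg]
  omega

lemma one_sub_X_pow_p (h2 : p ≠ 2) : (1 - X : ℤ[X]) ^ p = 1 - X ^ p - (p : ℤ[X]) * LL p := by
  ext m
  have hpp := hp.out.two_le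
  have hodd : Odd p := hp.out.odd_of_ne_two h2
  rw [coeff_one_sub_X_pow, coeff_sub, coeff_sub, coeff_X_pow]
  have h1 : ((p : ℤ[X]) * LL p).coeff m = (p : ℤ) * (LL p).coeff m := by
    have : (p : ℤ[X]) = C (p : ℤ) := by simp
    rw [this, coeff_C_mul]
  rw [h1, coeff_LL, coeff_one]
  by_cases h0 : m = 0
  · subst h0
    have : (0 : ℕ) ≠ p := by omega
    simp [this]
  by_cases hm : m = p
  · subst hm
    simp [h0, hodd.neg_one_pow]
  by_cases hlt : m < p
  · rw [if_neg h0, if_neg hm, if_pos ⟨h0, hlt⟩]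
    unfold dd
    have := p_mul_cc (p := p) h0 hlt
    rw [← this, pow_succ]
    push_cast
    ring
  · rw [if_neg h0, if_neg hm, if_neg (by omega), Nat.choose_eq_zero_of_lt (by omega)]
    simp

lemma coeff_LL_mul_low (b r : ℕ) (hr : r < p) :
    (((LL p * (1 - X) ^ b).coeff r : ℤ) : ZMod p) = fs p b r := by
  rw [mul_comm, coeff_mul, Finset.Nat.sum_antidiagonal_eq_sum_range_succ_mk, fs, Finset.sum_range_succ]
  push_cast
  have h0 : (((LL p).coeff (r - r) : ℤ) : ZMod p) = 0 := by
    rw [coeff_LL]; simp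
  rw [h0, mul_zero, add_zero]
  apply Finset.sum_congr rfl
  intro j hj
  rw [Finset.mem_range] at hj
  rw [coeff_one_sub_X_pow, coeff_LL, if_pos ⟨by omega, by omega⟩, dd_cast (by omega) (by omega)]
  push_cast
  ring

lemma coeff_LL_mul_high (b r : ℕ) (hb : b < p) (hr : r ≤ b) :
    (((LL p * (1 - X) ^ b).coeff (r + p) : ℤ) : ZMod p) = - gs p b r := by
  rw [mul_comm, coeff_mul, Finset.Nat.sum_antidiagonal_eq_sum_range_succ_mk, gs]
  push_cast
  rw [← Finset.sum_neg_distrib]
  -- split the range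
  have hsplit : (r + p).succ = (r + 1) + (b - r) + (r + p + 1 - (b + 1)) := by omega
  rw [hsplit, Finset.sum_range_add, Finset.sum_range_add]
  have z1 : ∑ x ∈ range (r + 1), ((((1 - X : ℤ[X]) ^ b).coeff x : ℤ) : ZMod p) * (((LL p).coeff (r + p - x) : ℤ) : ZMod p) = 0 := by
    apply Finset.sum_eq_zero
    intro x hx
    rw [Finset.mem_range] at hx
    rw [coeff_LL, if_neg (by omega)]
    simp
  have z2 : ∑ x ∈ range (r + p + 1 - (b + 1)), ((((1 - X : ℤ[X]) ^ b).coeff (r + 1 + (b - r) + x) : ℤ) : ZMod p) * (((LL p).coeff (r + p - (r + 1 + (b - r) + x)) : ℤ) : ZMod p) = 0 := by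
    apply Finset.sum_eq_zero
    intro x hx
    rw [coeff_one_sub_X_pow, Nat.choose_eq_zero_of_lt (by omega)]
    simp
  rw [z1, z2, zero_add, add_zero]
  apply Finset.sum_congr rfl
  intro i hi
  rw [Finset.mem_range] at hi
  rw [coeff_one_sub_X_pow, coeff_LL, if_pos ⟨by omega, by omega⟩, dd_cast (by omega) (by omega)]
  have e : r + p - (r + 1 + i) = p - (i + 1) := by omega
  rw [e, Nat.cast_sub (by omega), ZMod.natCast_self, zero_sub, inv_neg]
  push_cast
  ring

lemma coeff_expand_mul (A B : ℤ[X]) (hB : B.natDegree < 2 * p) (m r : ℕ) (hr : r < p) :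
    (expand ℤ p A * B).coeff (p * m + r) = A.coeff m * B.coeff r +
      (if m = 0 then 0 else A.coeff (m - 1) * B.coeff (r + p)) := by
  induction A using Polynomial.induction_on' with
  | add A1 A2 h1 h2 =>
    rw [map_add, add_mul, coeff_add, h1, h2, coeff_add, coeff_add]
    split_ifs <;> ring
  | monomial n a =>
    rw [← C_mul_X_pow_eq_monomial, map_mul, map_pow, expand_X, expand_C, ← pow_mul, mul_assoc, coeff_C_mul,
      coeff_X_pow_mul']
    simp only [coeff_C_mul, coeff_X_pow]
    rcases lt_trichotomy n m with h | h | h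
    · have hle : p * n ≤ p * m + r := by
        have : p * n ≤ p * m := Nat.mul_le_mul_left p h.le
        omega
      rw [if_pos hle, if_neg (by omega : ¬ m = n), if_neg (by omega : ¬ m = 0)]
      by_cases h1 : m - 1 = n
      · have e : p * m + r - p * n = r + p := by
          have : m = n + 1 := by omega
          subst this
          rw [mul_add, mul_one]
          omega
        rw [e, if_pos h1]
        ring
      · rw [if_neg h1]
        have e : B.coeff (p * m + r - p * n) = 0 := by
          apply coeff_eq_zero_of_natDegree_lt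
          have : p * (n + 2) ≤ p * m := Nat.mul_le_mul_left p (by omega)
          rw [mul_add] at this
          omega
        rw [e]
        ring
    · subst h
      rw [if_pos (by omega), if_pos rfl]
      have e : p * n + r - p * n = r := by omega
      rw [e]
      split_ifs <;> first | omega | ring
    · have hle : ¬ p * n ≤ p * m + r := by
        have : p * (m + 1) ≤ p * n := Nat.mul_le_mul_left p h
        rw [mul_add] at this
        omega
      rw [if_neg hle, if_neg (by omega : ¬ m = n), if_neg (by omega : ¬ m - 1 = n)]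
      split_ifs <;> ring

end Pool.Agent.Pell
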