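import Pool.Agent.Pell.Ode

namespace Pool.Agent.Pell

open Finset Polynomial

variable {p : ℕ} [hp : Fact p.Prime]

lemma rho_odd_zero {n f : ℕ} (h : Par p n f) (j : ℕ) : ((rho n (2 * j + 1) : ℤ) : ZMod p) = 0 := by
  induction j with
  | zero =>
    rw [rho_one]
    have := h.cast
    push_cast
    linear_combination (- (n : ZMod p)) * this
  | succ j ih =>
    rcases Nat.lt_or_ge n (2 * (j + 1) + 1) with hn | hn
    · rw [rho_gt hn]; simp
    · have hr := congrArg (Int.cast : ℤ → ZMod p) (rho_rec n (2 * j + 1))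
      push_cast at hr
      rw [ih] at hr
      have hc := h.cast
      have hne : ((2 * j + 3 : ℕ) : ZMod p) ≠ 0 := natCast_ne_zero_of_lt (by omega) (by have := h.two_n; omega)
      have e : ((2 * j + 3 : ℕ) : ZMod p) ^ 2 * ((rho n (2 * j + 1 + 2) : ℤ) : ZMod p) = 0 := by
        push_cast
        linear_combination hr - (((n : ZMod p) - (2 * j + 1) - 1) * ((rho n (2 * j + 1 + 1) : ℤ) : ZMod p)) * hc
      rw [show 2 * (j + 1) + 1 = 2 * j + 1 + 2 by ring]
      exact (mul_eq_zero.mp e).resolve_left (pow_ne_zero _ hne)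

/-- `ρ_{2j+1}/p` -/
def qj (p n j : ℕ) : ℤ := rho n (2 * j + 1) / (p : ℤ)

lemma rho_odd {n f : ℕ} (h : Par p n f) (j : ℕ) : rho n (2 * j + 1) = (p : ℤ) * qj p n j := by
  have := rho_odd_zero h j
  rw [ZMod.intCast_zmod_eq_zero_iff_dvd] at this
  exact (Int.mul_ediv_cancel' this).symm

lemma rho_odd_eps {n f : ℕ} (h : Par p n f) (j : ℕ) : ((rho n (2 * j + 1) : ℤ) : ZMod (p ^ 2)) = eps p ((qj p n j : ℤ) : ZMod p) := by
  rw [rho_odd h, eps_intCast]; push_cast; ring

lemma rho_even {n f : ℕ} (h : Par p n f) (j : ℕ) : ((rho n (2 * j) : ℤ) : ZMod (p ^ 2)) = (Dj n j : ZMod (p ^ 2)) * ((4 : ZMod (p ^ 2)) ^ j)⁻¹ := by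
  have h4 := red_four_pow_ne (p := p) h.two_ne
  have key : (4 : ZMod (p ^ 2)) ^ j * ((rho n (2 * j) : ℤ) : ZMod (p ^ 2)) = (Dj n j : ZMod (p ^ 2)) := by
    induction j with
    | zero => simp [rho_zero, Dj]
    | succ j ih =>
      rcases Nat.lt_or_ge n (2 * (j + 1)) with hn | hn
      · rw [rho_gt hn, Dj, Nat.choose_eq_zero_of_lt hn]; simp
      · have hr := congrArg (Int.cast : ℤ → ZMod (p ^ 2)) (rho_rec n (2 * j))
        push_cast at hr
        rw [rho_odd_eps h] at hr
        have hpc : 2 * (n : ZMod (p ^ 2)) + 1 = (p : ZMod (p ^ 2)) := by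
          have := congrArg (Nat.cast : ℕ → ZMod (p ^ 2)) h.two_n
          push_cast at this
          exact this.symm
        have hz : (2 * (n : ZMod (p ^ 2)) + 1) * eps p ((qj p n j : ℤ) : ZMod p) = 0 := by
          rw [hpc, ← eps_one, eps_mul_eps]
        have hD : (Dj n (j + 1) : ZMod (p ^ 2)) * ((j : ZMod (p ^ 2)) + 1) ^ 2 = (Dj n j : ZMod (p ^ 2)) * ((n : ZMod (p ^ 2)) - 2 * j) * ((n : ZMod (p ^ 2)) - 2 * j - 1) := by
          have := congrArg (Int.cast : ℤ → ZMod (p ^ 2)) (Dj_succ n j)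
          push_cast at this
          exact this
        have hne : red p (((j + 1 : ℕ) : ZMod (p ^ 2)) ^ 2) ≠ 0 := by
          rw [map_pow, red_natCast]
          exact pow_ne_zero _ (natCast_ne_zero_of_lt (by omega) (by have := h.two_n; omega))
        apply mul_left_cancel_of_red hne
        rw [pow_succ (4 : ZMod (p ^ 2)) j, show 2 * (j + 1) = 2 * j + 2 by ring]
        push_cast
        linear_combination (4 ^ j : ZMod (p ^ 2)) * hr + ((n : ZMod (p ^ 2)) - 2 * j) * ((n : ZMod (p ^ 2)) - 2 * j - 1) * ih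
          - hD - (4 ^ j * ((n : ZMod (p ^ 2)) - 2 * j - 1)) * hz
  have e : (4 : ZMod (p ^ 2)) ^ j * ((4 : ZMod (p ^ 2)) ^ j)⁻¹ = 1 := mul_inv_self' (h4 j)
  rw [← key]
  linear_combination (-((rho n (2 * j) : ℤ) : ZMod (p ^ 2))) * e

lemma rho_even_red {n f : ℕ} (h : Par p n f) (j : ℕ) : ((rho n (2 * j) : ℤ) : ZMod p) = (HP p n f).coeff j := by
  have := congrArg (red p) (rho_even h j)
  have h4 := red_four_pow_ne (p := p) h.two_ne j
  rw [red_intCast, map_mul, red_natCast, red_inv h4, map_pow] at this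
  have e : red p (4 : ZMod (p ^ 2)) = 4 := by exact_mod_cast red_natCast (p := p) 4
  rw [this, e, coeff_HP h]

lemma qj_gt {n f : ℕ} (h : Par p n f) {j : ℕ} (hj : 2 * f < j) : qj p n j = 0 := by
  unfold qj
  rw [rho_gt (by rcases h with h | h <;> omega)]; simp

/-- odd part of `R`, divided by `p` -/
noncomputable def roP (p n f : ℕ) : (ZMod p)[X] := ∑ j ∈ range (2 * f + 1), C ((qj p n j : ℤ) : ZMod p) * X ^ j

lemma coeff_roP {n f : ℕ} (h : Par p n f) (j : ℕ) : (roP p n f).coeff j = ((qj p n j : ℤ) : ZMod p) := by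
  unfold roP
  rw [coeff_sum_C_mul_X_pow]
  split_ifs with hj
  · rfl
  · rw [qj_gt h (by omega)]; simp

lemma qj_rec {n f : ℕ} (h : Par p n f) (j : ℕ) : (2 * (j : ℤ) + 3) ^ 2 * qj p n (j + 1) =
    ((n : ℤ) - 2 * j - 2) * ((n : ℤ) - 2 * j - 1) * qj p n j - ((n : ℤ) - 2 * j - 2) * rho n (2 * (j + 1)) := by
  have hr := rho_rec n (2 * j + 1)
  rw [show 2 * j + 1 + 2 = 2 * (j + 1) + 1 by ring, rho_odd h, rho_odd h, show 2 * j + 1 + 1 = 2 * (j + 1) by ring] at hr
  have hpc : 2 * (n : ℤ) + 1 = (p : ℤ) := by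
    have := h.two_n
    omega
  rw [hpc] at hr
  have hp0 : (p : ℤ) ≠ 0 := by exact_mod_cast hp.out.ne_zero
  apply mul_left_cancel₀ hp0
  push_cast at hr
  linear_combination hr

lemma qj_zero {n f : ℕ} (h : Par p n f) : qj p n 0 = - (n : ℤ) := by
  have h1 := rho_odd h 0
  have hpc : 2 * (n : ℤ) + 1 = (p : ℤ) := by
    have := h.two_n
    omega
  rw [show 2 * 0 + 1 = 1 by rfl, rho_one, hpc] at h1
  have hp0 : (p : ℤ) ≠ 0 := by exact_mod_cast hp.out.ne_zero
  apply mul_left_cancel₀ hp0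
  linear_combination -h1

lemma L1_roP {n f : ℕ} (h : Par p n f) : L1 (roP p n f) = 8 * (X * derivative (HP p n f)) + 2 * HP p n f := by
  ext j
  have h8 : (8 : (ZMod p)[X]) = C 8 := (map_ofNat C 8).symm
  have h2 : (2 : (ZMod p)[X]) = C 2 := (map_ofNat C 2).symm
  have hc := h.cast
  rcases j with _ | j
  · rw [coeff_L1_zero, coeff_roP h, h8, h2, coeff_add, coeff_C_mul, coeff_C_mul, coeff_theta, qj_zero h]
    have : (HP p n f).coeff 0 = 1 := by rw [coeff_HP h]; simp [Dj]
    rw [this]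
    push_cast
    linear_combination (-2 : ZMod p) * hc
  · rw [coeff_L1_succ, coeff_roP h, coeff_roP h, h8, h2, coeff_add, coeff_C_mul, coeff_C_mul, coeff_theta]
    have hr := congrArg (Int.cast : ℤ → ZMod p) (qj_rec h j)
    push_cast at hr
    rw [show ((rho n (2 * (j + 1)) : ℤ) : ZMod p) = (HP p n f).coeff (j + 1) from rho_even_red h (j + 1)] at hr
    push_cast
    set q := ((qj p n j : ℤ) : ZMod p)
    set H := (HP p n f).coeff (j + 1)
    linear_combination 4 * hr + (q * (2 * (n : ZMod p) - 8 * j - 7) - 2 * H) * hc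

lemma lP_ode {n f : ℕ} (h : Par p n f) : (1 - X) * (2 * X * derivative (lP p n) + lP p n) = 1 - X ^ n := by
  have h1 : 2 * X * derivative (lP p n) + lP p n = ∑ j ∈ range n, (X : (ZMod p)[X]) ^ j := by
    ext j
    have h2 : (2 : (ZMod p)[X]) = C 2 := (map_ofNat C 2).symm
    have h3 : (∑ j ∈ range n, (X : (ZMod p)[X]) ^ j) = ∑ j ∈ range n, C (1 : ZMod p) * X ^ j := by simp
    rw [coeff_add, mul_assoc, h2, coeff_C_mul, coeff_theta, h3, coeff_sum_C_mul_X_pow]
    unfold lP
    rw [coeff_sum_C_mul_X_pow]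
    split_ifs with hj
    · have hne : ((2 * j + 1 : ℕ) : ZMod p) ≠ 0 := natCast_ne_zero_of_lt (by omega) (by have := h.two_n; omega)
      have := mul_inv_cancel₀ hne
      push_cast at this ⊢
      linear_combination this
    · simp
  rw [h1]
  exact mul_neg_geom_sum X n

/-- the defect -/
noncomputable def FF (p n f : ℕ) [Fact p.Prime] : (ZMod p)[X] :=
  2 * roP p n f - lP p n * HP p n f - X ^ n * (SP p n f - C (Har p (2 * f)) * HP p n f)

lemma L1_FF {n f : ℕ} (h : Par p n f) : L1 (FF p n f) = 0 := by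
  have a := Dop_HP h
  have b := Dop_SP h
  have r := L1_roP h
  have e1 := lP_ode h
  have e2 := congrArg derivative e1
  have y1 : 2 * X * derivative ((X : (ZMod p)[X]) ^ n) = - X ^ n := by
    have h1 : X * derivative ((X : (ZMod p)[X]) ^ n) = C (n : ZMod p) * X ^ n := by
      rcases Nat.eq_zero_or_pos n with hn | hn
      · subst hn; simp
      · obtain ⟨m, rfl⟩ : ∃ m, n = m + 1 := ⟨n - 1, by omega⟩
        rw [derivative_X_pow, Nat.add_sub_cancel, pow_succ]
        ring
    have h2 : (2 : (ZMod p)[X]) * C (n : ZMod p) = -1 := by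
      have h2 : (2 : (ZMod p)[X]) = C 2 := (map_ofNat C 2).symm
      have := h.cast
      rw [h2, ← C_mul, show 2 * (n : ZMod p) = -1 by linear_combination this]
      simp
    linear_combination 2 * h1 + X ^ n * h2
  have y2 := congrArg derivative y1
  unfold FF
  generalize hY : (X : (ZMod p)[X]) ^ n = Y at *
  unfold L1 at r ⊢
  unfold Dop at a b
  simp only [derivative_mul, derivative_sub, derivative_add, derivative_X, derivative_one, derivative_neg, derivative_C,
    derivative_ofNat, zero_mul, zero_add, add_zero, mul_one, one_mul, zero_sub] at e2 y2 ⊢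
  set H := HP p n f
  set S := SP p n f
  set l := lP p n
  set R := roP p n f
  set c : (ZMod p)[X] := C (Har p (2 * f))
  linear_combination 2 * r - (X * l * a + 8 * X * H * e2 + (4 * H + 16 * X * derivative H) * e1 - 4 * H * y1)
    - (X * Y * (b - c * a) + (S - c * H) * 8 * X * (1 - X) * y2 + (4 - 12 * X) * (S - c * H) * y1 + 16 * X * (1 - X) * (derivative S - c * derivative H) * y1)

lemma natDegree_lP (n : ℕ) : (lP p n).natDegree ≤ n - 1 := by
  rw [natDegree_le_iff_coeff_eq_zero]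
  intro j hj
  unfold lP
  rw [coeff_sum_C_mul_X_pow, if_neg (by omega)]

lemma Par.n_pos {n f : ℕ} (h : Par p n f) : 0 < n := by
  have h1 := h.two_n
  have h2 := hp.out.one_lt
  omega

lemma FF_high {n f : ℕ} (h : Par p n f) (j : ℕ) (hj : n + 2 * f ≤ j) : (FF p n f).coeff j = 0 := by
  have hn := h.n_pos
  unfold FF
  have h2 : (2 : (ZMod p)[X]) = C 2 := (map_ofNat C 2).symm
  rw [coeff_sub, coeff_sub, h2, coeff_C_mul, coeff_roP h, qj_gt h (by omega), coeff_X_pow_mul', if_pos (by omega)]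
  have h3 : (lP p n * HP p n f).coeff j = 0 := by
    apply coeff_eq_zero_of_natDegree_lt
    refine lt_of_le_of_lt natDegree_mul_le ?_
    have := natDegree_lP (p := p) n
    have := natDegree_HP h
    omega
  rw [h3, coeff_sub, coeff_C_mul, coeff_SP h]
  rcases eq_or_lt_of_le hj with hj | hj
  · subst hj
    rw [Nat.add_sub_cancel_left]
    push_cast
    ring
  · rw [coeff_HP h, Dj_zero_of_gt h (by omega)]
    simp

lemma FF_low {n f : ℕ} (h : Par p n f) (j : ℕ) (hj : j < n) : (FF p n f).coeff j = 0 := by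
  have hL := L1_FF h
  have h4 := four_ne h.two_ne
  induction j with
  | zero =>
    have h1 := coeff_L1_zero (FF p n f)
    rw [hL, coeff_zero, eq_comm] at h1
    exact (mul_eq_zero.mp h1).resolve_left h4
  | succ j ih =>
    have h1 := coeff_L1_succ (FF p n f) j
    rw [hL, coeff_zero, ih (by omega), mul_zero, sub_zero, eq_comm] at h1
    have hne : ((2 * j + 3 : ℕ) : ZMod p) ≠ 0 := natCast_ne_zero_of_lt (by omega) (by have := h.two_n; omega)
    push_cast at hne
    exact (mul_eq_zero.mp h1).resolve_left (mul_ne_zero h4 (pow_ne_zero _ hne))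

/-- closed form of the odd part -/
theorem FF_zero {n f : ℕ} (h : Par p n f) : FF p n f = 0 := by
  by_contra hg
  set g := FF p n f with hgdef
  have h1 : g.coeff g.natDegree ≠ 0 := by
    rw [coeff_natDegree]; exact leadingCoeff_ne_zero.mpr hg
  have h2 : g.natDegree < n + 2 * f := by
    by_contra h3
    exact h1 (FF_high h _ (not_lt.mp h3))
  have h2' : n ≤ g.natDegree := by
    by_contra h3
    exact h1 (FF_low h _ (not_le.mp h3))
  have h3 := coeff_L1_succ g g.natDegree
  rw [hgdef, L1_FF h, ← hgdef, coeff_zero, coeff_eq_zero_of_natDegree_lt (Nat.lt_succ_self _), mul_zero, zero_sub, eq_comm, neg_eq_zero] at h3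
  obtain ⟨i, hi⟩ := Nat.exists_eq_add_of_le h2'
  have hc := h.cast
  have hd : (g.natDegree : ZMod p) = n + i := by rw [hi]; push_cast; ring
  rcases mul_eq_zero.mp h3 with h4 | h4
  · rcases mul_eq_zero.mp h4 with h5 | h5
    · have : ((4 * i + 1 : ℕ) : ZMod p) ≠ 0 := natCast_ne_zero_of_lt (by omega) (by rcases h with h | h <;> omega)
      apply this; push_cast; rw [hd] at h5; linear_combination h5 - 2 * hc
    · have : ((4 * i + 3 : ℕ) : ZMod p) ≠ 0 := natCast_ne_zero_of_lt (by omega) (by rcases h with h | h <;> omega)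
      apply this; push_cast; rw [hd] at h5; linear_combination h5 - 2 * hc
  · exact h1 h4

lemma ro_half {n f : ℕ} (h : Par p n f) : 2 * (roP p n f).eval (1 / 2) = (lP p n).eval (1 / 2) * (HP p n f).eval (1 / 2) := by
  have h1 := congrArg (eval (1 / 2 : ZMod p)) (FF_zero h)
  unfold FF at h1
  simp only [eval_sub, eval_mul, eval_pow, eval_X, eval_C, eval_zero, eval_ofNat] at h1
  rw [SP_half h] at h1
  linear_combination h1

end Pool.Agent.Pell
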