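import Pool.Agent.Pell.CMod

namespace Pool.Agent.Pell

open Finset

/-- `c_k = C(n+k,k) (-2)^k` -/
def ck (n k : ℕ) : ℤ := ((n + k).choose k : ℤ) * (-2) ^ k

lemma ck_zero (n : ℕ) : ck n 0 = 1 := by simp [ck]

lemma ck_succ (n k : ℕ) : ((k : ℤ) + 1) * ck n (k + 1) = -2 * ((n : ℤ) + k + 1) * ck n k := by
  unfold ck
  have h : (n + k + 1) * (n + k).choose k = (n + k + 1).choose (k + 1) * (k + 1) := Nat.add_one_mul_choose_eq (n + k) k
  have h' : ((n : ℤ) + k + 1) * ((n + k).choose k : ℤ) = ((n + k + 1).choose (k + 1) : ℤ) * ((k : ℤ) + 1) := by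
    exact_mod_cast congrArg (Nat.cast : ℕ → ℤ) h
  rw [show n + (k + 1) = n + k + 1 by ring, pow_succ]
  linear_combination (2 * (-2) ^ k) * h'

/-- the binomial transform -/
def sg (n m : ℕ) : ℤ := ∑ k ∈ range (m + 1), (m.choose k : ℤ) * ck n k

/-- `∑ C(m,k) c_{k+1}` -/
def sg1 (n m : ℕ) : ℤ := ∑ k ∈ range (m + 1), (m.choose k : ℤ) * ck n (k + 1)

lemma sg_ext (n m : ℕ) : sg n m = ∑ k ∈ range (m + 2), (m.choose k : ℤ) * ck n k := by
  rw [Finset.sum_range_succ, Nat.choose_succ_self]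
  simp [sg]

lemma sg_diff (n m : ℕ) : sg n (m + 1) = sg n m + sg1 n m := by
  rw [sg_ext n m, sg, sg1, Finset.sum_range_succ' _ (m + 1), Finset.sum_range_succ' (fun k => (m.choose k : ℤ) * ck n k) (m + 1)]
  have h : ∀ k ∈ range (m + 1), ((m + 1).choose (k + 1) : ℤ) * ck n (k + 1) = (m.choose (k + 1) : ℤ) * ck n (k + 1) + (m.choose k : ℤ) * ck n (k + 1) := by
    intro k _
    rw [Nat.choose_succ_succ]
    push_cast
    ring
  rw [Finset.sum_congr rfl h, Finset.sum_add_distrib]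
  simp
  ring

lemma sum_k_sg (n m : ℕ) : ∑ k ∈ range (m + 2), (k : ℤ) * ((m + 1).choose k : ℤ) * ck n k = ((m : ℤ) + 1) * sg1 n m := by
  rw [Finset.sum_range_succ', sg1, Finset.mul_sum]
  simp only [Nat.cast_zero, zero_mul, add_zero]
  apply Finset.sum_congr rfl
  intro k _
  have h : (m + 1) * m.choose k = (m + 1).choose (k + 1) * (k + 1) := Nat.add_one_mul_choose_eq m k
  have h' : ((m : ℤ) + 1) * (m.choose k : ℤ) = ((m + 1).choose (k + 1) : ℤ) * ((k : ℤ) + 1) := by
    exact_mod_cast congrArg (Nat.cast : ℕ → ℤ) h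
  push_cast
  linear_combination (- ck n (k + 1)) * h'

lemma sum_k_sg1 (n m : ℕ) : ∑ k ∈ range (m + 2), ((k : ℤ) + 1) * ((m + 1).choose k : ℤ) * ck n (k + 1)
    = ((m : ℤ) + 2) * sg1 n (m + 1) - ((m : ℤ) + 1) * sg1 n m := by
  have h1 : ∀ k ∈ range (m + 2), ((k : ℤ) + 1) * ((m + 1).choose k : ℤ) * ck n (k + 1)
      = ((m : ℤ) + 2) * (((m + 1).choose k : ℤ) * ck n (k + 1)) - ((k : ℤ) + 1) * ((m + 1).choose (k + 1) : ℤ) * ck n (k + 1) := by
    intro k _
    have h : (m + 1 + 1) * (m + 1).choose k = (m + 1 + 1).choose (k + 1) * (k + 1) := Nat.add_one_mul_choose_eq (m + 1) k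
    rw [Nat.choose_succ_succ (m + 1) k] at h
    have h' : ((m : ℤ) + 2) * ((m + 1).choose k : ℤ) = (((m + 1).choose k : ℤ) + ((m + 1).choose (k + 1) : ℤ)) * ((k : ℤ) + 1) := by
      have := congrArg (Nat.cast : ℕ → ℤ) h
      push_cast at this
      linear_combination this
    linear_combination (- ck n (k + 1)) * h'
  rw [Finset.sum_congr rfl h1, Finset.sum_sub_distrib, ← Finset.mul_sum]
  have h2 : ∑ k ∈ range (m + 2), ((k : ℤ) + 1) * ((m + 1).choose (k + 1) : ℤ) * ck n (k + 1) = ((m : ℤ) + 1) * sg1 n m := by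
    rw [← sum_k_sg, Finset.sum_range_succ, Nat.choose_succ_self, Finset.sum_range_succ' (fun k => (k : ℤ) * ((m + 1).choose k : ℤ) * ck n k)]
    simp
  rw [h2]
  rfl

lemma sg_zero (n : ℕ) : sg n 0 = 1 := by simp [sg, ck_zero]

lemma sg_one (n : ℕ) : sg n 1 = - (2 * (n : ℤ) + 1) := by
  simp [sg, Finset.sum_range_succ, ck]
  ring

lemma sg_rec (n m : ℕ) : ((m : ℤ) + 2) * sg n (m + 2) = ((m : ℤ) + 1) * sg n m - (2 * (n : ℤ) + 1) * sg n (m + 1) := by
  have h1 : ∑ k ∈ range (m + 2), ((k : ℤ) + 1) * ((m + 1).choose k : ℤ) * ck n (k + 1)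
      = -2 * ((n : ℤ) + 1) * sg n (m + 1) - 2 * ∑ k ∈ range (m + 2), (k : ℤ) * ((m + 1).choose k : ℤ) * ck n k := by
    rw [sg, Finset.mul_sum, Finset.mul_sum, ← Finset.sum_sub_distrib]
    apply Finset.sum_congr rfl
    intro k _
    linear_combination ((m + 1).choose k : ℤ) * ck_succ n k
  rw [sum_k_sg1, sum_k_sg] at h1
  have h2 := sg_diff n m
  have h3 := sg_diff n (m + 1)
  linear_combination h1 + ((m : ℤ) + 2) * h3 + ((m : ℤ) + 1) * h2

/-- `ρ_m = C(n,m) σ_m` -/
def rho (n m : ℕ) : ℤ := (n.choose m : ℤ) * sg n m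

lemma choose_succ_int (n m : ℕ) : (n.choose (m + 1) : ℤ) * ((m : ℤ) + 1) = (n.choose m : ℤ) * ((n : ℤ) - m) := by
  rcases Nat.lt_or_ge n m with h | h
  · rw [Nat.choose_eq_zero_of_lt h, Nat.choose_eq_zero_of_lt (by omega)]; simp
  · have := Nat.choose_succ_right_eq n m
    have h2 := congrArg (Nat.cast : ℕ → ℤ) this
    push_cast [Nat.cast_sub h] at h2
    linear_combination h2

lemma rho_rec (n m : ℕ) : ((m : ℤ) + 2) ^ 2 * rho n (m + 2)
    = ((n : ℤ) - m - 1) * ((n : ℤ) - m) * rho n m - (2 * (n : ℤ) + 1) * ((n : ℤ) - m - 1) * rho n (m + 1) := by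
  unfold rho
  have h1 := choose_succ_int n m
  have h2 := choose_succ_int n (m + 1)
  push_cast at h2
  have h3 := sg_rec n m
  linear_combination (((m : ℤ) + 2) * sg n (m + 2)) * h2 + ((n.choose (m + 1) : ℤ) * ((n : ℤ) - m - 1)) * h3
    + (((n : ℤ) - m - 1) * sg n m) * h1

lemma rho_zero (n : ℕ) : rho n 0 = 1 := by simp [rho, sg_zero]

lemma rho_one (n : ℕ) : rho n 1 = - ((n : ℤ) * (2 * n + 1)) := by simp [rho, sg_one]; ring

lemma rho_gt {n m : ℕ} (h : n < m) : rho n m = 0 := by simp [rho, Nat.choose_eq_zero_of_lt h]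

lemma pow_mul_one_add_pow {A : Type*} [CommRing A] (u : A) (n k : ℕ) (hk : k ≤ n) :
    u ^ k * (1 + u) ^ (n - k) = ∑ m ∈ range (n + 1), (if k ≤ m then (((n - k).choose (m - k) : ℕ) : A) else 0) * u ^ m := by
  have e : n + 1 = k + (n - k + 1) := by omega
  rw [e, Finset.sum_range_add, add_comm (1 : A) u, add_pow, Finset.mul_sum]
  have h0 : ∑ x ∈ range k, (if k ≤ x then (((n - k).choose (x - k) : ℕ) : A) else 0) * u ^ x = 0 := by
    apply Finset.sum_eq_zero
    intro x hx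
    rw [Finset.mem_range] at hx
    rw [if_neg (by omega), zero_mul]
  rw [h0, zero_add]
  apply Finset.sum_congr rfl
  intro i _
  rw [if_pos (by omega), show k + i - k = i by omega, one_pow, pow_add]
  ring

/-- the quadratic transformation -/
theorem quad_trans {A : Type*} [CommRing A] (u : A) (n : ℕ) :
    ∑ k ∈ range (n + 1), ((n.choose k : ℤ) : A) * (ck n k : A) * (u ^ k * (1 + u) ^ (n - k))
      = ∑ m ∈ range (n + 1), (rho n m : A) * u ^ m := by
  have h1 : ∀ k ∈ range (n + 1), ((n.choose k : ℤ) : A) * (ck n k : A) * (u ^ k * (1 + u) ^ (n - k))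
      = ∑ m ∈ range (n + 1), (if k ≤ m then ((n.choose m : ℤ) : A) * ((m.choose k : ℤ) : A) * (ck n k : A) else 0) * u ^ m := by
    intro k hk
    rw [Finset.mem_range] at hk
    rw [pow_mul_one_add_pow u n k (by omega), Finset.mul_sum]
    apply Finset.sum_congr rfl
    intro m hm
    rw [Finset.mem_range] at hm
    split_ifs with h
    · have h2 : n.choose m * m.choose k = n.choose k * (n - k).choose (m - k) := Nat.choose_mul h
      have h3 : (n.choose m : A) * (m.choose k : A) = (n.choose k : A) * ((n - k).choose (m - k) : A) := by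
        exact_mod_cast congrArg (Nat.cast : ℕ → A) h2
      push_cast
      linear_combination (- (ck n k : A) * u ^ m) * h3
    · simp
  rw [Finset.sum_congr rfl h1, Finset.sum_comm]
  apply Finset.sum_congr rfl
  intro m hm
  rw [Finset.mem_range] at hm
  rw [← Finset.sum_mul]
  congr 1
  unfold rho sg
  have e : n + 1 = (m + 1) + (n - m) := by omega
  rw [e, Finset.sum_range_add]
  have h0 : ∑ x ∈ range (n - m), (if m + 1 + x ≤ m then ((n.choose m : ℤ) : A) * ((m.choose (m + 1 + x) : ℤ) : A) * (ck n (m + 1 + x) : A) else 0) = 0 := by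
    apply Finset.sum_eq_zero
    intro x _
    rw [if_neg (by omega)]
  rw [h0, add_zero]
  push_cast
  rw [Finset.mul_sum]
  apply Finset.sum_congr rfl
  intro k hk
  rw [Finset.mem_range] at hk
  rw [if_pos (by omega)]
  ring

end Pool.Agent.Pell
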