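import Pool.Agent.Pell.Gauss
import Pool.Agent.Pell.Rho

namespace Pool.Agent.Pell

open Finset Polynomial

/-- hypotheses on the parameters -/
def Par (p n f : ℕ) : Prop := (p = 8 * f + 1 ∧ n = 4 * f) ∨ (p = 8 * f + 3 ∧ n = 4 * f + 1)

section ops
variable {k : Type*} [Field k]

/-- `16 (v(1-v) g'' + (1-2v) g' - 3/16 g)` -/
noncomputable def Dop (g : k[X]) : k[X] :=
  16 * X * (1 - X) * derivative (derivative g) + 16 * (1 - 2 * X) * derivative g - 3 * g

/-- `16 (v^2(1-v) g'' + (2v-3v^2) g' + (1/4 - 15/16 v) g)` -/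
noncomputable def L1 (g : k[X]) : k[X] :=
  16 * X ^ 2 * (1 - X) * derivative (derivative g) + 16 * (2 * X - 3 * X ^ 2) * derivative g + (4 - 15 * X) * g

lemma coeff_theta (g : k[X]) (j : ℕ) : (X * derivative g).coeff j = (j : k) * g.coeff j := by
  rcases j with _ | j
  · simp
  · rw [coeff_X_mul, coeff_derivative]; push_cast; ring

lemma Dop_eq (g : k[X]) : Dop g = C 16 * derivative (X * derivative g - X * (X * derivative g)) - C 3 * g := by
  unfold Dop
  simp only [derivative_sub, derivative_mul, derivative_X]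
  have h16 : (C 16 : k[X]) = 16 := map_ofNat C 16
  have h3 : (C 3 : k[X]) = 3 := map_ofNat C 3
  rw [h16, h3]
  ring

lemma coeff_Dop (g : k[X]) (j : ℕ) : (Dop g).coeff j = 16 * ((j : k) + 1) ^ 2 * g.coeff (j + 1) - (4 * (j : k) + 1) * (4 * (j : k) + 3) * g.coeff j := by
  rw [Dop_eq, coeff_sub, coeff_C_mul, coeff_C_mul, coeff_derivative, coeff_sub, coeff_theta, coeff_X_mul, coeff_theta]
  push_cast
  ring

lemma L1_eq (g : k[X]) : L1 g = C 16 * (X * derivative (X * derivative g)) + C 16 * (X * derivative g) + C 4 * g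
    - X * (C 16 * (X * derivative (X * derivative g)) + C 32 * (X * derivative g) + C 15 * g) := by
  unfold L1
  simp only [derivative_mul, derivative_X]
  have h16 : (C 16 : k[X]) = 16 := map_ofNat C 16
  have h4 : (C 4 : k[X]) = 4 := map_ofNat C 4
  have h32 : (C 32 : k[X]) = 32 := map_ofNat C 32
  have h15 : (C 15 : k[X]) = 15 := map_ofNat C 15
  rw [h16, h4, h32, h15]
  ring

lemma coeff_L1_zero (g : k[X]) : (L1 g).coeff 0 = 4 * g.coeff 0 := by
  rw [L1_eq, coeff_sub, coeff_add, coeff_add, coeff_C_mul, coeff_C_mul, coeff_C_mul, coeff_theta, coeff_theta]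
  simp

lemma coeff_L1_succ (g : k[X]) (j : ℕ) : (L1 g).coeff (j + 1) = 4 * (2 * (j : k) + 3) ^ 2 * g.coeff (j + 1)
    - (4 * (j : k) + 3) * (4 * (j : k) + 5) * g.coeff j := by
  rw [L1_eq, coeff_sub, coeff_add, coeff_add, coeff_X_mul, coeff_add, coeff_add]
  simp only [coeff_C_mul, coeff_theta]
  push_cast
  ring

lemma Dop_comp (g : k[X]) : Dop (g.comp (1 - X)) = (Dop g).comp (1 - X) := by
  unfold Dop
  have h1 : derivative (g.comp (1 - X)) = - (derivative g).comp (1 - X) := by
    rw [derivative_comp]; simp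
  have h2 : derivative (derivative (g.comp (1 - X))) = (derivative (derivative g)).comp (1 - X) := by
    rw [h1, derivative_neg, derivative_comp]; simp
  rw [h2, h1]
  simp only [add_comp, sub_comp, mul_comp, X_comp, one_comp, ofNat_comp]
  ring

lemma natDegree_one_sub_X : (1 - X : k[X]).natDegree = 1 := by
  have : (1 - X : k[X]) = - (X - C 1) := by simp
  rw [this, natDegree_neg, natDegree_X_sub_C]

lemma leadingCoeff_one_sub_X : (1 - X : k[X]).leadingCoeff = -1 := by
  have : (1 - X : k[X]) = - (X - C 1) := by simp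
  rw [this, leadingCoeff_neg, leadingCoeff_X_sub_C]

lemma coeff_comp_one_sub (g : k[X]) (N : ℕ) (h : g.natDegree ≤ N) :
    (g.comp (1 - X)).coeff N = (-1) ^ N * g.coeff N := by
  rcases eq_or_lt_of_le h with h | h
  · have := coeff_comp_degree_mul_degree (p := g) (q := (1 - X : k[X])) (by rw [natDegree_one_sub_X]; exact one_ne_zero)
    rw [natDegree_one_sub_X, mul_one, leadingCoeff_one_sub_X, h] at this
    rw [this, leadingCoeff, h, mul_comm]
  · rw [coeff_eq_zero_of_natDegree_lt h, mul_zero]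
    apply coeff_eq_zero_of_natDegree_lt
    refine lt_of_le_of_lt natDegree_comp_le ?_
    rwa [natDegree_one_sub_X, mul_one]

end ops

variable {p : ℕ} [hp : Fact p.Prime]

lemma Par.two_n {n f : ℕ} (h : Par p n f) : p = 2 * n + 1 := by
  rcases h with h | h <;> omega

lemma Par.two_ne {n f : ℕ} (h : Par p n f) : (2 : ZMod p) ≠ 0 := two_ne_zero_of n h.two_n

lemma Par.cast {n f : ℕ} (h : Par p n f) : 2 * (n : ZMod p) + 1 = 0 := by
  have h1 : ((2 * n + 1 : ℕ) : ZMod p) = 0 := by rw [← h.two_n]; exact ZMod.natCast_self p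
  exact_mod_cast h1

/-- `H` modulo `p` -/
noncomputable def HP (p n f : ℕ) [Fact p.Prime] : (ZMod p)[X] := ∑ j ∈ range (2 * f + 1), C ((Dj n j : ZMod p) * ((4 : ZMod p) ^ j)⁻¹) * X ^ j

/-- `S` modulo `p` -/
noncomputable def SP (p n f : ℕ) [Fact p.Prime] : (ZMod p)[X] := ∑ j ∈ range (2 * f + 1), C ((Dj n j : ZMod p) * ((4 : ZMod p) ^ j)⁻¹ * Har p j) * X ^ j

/-- odd part of the logarithm -/
noncomputable def lP (p n : ℕ) [Fact p.Prime] : (ZMod p)[X] := ∑ j ∈ range n, C (((2 * j + 1 : ℕ) : ZMod p)⁻¹) * X ^ j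

lemma coeff_sum_C_mul_X_pow {R : Type*} [CommRing R] (a : ℕ → R) (N j : ℕ) :
    (∑ i ∈ range N, C (a i) * X ^ i).coeff j = if j < N then a j else 0 := by
  rw [finsetSum_coeff]
  simp only [coeff_C_mul, coeff_X_pow]
  split_ifs with h
  · rw [Finset.sum_eq_single j]
    · simp
    · intro b _ hb
      rw [if_neg (Ne.symm hb), mul_zero]
    · intro hj
      exact absurd (Finset.mem_range.mpr h) hj
  · apply Finset.sum_eq_zero
    intro i hi
    rw [Finset.mem_range] at hi
    rw [if_neg (by omega), mul_zero]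

lemma Dj_zero_of_gt {n f : ℕ} (h : Par p n f) {j : ℕ} (hj : 2 * f < j) : Dj n j = 0 := by
  unfold Dj
  rw [Nat.choose_eq_zero_of_lt (by rcases h with h | h <;> omega), zero_mul]

lemma coeff_HP {n f : ℕ} (h : Par p n f) (j : ℕ) : (HP p n f).coeff j = (Dj n j : ZMod p) * ((4 : ZMod p) ^ j)⁻¹ := by
  unfold HP
  rw [coeff_sum_C_mul_X_pow]
  split_ifs with hj
  · rfl
  · rw [Dj_zero_of_gt h (by omega)]; simp

lemma coeff_SP {n f : ℕ} (h : Par p n f) (j : ℕ) : (SP p n f).coeff j = (HP p n f).coeff j * Har p j := by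
  rw [coeff_HP h]
  unfold SP
  rw [coeff_sum_C_mul_X_pow]
  split_ifs with hj
  · rfl
  · rw [Dj_zero_of_gt h (by omega)]; simp

lemma HP_rec {n f : ℕ} (h : Par p n f) (j : ℕ) : 16 * ((j : ZMod p) + 1) ^ 2 * (HP p n f).coeff (j + 1) =
    (4 * (j : ZMod p) + 1) * (4 * (j : ZMod p) + 3) * (HP p n f).coeff j := by
  rw [coeff_HP h, coeff_HP h]
  have h4 := four_ne h.two_ne
  have hD : (Dj n (j + 1) : ZMod p) * ((j : ZMod p) + 1) ^ 2 = (Dj n j : ZMod p) * ((n : ZMod p) - 2 * j) * ((n : ZMod p) - 2 * j - 1) := by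
    have := congrArg (Int.cast : ℤ → ZMod p) (Dj_succ n j)
    push_cast at this
    exact this
  have h4j : (4 : ZMod p) ^ j ≠ 0 := pow_ne_zero _ h4
  rw [pow_succ (4 : ZMod p) j, mul_inv]
  have e : (4 : ZMod p) * (4 : ZMod p)⁻¹ = 1 := mul_inv_cancel₀ h4
  have hn := h.cast
  linear_combination (16 * ((4 : ZMod p) ^ j)⁻¹ * (4 : ZMod p)⁻¹) * hD
    + (4 * ((4 : ZMod p) ^ j)⁻¹ * (Dj n j : ZMod p) * ((n : ZMod p) - 2 * j) * ((n : ZMod p) - 2 * j - 1)) * e
    + (((4 : ZMod p) ^ j)⁻¹ * (Dj n j : ZMod p) * (2 * (n : ZMod p) - 8 * j - 3)) * hn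

lemma Dop_HP {n f : ℕ} (h : Par p n f) : Dop (HP p n f) = 0 := by
  ext j
  rw [coeff_Dop, HP_rec h, coeff_zero, sub_self]

lemma Dop_SP {n f : ℕ} (h : Par p n f) : Dop (SP p n f) = 16 * derivative (HP p n f) := by
  ext j
  have h16 : (16 : (ZMod p)[X]) = C 16 := (map_ofNat C 16).symm
  rw [coeff_Dop, h16, coeff_C_mul, coeff_derivative, coeff_SP h, coeff_SP h, Har_succ]
  by_cases hj : j < 2 * f
  · have hne : ((j + 1 : ℕ) : ZMod p) ≠ 0 := natCast_ne_zero_of_lt (by omega) (by rcases h with h | h <;> omega)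
    have hr := HP_rec h j
    have e : ((j : ZMod p) + 1) * ((j + 1 : ℕ) : ZMod p)⁻¹ = 1 := by
      have := mul_inv_cancel₀ hne
      push_cast at this ⊢
      exact this
    linear_combination (Har p j) * hr + (16 * ((j : ZMod p) + 1) * (HP p n f).coeff (j + 1)) * e
  · have h0 : (HP p n f).coeff (j + 1) = 0 := by
      rw [coeff_HP h, Dj_zero_of_gt h (by omega)]; simp
    have hr := HP_rec h j
    rw [h0] at hr ⊢
    linear_combination (Har p j) * hr

lemma ker_Dop {n f : ℕ} (h : Par p n f) (g : (ZMod p)[X]) (hD : Dop g = 0) (hdeg : ∀ j, 2 * f ≤ j → g.coeff j = 0) : g = 0 := by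
  by_contra hg
  have h1 : g.coeff g.natDegree ≠ 0 := by
    rw [coeff_natDegree]; exact leadingCoeff_ne_zero.mpr hg
  have h2 : g.natDegree < 2 * f := by
    by_contra h3
    exact h1 (hdeg _ (not_lt.mp h3))
  have h3 := coeff_Dop g g.natDegree
  rw [hD, coeff_zero, coeff_eq_zero_of_natDegree_lt (Nat.lt_succ_self _), mul_zero, zero_sub, eq_comm, neg_eq_zero] at h3
  rcases mul_eq_zero.mp h3 with h4 | h4
  · rcases mul_eq_zero.mp h4 with h5 | h5
    · have : ((4 * g.natDegree + 1 : ℕ) : ZMod p) ≠ 0 := natCast_ne_zero_of_lt (by omega) (by rcases h with h | h <;> omega)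
      apply this; push_cast; exact h5
    · have : ((4 * g.natDegree + 3 : ℕ) : ZMod p) ≠ 0 := natCast_ne_zero_of_lt (by omega) (by rcases h with h | h <;> omega)
      apply this; push_cast; exact h5
  · exact h1 h4

lemma natDegree_HP {n f : ℕ} (h : Par p n f) : (HP p n f).natDegree ≤ 2 * f := by
  rw [natDegree_le_iff_coeff_eq_zero]
  intro j hj
  rw [coeff_HP h, Dj_zero_of_gt h hj]; simp

lemma natDegree_SP {n f : ℕ} (h : Par p n f) : (SP p n f).natDegree ≤ 2 * f := by
  rw [natDegree_le_iff_coeff_eq_zero]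
  intro j hj
  rw [coeff_SP h, coeff_HP h, Dj_zero_of_gt h hj]; simp

lemma coeff_comp_gt {k : Type*} [Field k] (g : k[X]) {N j : ℕ} (hg : g.natDegree ≤ N) (hj : N < j) : (g.comp (1 - X)).coeff j = 0 := by
  apply coeff_eq_zero_of_natDegree_lt
  refine lt_of_le_of_lt natDegree_comp_le ?_
  rw [natDegree_one_sub_X, mul_one]
  omega

/-- reflection symmetry of `H` modulo `p` -/
theorem HP_symm {n f : ℕ} (h : Par p n f) : (HP p n f).comp (1 - X) = HP p n f := by
  rw [← sub_eq_zero]
  have hD0 := Dop_HP h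
  have hD1 : Dop ((HP p n f).comp (1 - X)) = 0 := by rw [Dop_comp, hD0, zero_comp]
  apply ker_Dop h
  · have : Dop ((HP p n f).comp (1 - X) - HP p n f) = Dop ((HP p n f).comp (1 - X)) - Dop (HP p n f) := by
      unfold Dop; simp only [derivative_sub]; ring
    rw [this, hD0, hD1, sub_zero]
  · intro j hj
    rw [coeff_sub]
    rcases eq_or_lt_of_le hj with hj | hj
    · subst hj
      rw [coeff_comp_one_sub _ _ (natDegree_HP h), pow_mul]
      simp
    · rw [coeff_comp_gt _ (natDegree_HP h) hj, coeff_eq_zero_of_natDegree_lt (lt_of_le_of_lt (natDegree_HP h) hj), sub_zero]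

lemma dHP_symm {n f : ℕ} (h : Par p n f) : (derivative (HP p n f)).comp (1 - X) = - derivative (HP p n f) := by
  have h1 := congrArg derivative (HP_symm h)
  rw [derivative_comp] at h1
  simp only [derivative_sub, derivative_one, derivative_X, zero_sub, neg_mul, one_mul] at h1
  exact neg_eq_iff_eq_neg.mp h1

/-- reflection symmetry of `S` -/
theorem SP_symm {n f : ℕ} (h : Par p n f) : SP p n f + (SP p n f).comp (1 - X) - C (2 * Har p (2 * f)) * HP p n f = 0 := by
  apply ker_Dop h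
  · have : Dop (SP p n f + (SP p n f).comp (1 - X) - C (2 * Har p (2 * f)) * HP p n f)
      = Dop (SP p n f) + Dop ((SP p n f).comp (1 - X)) - C (2 * Har p (2 * f)) * Dop (HP p n f) := by
      unfold Dop
      simp only [derivative_sub, derivative_add, derivative_mul, derivative_C, zero_mul, zero_add]
      ring
    rw [this, Dop_comp, Dop_SP h, Dop_HP h, mul_comp, dHP_symm h]
    simp
  · intro j hj
    rw [coeff_sub, coeff_add, coeff_C_mul]
    rcases eq_or_lt_of_le hj with hj | hj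
    · subst hj
      rw [coeff_comp_one_sub _ _ (natDegree_SP h), pow_mul, coeff_SP h]
      simp
      ring
    · rw [coeff_comp_gt _ (natDegree_SP h) hj, coeff_eq_zero_of_natDegree_lt (lt_of_le_of_lt (natDegree_HP h) hj),
        coeff_eq_zero_of_natDegree_lt (lt_of_le_of_lt (natDegree_SP h) hj)]
      simp

lemma SP_half {n f : ℕ} (h : Par p n f) : (SP p n f).eval (1 / 2) = Har p (2 * f) * (HP p n f).eval (1 / 2) := by
  have h1 := congrArg (eval (1 / 2 : ZMod p)) (SP_symm h)
  have h2 := h.two_ne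
  rw [eval_sub, eval_add, eval_comp, eval_mul, eval_C, eval_zero] at h1
  have e : eval (1 / 2 : ZMod p) (1 - X) = 1 / 2 := by
    simp only [eval_sub, eval_one, eval_X]; field_simp; norm_num
  rw [e] at h1
  have h3 : (2 : ZMod p) * (SP p n f).eval (1 / 2) = 2 * (Har p (2 * f) * (HP p n f).eval (1 / 2)) := by
    linear_combination h1
  exact mul_left_cancel₀ h2 h3

lemma dHP_half {n f : ℕ} (h : Par p n f) : (derivative (HP p n f)).eval (1 / 2) = 0 := by
  have h1 := congrArg (eval (1 / 2 : ZMod p)) (dHP_symm h)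
  have h2 := h.two_ne
  rw [eval_neg, eval_comp] at h1
  have e : eval (1 / 2 : ZMod p) (1 - X) = 1 / 2 := by
    simp only [eval_sub, eval_one, eval_X]; field_simp; norm_num
  rw [e] at h1
  have h3 : (2 : ZMod p) * (derivative (HP p n f)).eval (1 / 2) = 0 := by linear_combination h1
  exact (mul_eq_zero.mp h3).resolve_left h2

end Pool.Agent.Pell
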