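import Pool.Agent.Pell.Core

namespace Pool.Agent.Pell

open Finset Polynomial

variable {p : ℕ} [hp : Fact p.Prime]

lemma four_ne_zero_of (n : ℕ) (hn : p = 2 * n + 1) : (4 : ZMod p) ≠ 0 := by
  have h2 := two_ne_zero_of (p := p) n hn
  have : (4 : ZMod p) = 2 * 2 := by norm_num
  rw [this]; exact mul_ne_zero h2 h2

lemma red_four : red p (4 : ZMod (p ^ 2)) = (4 : ZMod p) := by
  exact_mod_cast red_natCast (p := p) 4

lemma Kf_sq (f : ℕ) (h4 : (4 : ZMod p) ≠ 0) (h2 : (2 : ZMod p) ≠ 0) :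
    (16 : ZMod (p ^ 2)) ^ f * Kf p f ^ 2 =
      (((2 * f).choose f : ℕ) : ZMod (p ^ 2)) ^ 2 * uu p ((Har p f - Har p (2 * f)) / 2) := by
  have h1 : (4 : ZMod (p ^ 2)) ^ f * ((4 : ZMod (p ^ 2)) ^ f)⁻¹ = 1 := by
    apply mul_inv_self'
    rw [map_pow, red_four]; exact pow_ne_zero _ h4
  have e16 : (16 : ZMod (p ^ 2)) ^ f = 4 ^ f * 4 ^ f := by rw [← mul_pow]; norm_num
  have e2 : (1 + eps p ((Har p f - Har p (2 * f)) / 4)) ^ 2 = uu p ((Har p f - Har p (2 * f)) / 2) := by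
    have : (1 + eps p ((Har p f - Har p (2 * f)) / 4)) ^ 2 =
      uu p ((Har p f - Har p (2 * f)) / 4) * uu p ((Har p f - Har p (2 * f)) / 4) := by unfold uu; ring
    rw [this, uu_mul]
    congr 1
    have : (4 : ZMod p) = 2 * 2 := by norm_num
    rw [this]
    field_simp
    ring
  have e3 : ((-1 : ZMod (p ^ 2)) ^ f) ^ 2 = 1 := by rw [← pow_mul, mul_comm, pow_mul]; simp
  unfold Kf
  rw [mul_pow, mul_pow, mul_pow, e2, e16, e3]
  linear_combination ((((2 * f).choose f : ℕ) : ZMod (p ^ 2)) ^ 2 * uu p ((Har p f - Har p (2 * f)) / 2) *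
    ((4 : ZMod (p ^ 2)) ^ f * ((4 : ZMod (p ^ 2)) ^ f)⁻¹ + 1)) * h1

/-- Part II for `p = 8f+1` -/
theorem part2_A (f : ℕ) (hf : p = 8 * f + 1) (x y : ℤ) (hXY : x ^ 2 + 2 * y ^ 2 = p) :
    (2 : ZMod (p ^ 2)) ^ (4 * f) * Kf p f ^ 2 = 4 * (x : ZMod (p ^ 2)) ^ 2 - 2 * (p : ZMod (p ^ 2)) := by
  have hpp := hp.out.two_le
  have hf0 : 0 < f := by
    rcases Nat.eq_zero_or_pos f with h | h
    · exfalso; rw [h] at hf; exact hp.out.one_lt.ne' (by omega)
    · exact h
  have hp2 : p ≠ 2 := by omega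
  have hn : p = 2 * (4 * f) + 1 := by omega
  have h2 := two_ne_zero_of (p := p) (4 * f) hn
  have h4 := four_ne_zero_of (p := p) (4 * f) hn
  obtain ⟨g, hg⟩ := IsCyclic.exists_generator (α := (ZMod p)ˣ)
  have hcard : Fintype.card (ZMod p) = p := ZMod.card p
  obtain ⟨n0, n1, hn01, U, hU1, hU2⟩ := core (p := p) (k := ZMod p) hp2 g hg f (by rw [hcard]; omega)
  rw [hcard] at hn01 hU1
  have hJ := jsum_A (k := ZMod p) hp2 hcard g hg (2 * f) f hf0 (by omega) (by omega)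
  have hJv := jsum_A_val (p := p) hp2 f hf0 (by omega)
  rw [show 8 * f - f = p - 1 - f by omega, hJ] at hU2
  set Z : ℤ := ((p - 1 : ℕ) : ℤ) * ((((1 - X : ℤ[X]) ^ (2 * f)).coeff f) -
        p * (2 * f : ℕ) * ((LL p * (1 - X) ^ (2 * f - 1)).coeff f + (LL p * (1 - X) ^ (2 * f - 1)).coeff (f + (p - 1)))) with hZ
  set c := tau p (4 : ZMod p) ^ (7 * f) with hc
  have hc2 : c * c = 1 := by
    rw [hc, ← pow_add, ← tau_pow]
    have : (4 : ZMod p) ^ (7 * f + 7 * f) = 1 := by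
      have h1 := two_pow_half_one (p := p) f hf
      calc (4 : ZMod p) ^ (7 * f + 7 * f) = (2 ^ (4 * f)) ^ 7 := by
            rw [show (4 : ZMod p) = 2 ^ 2 by norm_num, ← pow_mul, ← pow_mul]; congr 1; ring
        _ = 1 := by rw [h1, one_pow]
    rw [this]; unfold tau; rw [map_one, map_one]
  have hU3 : U * U = ((Z * Z : ℤ) : W2 p (ZMod p)) := by
    rw [hU2]; push_cast
    linear_combination ((Z : W2 p (ZMod p)) * Z) * hc2
  have hCne : (((2 * f).choose f : ℕ) : ZMod p) ≠ 0 := choose_ne_zero_of_lt (by omega) (by omega)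
  have hZred : ((Z : ℤ) : ZMod p) ≠ 0 := by
    have := congrArg (red p) hJv
    rw [red_intCast] at this
    rw [this]
    simp only [map_mul, map_neg, map_pow, map_one, red_natCast, red_uu, mul_one]
    exact neg_ne_zero.mpr (mul_ne_zero (pow_ne_zero _ (neg_ne_zero.mpr one_ne_zero)) hCne)
  have hZu : IsUnit ((Z * Z : ℤ) : W2 p (ZMod p)) := by
    apply isUnit_W2_int
    intro h
    apply mul_ne_zero hZred hZred
    rw [← Int.cast_mul]
    exact (ZMod.intCast_zmod_eq_zero_iff_dvd _ _).mpr h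
  set V := 2 * (n0 : W2 p (ZMod p)) - U with hV
  have hV2 : V * V = 0 := by
    have h1 : ((Z * Z : ℤ) : W2 p (ZMod p)) * (V * V) = ((Z * Z : ℤ) : W2 p (ZMod p)) * 0 := by
      rw [← hU3, mul_zero]
      have : U * U * (V * V) = (U * V) * (U * V) := by ring
      rw [this, hU1]; exact W2_p_sq
    exact hZu.mul_left_cancel h1
  have hfin : ((4 * n0 ^ 2 - 2 * p : ℤ) : W2 p (ZMod p)) = ((Z * Z : ℤ) : W2 p (ZMod p)) := by
    rw [← hU3]
    push_cast
    have e : (2 : W2 p (ZMod p)) * n0 = U + V := by rw [hV]; ring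
    linear_combination (2 * (n0 : W2 p (ZMod p)) + U + V) * e + 2 * hU1 + hV2
  have hfinZ := W2_int_eq hfin
  have hn0X := (rep_A hp.out hn01 hXY).1
  rw [hn0X] at hfinZ
  push_cast at hfinZ
  rw [hfinZ]
  have e16 : (2 : ZMod (p ^ 2)) ^ (4 * f) = 16 ^ f := by rw [pow_mul]; norm_num
  rw [e16, Kf_sq f h4 h2, hJv]
  have e3 : ((-1 : ZMod (p ^ 2)) ^ f) * ((-1 : ZMod (p ^ 2)) ^ f) = 1 := by rw [← mul_pow]; simp
  have e4 : uu p (2 * (f : ZMod p) * (Har p (2 * f) - Har p f)) * uu p (2 * (f : ZMod p) * (Har p (2 * f) - Har p f)) =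
      uu p ((Har p f - Har p (2 * f)) / 2) := by
    rw [uu_mul]
    congr 1
    have h8 : (8 : ZMod p) * (f : ZMod p) = -1 := by
      have : ((8 * f + 1 : ℕ) : ZMod p) = 0 := by rw [← hf]; exact ZMod.natCast_self p
      push_cast at this
      linear_combination this
    field_simp
    linear_combination (Har p (2 * f) - Har p f) * h8
  linear_combination (-(((2 * f).choose f : ℕ) : ZMod (p ^ 2)) ^ 2 * uu p (2 * (f : ZMod p) * (Har p (2 * f) - Har p f)) ^ 2) * e3
    - ((((2 * f).choose f : ℕ) : ZMod (p ^ 2)) ^ 2) * e4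

/-- Part II for `p = 8f+3`, `f ≥ 1` -/
theorem part2_B (f : ℕ) (hf : p = 8 * f + 3) (hf0 : 0 < f) (x y : ℤ) (hXY : x ^ 2 + 2 * y ^ 2 = p) :
    - (2 : ZMod (p ^ 2)) ^ (4 * f + 1) * Kf p f ^ 2 = 4 * (x : ZMod (p ^ 2)) ^ 2 - 2 * (p : ZMod (p ^ 2)) := by
  classical
  have hpp := hp.out.two_le
  have hp2 : p ≠ 2 := by omega
  have hn : p = 2 * (4 * f + 1) + 1 := by omega
  have h2 := two_ne_zero_of (p := p) (4 * f + 1) hn
  have h4 := four_ne_zero_of (p := p) (4 * f + 1) hn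
  letI : Fintype (GaloisField p 2) := Fintype.ofFinite _
  have hcard : Fintype.card (GaloisField p 2) = p ^ 2 := by
    rw [← Nat.card_eq_fintype_card]; exact GaloisField.card p 2 two_ne_zero
  obtain ⟨g, hg⟩ := IsCyclic.exists_generator (α := (GaloisField p 2)ˣ)
  have hβ8 : p ^ 2 - 1 = 8 * (p * f + (3 * f + 1)) := by
    have : p ^ 2 = 8 * (p * f + (3 * f + 1)) + 1 := by rw [hf]; ring
    omega
  obtain ⟨n0, n1, hn01, U, hU1, hU2⟩ := core (p := p) (k := GaloisField p 2) hp2 g hg (p * f + (3 * f + 1)) (by rw [hcard, hβ8])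
  rw [hcard] at hn01 hU1
  have hJ := jsum_B (k := GaloisField p 2) hp2 hcard g hg (2 * f) (2 * (3 * f + 1)) f (3 * f + 1) hf0 (by omega) (by omega) (by omega)
    (by omega) (by omega)
  have hJv := jsum_B_val (p := p) f (3 * f + 1) hf0 (by omega) (by omega) (by omega)
  rw [show 8 * (p * f + (3 * f + 1)) - (p * f + (3 * f + 1)) = p ^ 2 - 1 - (p * f + (3 * f + 1)) by omega,
    show 2 * (p * f + (3 * f + 1)) = p * (2 * f) + 2 * (3 * f + 1) by ring, hJ] at hU2
  set Z : ℤ := (((p ^ 2 - 1 : ℕ) : ℤ) * (((1 - X : ℤ[X]) ^ (2 * f)).coeff f * ((1 - X : ℤ[X]) ^ (2 * (3 * f + 1))).coeff (3 * f + 1) -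
        p * (2 * f : ℕ) * (((1 - X : ℤ[X]) ^ (2 * f - 1)).coeff f * (LL p * (1 - X) ^ (2 * (3 * f + 1))).coeff (3 * f + 1) +
          ((1 - X : ℤ[X]) ^ (2 * f - 1)).coeff (f - 1) * (LL p * (1 - X) ^ (2 * (3 * f + 1))).coeff (3 * f + 1 + p)) -
        p * (2 * (3 * f + 1) : ℕ) * ((LL p * (1 - X) ^ (2 * f)).coeff f * ((1 - X : ℤ[X]) ^ (2 * (3 * f + 1) - 1)).coeff (3 * f + 1) +
          (LL p * (1 - X) ^ (2 * f)).coeff (f + p) * ((1 - X : ℤ[X]) ^ (2 * (3 * f + 1) - 1)).coeff (3 * f + 1 - 1)))) with hZ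
  have hc1 : tau p (4 : GaloisField p 2) ^ (7 * (p * f + (3 * f + 1))) = 1 := by
    rw [← tau_pow]
    have h1 : (4 : GaloisField p 2) ^ (7 * (p * f + (3 * f + 1))) = 1 := by
      have h1 := two_pow_half_three (p := p) f hf
      have h1' : (2 : GaloisField p 2) ^ (4 * f + 1) = -1 := by
        have := congrArg (algebraMap (ZMod p) (GaloisField p 2)) h1
        rw [map_pow, map_neg, map_one, map_ofNat] at this
        exact this
      have h3 : p * f + (3 * f + 1) = (4 * f + 1) * (2 * f + 1) := by rw [hf]; ring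
      calc (4 : GaloisField p 2) ^ (7 * (p * f + (3 * f + 1))) = ((2 ^ (4 * f + 1)) ^ 2) ^ ((2 * f + 1) * 7) := by
            rw [show (4 : GaloisField p 2) = 2 ^ 2 by norm_num, h3, ← pow_mul, ← pow_mul, ← pow_mul]; congr 1; ring
        _ = 1 := by rw [h1']; simp
    rw [h1]; unfold tau; rw [map_one, map_one]
  rw [hc1, one_mul] at hU2
  -- value of Z
  set Cf := (((2 * f).choose f : ℕ) : ZMod (p ^ 2)) with hCf
  have hZval : ((Z : ℤ) : ZMod (p ^ 2)) = 2 * Cf ^ 2 * uu p ((Har p f - Har p (2 * f)) / 2) := by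
    rw [hZ, hJv]
    have hcB := choose_B (p := p) f hf
    rw [show 2 * (3 * f + 1) = 6 * f + 2 by ring, hcB]
    have e1 : (-1 : ZMod (p ^ 2)) ^ (f + (3 * f + 1)) = -1 := by
      rw [show f + (3 * f + 1) = 2 * (2 * f) + 1 by ring, pow_succ (-1 : ZMod (p ^ 2)) (2 * (2 * f)), pow_mul]; norm_num
    rw [e1]
    have hH1 : Har p (6 * f + 2) = Har p (2 * f) := by
      rw [show 6 * f + 2 = p - 1 - 2 * f by omega]; exact Har_reflect hp2 _ (by omega)
    have hH2 : Har p (3 * f + 1) = Har p (4 * f + 1) + 2 * (Har p (2 * f) - Har p f / 2) := by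
      rw [show 3 * f + 1 = p - 1 - (4 * f + 1 + f) by omega, Har_reflect hp2 _ (by omega),
        Har_dup (4 * f + 1) f hn (by omega), sum_odd f h2]
    rw [hH1, hH2]
    have h8 : (8 : ZMod p) * (f : ZMod p) = -3 := by
      have : ((8 * f + 3 : ℕ) : ZMod p) = 0 := by rw [← hf]; exact ZMod.natCast_self p
      push_cast at this
      linear_combination this
    have hfv : (f : ZMod p) = -3 / 8 := by
      have h8' : (8 : ZMod p) ≠ 0 := by
        have : (8 : ZMod p) = 2 * 4 := by norm_num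
        rw [this]; exact mul_ne_zero h2 h4
      field_simp
      linear_combination h8
    have e2 : uu p (Har p f - Har p (2 * f) - 3 / 4 * Har p (4 * f + 1)) *
        uu p (2 * (f : ZMod p) * (Har p (2 * f) - (Har p (4 * f + 1) + 2 * (Har p (2 * f) - Har p f / 2))) +
          2 * ((3 * f + 1 : ℕ) : ZMod p) * (Har p (2 * f) - Har p f)) = uu p ((Har p f - Har p (2 * f)) / 2) := by
      rw [uu_mul]
      congr 1
      push_cast
      rw [hfv]
      have h8' : (8 : ZMod p) ≠ 0 := by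
        have : (8 : ZMod p) = 2 * 4 := by norm_num
        rw [this]; exact mul_ne_zero h2 h4
      have e84 : (8 : ZMod p) = 2 * 2 * 2 := by norm_num
      have e44 : (4 : ZMod p) = 2 * 2 := by norm_num
      rw [e84, e44]
      field_simp
      ring
    linear_combination (2 * Cf ^ 2) * e2
  have hCne : (((2 * f).choose f : ℕ) : ZMod p) ≠ 0 := choose_ne_zero_of_lt (by omega) (by omega)
  have hZred : ((Z : ℤ) : ZMod p) = 2 * (((2 * f).choose f : ℕ) : ZMod p) ^ 2 := by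
    have := congrArg (red p) hZval
    rw [red_intCast] at this
    rw [this]
    simp only [map_mul, map_pow, red_uu, mul_one, red_two, hCf, red_natCast]
  have hZne : ((Z : ℤ) : ZMod p) ≠ 0 := by
    rw [hZred]; exact mul_ne_zero h2 (pow_ne_zero 2 hCne)
  have hZu : IsUnit ((Z : ℤ) : W2 p (GaloisField p 2)) := by
    apply isUnit_W2_int
    intro h
    apply hZne
    exact (ZMod.intCast_zmod_eq_zero_iff_dvd _ _).mpr h
  have hU0 : 2 * (n0 : W2 p (GaloisField p 2)) - U = 0 := by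
    have h1 : U * (2 * n0 - U) = U * 0 := by
      rw [hU1, mul_zero]; push_cast; rw [pow_two]; exact W2_p_sq
    rw [hU2] at h1 ⊢
    exact hZu.mul_left_cancel h1
  have hfin : ((2 * n0 : ℤ) : W2 p (GaloisField p 2)) = ((Z : ℤ) : W2 p (GaloisField p 2)) := by
    push_cast
    rw [← hU2]
    exact sub_eq_zero.mp hU0
  have hfinZ := W2_int_eq hfin
  -- n0 modulo p is a nonzero square
  have hn0red : ((n0 : ℤ) : ZMod p) = (((2 * f).choose f : ℕ) : ZMod p) ^ 2 := by
    have h1 := congrArg (red p) hfinZ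
    rw [red_intCast, red_intCast, hZred] at h1
    push_cast at h1
    exact mul_left_cancel₀ h2 (by linear_combination h1)
  have hn0p : ¬ (p : ℤ) ∣ n0 := by
    intro h
    have : ((n0 : ℤ) : ZMod p) = 0 := (ZMod.intCast_zmod_eq_zero_iff_dvd _ _).mpr h
    rw [hn0red] at this
    exact hCne (pow_eq_zero_iff two_ne_zero |>.mp this)
  have hn01' : n0 ^ 2 + 2 * n1 ^ 2 = (p : ℤ) ^ 2 := by rw [hn01]; push_cast; ring
  have hn0 : n0 = - (2 * x ^ 2 - p) := by
    rcases rep_B hp.out hn01' hXY hp2 hn0p with h | h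
    · exfalso
      have h3 : ((n0 : ℤ) : ZMod p) = 2 * (x : ZMod p) ^ 2 := by
        rw [h]; push_cast; rw [ZMod.natCast_self]; ring
      rw [hn0red] at h3
      have hX0 : (x : ZMod p) ≠ 0 := by
        intro h0
        rw [h0] at h3
        apply hCne
        apply pow_eq_zero_iff two_ne_zero |>.mp
        rw [h3]; ring
      have hsq : IsSquare (2 : ZMod p) := by
        refine ⟨(((2 * f).choose f : ℕ) : ZMod p) / x, ?_⟩
        field_simp
        linear_combination -h3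
      rw [ZMod.exists_sq_eq_two_iff hp2] at hsq
      omega
    · exact h
  have hres : (4 : ZMod (p ^ 2)) * (x : ZMod (p ^ 2)) ^ 2 - 2 * (p : ZMod (p ^ 2)) = - (2 * Cf ^ 2 * uu p ((Har p f - Har p (2 * f)) / 2)) := by
    rw [← hZval, ← hfinZ, hn0]
    push_cast
    ring
  rw [hres]
  have e16 : (2 : ZMod (p ^ 2)) ^ (4 * f + 1) = 16 ^ f * 2 := by
    rw [pow_succ (2 : ZMod (p ^ 2)) (4 * f), pow_mul]; norm_num
  rw [e16]
  have := Kf_sq (p := p) f h4 h2
  linear_combination (-2 : ZMod (p ^ 2)) * this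

end Pool.Agent.Pell
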