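import Pool.Agent.Pell.Part2

namespace Pool.Agent.Pell

open Finset Polynomial

/-- `T_n = (2+√2)^n + (2-√2)^n` -/
def Tseq : ℕ → ℤ
  | 0 => 2
  | 1 => 4
  | (n + 2) => 4 * Tseq (n + 1) - 2 * Tseq n

lemma Tseq_eq {A : Type*} [CommRing A] (r : A) (hr : r ^ 2 = 2) (n : ℕ) :
    (2 + r) ^ n + (2 - r) ^ n = (Tseq n : A) := by
  induction n using Nat.twoStepInduction with
  | zero => norm_num [Tseq]
  | one => norm_num [Tseq]
  | more n h0 h1 =>
    rw [Tseq]
    push_cast
    rw [← h0, ← h1]
    linear_combination ((2 + r) ^ n + (2 - r) ^ n) * hr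

lemma sum_sign_mod_four {ι : Type*} (s : Finset ι) (ε : ι → ℤ) (h : ∀ i ∈ s, ε i = 1 ∨ ε i = -1) :
    (4 : ℤ) ∣ ∑ i ∈ s, ε i - ((s.card : ℤ) - 1 + ∏ i ∈ s, ε i) ∧ (∏ i ∈ s, ε i = 1 ∨ ∏ i ∈ s, ε i = -1) := by
  classical
  induction s using Finset.induction_on with
  | empty => simp
  | insert a s ha ih =>
    obtain ⟨⟨c, hc⟩, hP⟩ := ih (fun i hi => h i (Finset.mem_insert_of_mem hi))
    have hea := h a (Finset.mem_insert_self a s)
    rw [Finset.sum_insert ha, Finset.prod_insert ha, Finset.card_insert_of_notMem ha]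
    push_cast
    constructor
    · rcases hP with hP | hP <;> rcases hea with he | he <;> rw [hP] at hc <;> rw [hP, he]
      · exact ⟨c, by linear_combination hc⟩
      · exact ⟨c, by linear_combination hc⟩
      · exact ⟨c, by linear_combination hc⟩
      · exact ⟨c - 1, by linear_combination hc⟩
    · rcases hP with hP | hP <;> rcases hea with he | he <;> rw [hP, he] <;> norm_num

variable {p : ℕ} [hp : Fact p.Prime]

/-- power sums over `ZMod p` -/
lemma psum {i : ℕ} (h0 : 0 < i) (hi : i < 2 * (p - 1)) :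
    ∑ x : ZMod p, x ^ i = if i = p - 1 then -1 else 0 := by
  have hpp := hp.out.two_le
  rcases lt_trichotomy i (p - 1) with h | h | h
  · rw [if_neg h.ne]
    have := FiniteField.sum_pow_lt_card_sub_one (K := ZMod p) i (by rw [ZMod.card]; exact h)
    exact this
  · rw [if_pos h, h]
    have h1 : ∀ x ∈ (univ : Finset (ZMod p)).erase 0, x ^ (p - 1) = 1 := by
      intro x hx
      rw [Finset.mem_erase] at hx
      exact ZMod.pow_card_sub_one_eq_one hx.1
    rw [← Finset.sum_erase (s := univ) (a := (0 : ZMod p)) (f := fun x => x ^ (p - 1)) (by rw [zero_pow (by omega)]),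
      Finset.sum_congr rfl h1, Finset.sum_const, Finset.card_erase_of_mem (Finset.mem_univ _), Finset.card_univ, ZMod.card]
    rw [nsmul_eq_mul, mul_one, Nat.cast_sub (by omega), ZMod.natCast_self]
    simp
  · rw [if_neg h.ne']
    have h1 : ∀ x : ZMod p, x ^ i = x ^ (i - (p - 1)) := by
      intro x
      have : i = p + (i - p) := by omega
      conv_lhs => rw [this, pow_add, ZMod.pow_card]
      rw [← pow_succ']
      congr 1
      omega
    rw [Finset.sum_congr rfl (fun x _ => h1 x)]
    exact FiniteField.sum_pow_lt_card_sub_one (K := ZMod p) _ (by rw [ZMod.card]; omega)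

/-- `H(1/2) mod p` -/
noncomputable def Hh (p n : ℕ) [Fact p.Prime] : ZMod p :=
  ∑ j ∈ range (n / 2 + 1), (n.choose (2 * j) : ZMod p) * ((2 * j).choose j : ZMod p) * ((8 : ZMod p) ^ j)⁻¹

/-- the character sum -/
noncomputable def SS (p : ℕ) [Fact p.Prime] : ℤ := ∑ x : ZMod p, quadraticChar (ZMod p) (x * (x ^ 2 + 4 * x + 2))

lemma SS_cast (n : ℕ) (hn : p = 2 * n + 1) (hn0 : 0 < n) : ((SS p : ℤ) : ZMod p) = - Hh p n := by
  have h2 := two_ne_zero_of (p := p) n hn
  have hch : ringChar (ZMod p) ≠ 2 := by rw [ZMod.ringChar_zmod_n]; omega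
  have h8 : (8 : ZMod p) ≠ 0 := by
    have : (8 : ZMod p) = 2 ^ 3 := by norm_num
    rw [this]; exact pow_ne_zero _ h2
  unfold SS
  push_cast
  have h1 : ∀ x : ZMod p, ((quadraticChar (ZMod p) (x * (x ^ 2 + 4 * x + 2)) : ℤ) : ZMod p) =
      ∑ m ∈ range (n + 1), ∑ i ∈ range (m + 1), ((n.choose m : ZMod p) * 4 ^ (n - m) * ((m.choose i : ZMod p) * 2 ^ (m - i))) *
        x ^ (2 * n - m + 2 * i) := by
    intro x
    rw [quadraticChar_eq_pow_of_char_ne_two' hch, ZMod.card, show p / 2 = n by omega, mul_pow]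
    have : x ^ 2 + 4 * x + 2 = (x ^ 2 + 2) + 4 * x := by ring
    rw [this, add_pow, Finset.mul_sum]
    apply Finset.sum_congr rfl
    intro m hm
    rw [Finset.mem_range] at hm
    rw [add_pow (x ^ 2) 2 m, Finset.sum_mul, Finset.sum_mul, Finset.mul_sum]
    apply Finset.sum_congr rfl
    intro i hi
    have e : x ^ (2 * n - m + 2 * i) = x ^ n * x ^ (n - m) * (x ^ 2) ^ i := by
      rw [← pow_mul, ← pow_add, ← pow_add]; congr 1; omega
    rw [e, mul_pow]
    ring
  rw [Finset.sum_congr rfl (fun x _ => h1 x), Finset.sum_comm]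
  have h3 : ∀ m ∈ range (n + 1), ∑ x : ZMod p, ∑ i ∈ range (m + 1), ((n.choose m : ZMod p) * 4 ^ (n - m) * ((m.choose i : ZMod p) * 2 ^ (m - i))) *
        x ^ (2 * n - m + 2 * i) = if Even m then -((n.choose m : ZMod p) * ((m.choose (m / 2) : ZMod p)) * ((8 : ZMod p) ^ (m / 2))⁻¹) else 0 := by
    intro m hm
    rw [Finset.mem_range] at hm
    rw [Finset.sum_comm]
    have h4 : ∀ i ∈ range (m + 1), ∑ x : ZMod p, ((n.choose m : ZMod p) * 4 ^ (n - m) * ((m.choose i : ZMod p) * 2 ^ (m - i))) *
        x ^ (2 * n - m + 2 * i) = if m = 2 * i then -((n.choose m : ZMod p) * 4 ^ (n - m) * ((m.choose i : ZMod p) * 2 ^ (m - i))) else 0 := by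
      intro i hi
      rw [Finset.mem_range] at hi
      rw [← Finset.mul_sum, psum (by omega) (by omega)]
      by_cases h : m = 2 * i
      · rw [if_pos (by omega), if_pos h]; ring
      · rw [if_neg (by omega), if_neg h]; ring
    rw [Finset.sum_congr rfl h4]
    split_ifs with he
    · obtain ⟨i, hi⟩ := he
      rw [Finset.sum_eq_single i]
      · rw [if_pos (by omega), show m / 2 = i by omega]
        have h4n : (4 : ZMod p) ^ n = 1 := by
          have : (4 : ZMod p) ^ n = 2 ^ (p - 1) := by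
            rw [show (4 : ZMod p) = 2 ^ 2 by norm_num, ← pow_mul]; congr 1; omega
          rw [this]; exact ZMod.pow_card_sub_one_eq_one h2
        have e1 : (4 : ZMod p) ^ (n - m) * 4 ^ m = 1 := by rw [← pow_add, Nat.sub_add_cancel (by omega), h4n]
        have e2 : (4 : ZMod p) ^ m = 8 ^ i * 2 ^ i := by
          rw [hi, ← mul_pow]
          rw [show (8 * 2 : ZMod p) = 4 ^ 2 by norm_num, ← pow_mul]; congr 1; omega
        have e3 : m - i = i := by omega
        rw [e3]
        have h8i : (8 : ZMod p) ^ i ≠ 0 := pow_ne_zero _ h8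
        rw [e2] at e1
        field_simp
        linear_combination (-(n.choose m : ZMod p) * (m.choose i : ZMod p)) * e1
      · intro b _ hb
        rw [if_neg (by omega)]
      · intro hni
        exfalso; apply hni; rw [Finset.mem_range]; omega
    · apply Finset.sum_eq_zero
      intro i _
      rw [if_neg]
      rintro rfl
      exact he (even_two_mul i)
  rw [Finset.sum_congr rfl h3, ← Finset.sum_filter]
  unfold Hh
  rw [← Finset.sum_neg_distrib]
  symm
  apply Finset.sum_nbij' (fun j => 2 * j) (fun m => m / 2)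
  · intro j hj
    rw [Finset.mem_range] at hj
    rw [Finset.mem_filter, Finset.mem_range]
    exact ⟨by omega, even_two_mul j⟩
  · intro m hm
    rw [Finset.mem_filter, Finset.mem_range] at hm
    rw [Finset.mem_range]
    omega
  · intro j _; simp
  · intro m hm
    rw [Finset.mem_filter] at hm
    exact Nat.two_mul_div_two_of_even hm.2
  · intro j _
    simp

end Pool.Agent.Pell
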