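import Pool.Agent.Pell.Sign

namespace Pool.Agent.Pell

open Finset Polynomial

variable {p : ℕ} [hp : Fact p.Prime]

/-- abbreviation for the quadratic character -/
noncomputable abbrev qc (p : ℕ) [Fact p.Prime] : MulChar (ZMod p) ℤ := quadraticChar (ZMod p)

lemma card_fiber (h2 : (2 : ZMod p) ≠ 0) (hch : ringChar (ZMod p) ≠ 2) (w : ZMod p) :
    ((((univ : Finset (ZMod p)).erase 0).filter (fun x => x + 2 * x⁻¹ = w)).card : ℤ) = qc p (w ^ 2 - 8) + 1 := by
  have h1 := quadraticChar_card_sqrts hch (w ^ 2 - 8)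
  rw [← h1]
  congr 1
  apply Finset.card_nbij' (fun x => 2 * x - w) (fun s => (w + s) / 2)
  · intro x hx
    simp only [Finset.coe_filter, Finset.mem_erase, Finset.mem_univ, and_true, Set.mem_setOf_eq] at hx
    simp only [Set.coe_toFinset, Set.mem_setOf_eq]
    have hx0 := hx.1
    rw [← hx.2]
    field_simp
    ring
  · intro s hs
    simp only [Set.coe_toFinset, Set.mem_setOf_eq] at hs
    simp only [Finset.coe_filter, Finset.mem_erase, Finset.mem_univ, and_true, Set.mem_setOf_eq]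
    have hprod : (w + s) * (w - s) = 8 := by linear_combination -hs
    have h0 : w + s ≠ 0 := by
      intro h0
      rw [h0, zero_mul] at hprod
      have : (8 : ZMod p) = 2 ^ 3 := by norm_num
      rw [this] at hprod
      exact pow_ne_zero 3 h2 hprod.symm
    refine ⟨div_ne_zero h0 h2, ?_⟩
    field_simp
    linear_combination (-1 : ZMod p) * hprod
  · intro x _; field_simp; ring
  · intro x _; field_simp; ring

lemma SS_w (h2 : (2 : ZMod p) ≠ 0) (hch : ringChar (ZMod p) ≠ 2) :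
    SS p = ∑ w : ZMod p, (qc p (w ^ 2 - 8) + 1) * qc p (w + 4) := by
  unfold SS
  rw [← Finset.sum_erase (s := univ) (a := (0 : ZMod p)) (by simp)]
  have h1 : ∀ x ∈ (univ : Finset (ZMod p)).erase 0, quadraticChar (ZMod p) (x * (x ^ 2 + 4 * x + 2)) = qc p (x + 2 * x⁻¹ + 4) := by
    intro x hx
    have hx0 : x ≠ 0 := (Finset.mem_erase.mp hx).1
    have e : x * (x ^ 2 + 4 * x + 2) = x ^ 2 * (x + 2 * x⁻¹ + 4) := by field_simp; ring
    rw [e, map_mul, quadraticChar_sq_one' hx0, one_mul]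
  rw [Finset.sum_congr rfl h1]
  rw [← Finset.sum_fiberwise_of_maps_to (s := (univ : Finset (ZMod p)).erase 0) (t := univ) (g := fun x : ZMod p => x + 2 * x⁻¹)
    (fun _ _ => Finset.mem_univ _)]
  apply Finset.sum_congr rfl
  intro w _
  rw [Finset.sum_congr rfl (g := fun _ => qc p (w + 4)) (by
    intro x hx
    rw [Finset.mem_filter] at hx
    rw [hx.2]), Finset.sum_const, nsmul_eq_mul, card_fiber h2 hch]

lemma card_total (h2 : (2 : ZMod p) ≠ 0) (hch : ringChar (ZMod p) ≠ 2) :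
    ∑ w : ZMod p, (qc p (w ^ 2 - 8) + 1) = (p : ℤ) - 1 := by
  have h1 := Finset.card_eq_sum_card_fiberwise (s := (univ : Finset (ZMod p)).erase 0) (t := (univ : Finset (ZMod p)))
    (f := fun x : ZMod p => x + 2 * x⁻¹) (fun _ _ => Finset.mem_univ _)
  rw [Finset.card_erase_of_mem (Finset.mem_univ _), Finset.card_univ, ZMod.card] at h1
  have h3 : ((p - 1 : ℕ) : ℤ) = ∑ w : ZMod p, (qc p (w ^ 2 - 8) + 1) := by
    rw [h1]
    push_cast
    apply Finset.sum_congr rfl
    intro w _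
    exact card_fiber h2 hch w
  rw [← h3, Nat.cast_sub hp.out.pos]
  simp

/-- the set of `w` with `w² - 8` a nonzero square -/
noncomputable def Ap (p : ℕ) [Fact p.Prime] : Finset (ZMod p) := univ.filter (fun w => qc p (w ^ 2 - 8) = 1)

/-- the set of `w` with `w² = 8` -/
noncomputable def Az (p : ℕ) [Fact p.Prime] : Finset (ZMod p) := univ.filter (fun w => w ^ 2 - 8 = 0)

lemma weighted_sum (G : ZMod p → ℤ) : ∑ w : ZMod p, (qc p (w ^ 2 - 8) + 1) * G w =
    2 * ∑ w ∈ Ap p, G w + ∑ w ∈ Az p, G w := by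
  unfold Ap Az
  rw [Finset.sum_filter, Finset.sum_filter, Finset.mul_sum, ← Finset.sum_add_distrib]
  apply Finset.sum_congr rfl
  intro w _
  by_cases h0 : w ^ 2 - 8 = 0
  · rw [if_pos h0]
    have : qc p (w ^ 2 - 8) = 0 := by rw [h0, MulChar.map_zero]
    rw [this]
    simp
  · rw [if_neg h0]
    rcases quadraticChar_dichotomy h0 with h | h
    · have h' : qc p (w ^ 2 - 8) = 1 := h
      rw [h', if_pos rfl]; ring
    · have h' : qc p (w ^ 2 - 8) = -1 := h
      rw [h', if_neg (by norm_num)]; ring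

lemma card_Ap (h2 : (2 : ZMod p) ≠ 0) (hch : ringChar (ZMod p) ≠ 2) :
    2 * ((Ap p).card : ℤ) + (Az p).card = (p : ℤ) - 1 := by
  have := weighted_sum (p := p) (fun _ => 1)
  simp only [mul_one] at this
  rw [card_total h2 hch] at this
  rw [this]
  simp

lemma SS_split (h2 : (2 : ZMod p) ≠ 0) (hch : ringChar (ZMod p) ≠ 2) :
    SS p = 2 * ∑ w ∈ Ap p, qc p (w + 4) + ∑ w ∈ Az p, qc p (w + 4) := by
  rw [SS_w h2 hch, weighted_sum]

/-- a monic polynomial of degree `p-1` vanishing at all nonzero elements -/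
lemma poly_unique (Q : (ZMod p)[X]) (hm : Q.Monic) (hd : Q.natDegree = p - 1) (hr : ∀ x : ZMod p, x ≠ 0 → Q.eval x = 0) :
    Q = X ^ (p - 1) - 1 := by
  have hpp := hp.out.two_le
  have hm2 : (X ^ (p - 1) - 1 : (ZMod p)[X]).Monic := by
    have := monic_X_pow_sub_C (1 : ZMod p) (n := p - 1) (by omega)
    simpa using this
  have hd2 : (X ^ (p - 1) - 1 : (ZMod p)[X]).natDegree = p - 1 := by
    have := natDegree_X_pow_sub_C (n := p - 1) (r := (1 : ZMod p))
    simpa using this
  rw [← sub_eq_zero]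
  apply Polynomial.eq_zero_of_natDegree_lt_card_of_eval_eq_zero' _ ((univ : Finset (ZMod p)).erase 0)
  · intro x hx
    rw [Finset.mem_erase] at hx
    rw [eval_sub, hr x hx.1]
    simp [ZMod.pow_card_sub_one_eq_one hx.1]
  · rw [Finset.card_erase_of_mem (Finset.mem_univ _), Finset.card_univ, ZMod.card]
    by_cases h0 : Q - (X ^ (p - 1) - 1) = 0
    · rw [h0]; simp; omega
    · have hdeg : Q.degree = (X ^ (p - 1) - 1 : (ZMod p)[X]).degree := by
        rw [degree_eq_natDegree hm.ne_zero, degree_eq_natDegree hm2.ne_zero, hd, hd2]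
      have := degree_sub_lt hdeg hm.ne_zero (by rw [hm.leadingCoeff, hm2.leadingCoeff])
      rw [degree_eq_natDegree hm.ne_zero, hd] at this
      exact (natDegree_lt_iff_degree_lt h0).mpr this

/-- the quadratic factor -/
noncomputable def qf (w : ZMod p) : (ZMod p)[X] := X ^ 2 - C w * X + 2

lemma qf_monic (w : ZMod p) : (qf w).Monic := by
  unfold qf
  have : (X ^ 2 - C w * X + 2 : (ZMod p)[X]) = X ^ 2 - C w * X + C 2 := by
    rw [map_ofNat C 2]
  rw [this]
  monicity!

lemma qf_natDegree (w : ZMod p) : (qf w).natDegree = 2 := by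
  unfold qf
  have : (X ^ 2 - C w * X + 2 : (ZMod p)[X]) = X ^ 2 - C w * X + C 2 := by
    rw [map_ofNat C 2]
  rw [this]
  compute_degree!

lemma qf_root (x : ZMod p) (hx : x ≠ 0) : (qf (x + 2 * x⁻¹)).eval x = 0 := by
  unfold qf
  simp
  field_simp
  ring

lemma mem_Ap_of (x : ZMod p) (hx : x ≠ 0) (hx2 : x ^ 2 ≠ 2) : x + 2 * x⁻¹ ∈ Ap p := by
  unfold Ap
  rw [Finset.mem_filter]
  refine ⟨Finset.mem_univ _, ?_⟩
  have e : (x + 2 * x⁻¹) ^ 2 - 8 = (x - 2 * x⁻¹) ^ 2 := by field_simp; ring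
  rw [e]
  apply quadraticChar_sq_one'
  intro h
  apply hx2
  field_simp at h
  linear_combination h

lemma prod_natDegree (s : Finset (ZMod p)) : (∏ w ∈ s, qf w).natDegree = 2 * s.card := by
  rw [natDegree_prod_of_monic _ _ (fun w _ => qf_monic w), Finset.sum_congr rfl (fun w _ => qf_natDegree w)]
  simp [mul_comm]

end Pool.Agent.Pell
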