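import Pool.Agent.Pell.Sign2

namespace Pool.Agent.Pell

open Finset Polynomial

variable {p : ℕ} [hp : Fact p.Prime]

lemma qc_two_B (f : ℕ) (hf : p = 8 * f + 3) : qc p 2 = -1 := by
  have hp2 : p ≠ 2 := by omega
  rw [quadraticChar_neg_one_iff_not_isSquare, ZMod.exists_sq_eq_two_iff hp2]
  omega

lemma qc_neg_one_B (f : ℕ) (hf : p = 8 * f + 3) : qc p (-1) = -1 := by
  rw [quadraticChar_neg_one_iff_not_isSquare, ZMod.exists_sq_eq_neg_one_iff]
  omega

lemma qc_two_A (f : ℕ) (hf : p = 8 * f + 1) : qc p 2 = 1 := by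
  have hp2 : p ≠ 2 := by omega
  have h2 := two_ne_zero_of (p := p) (4 * f) (by omega)
  rw [quadraticChar_one_iff_isSquare h2, ZMod.exists_sq_eq_two_iff hp2]
  omega

lemma qc_neg_one_A (f : ℕ) (hf : p = 8 * f + 1) : qc p (-1) = 1 := by
  rw [quadraticChar_one_iff_isSquare (neg_ne_zero.mpr one_ne_zero), ZMod.exists_sq_eq_neg_one_iff]
  omega

lemma qc_four (h2 : (2 : ZMod p) ≠ 0) : qc p 4 = 1 := by
  have : (4 : ZMod p) = 2 ^ 2 := by norm_num
  rw [this]; exact quadraticChar_sq_one' h2

lemma qc_eight (h2 : (2 : ZMod p) ≠ 0) : qc p 8 = qc p 2 := by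
  have : (8 : ZMod p) = 4 * 2 := by norm_num
  rw [this, map_mul, qc_four h2, one_mul]

lemma qc_pm (a : ZMod p) (ha : a ≠ 0) : qc p a = 1 ∨ qc p a = -1 := quadraticChar_dichotomy ha

/-- sign statement for `p = 8f+3` -/
lemma sign_B (f : ℕ) (hf : p = 8 * f + 3) :
    ∃ δ : ℤ, (δ = 1 ∨ δ = -1) ∧ ((Tseq (4 * f + 1) : ℤ) : ZMod p) = 2 * (δ : ZMod p) ∧ (8 : ℤ) ∣ (-SS p) - 2 * δ := by
  have hpp := hp.out.two_le
  have hp2 : p ≠ 2 := by omega
  have hn : p = 2 * (4 * f + 1) + 1 := by omega
  have h2 := two_ne_zero_of (p := p) (4 * f + 1) hn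
  have hch : ringChar (ZMod p) ≠ 2 := by rw [ZMod.ringChar_zmod_n]; omega
  have hq2 := qc_two_B f hf
  have hqm := qc_neg_one_B f hf
  have h2n := two_pow_half_three (p := p) f hf
  set n := 4 * f + 1 with hnn
  -- the extension field
  let L := AlgebraicClosure (ZMod p)
  obtain ⟨r, hr⟩ : ∃ r : L, r ^ 2 = 2 := IsAlgClosed.exists_pow_nat_eq 2 (by norm_num)
  haveI : CharP L p := charP_of_injective_algebraMap (algebraMap (ZMod p) L).injective p
  have hinj : Function.Injective (algebraMap (ZMod p) L) := (algebraMap (ZMod p) L).injective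
  have hL2 : (2 : L) ≠ 0 := by
    intro h
    apply h2
    apply hinj
    rw [map_ofNat, h, map_zero]
  have h2L : (2 : L) ^ n = -1 := by
    have := congrArg (algebraMap (ZMod p) L) h2n
    rw [map_pow, map_neg, map_one, map_ofNat] at this
    exact this
  have hT := Tseq_eq r hr n
  have hab : (2 + r) * (2 - r) = 2 := by linear_combination -hr
  have habn : (2 + r) ^ n * (2 - r) ^ n = -1 := by rw [← mul_pow, hab, h2L]
  have h2p : (2 : L) ^ p = 2 := by
    have e : (2 : L) ^ p = (2 : L) ^ (2 * n + 1) := congrArg (fun m => (2 : L) ^ m) hn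
    rw [e, pow_succ, mul_comm 2 n, pow_mul, h2L]; ring
  have hrp : r ^ p = -r := by
    have e : r ^ p = r ^ (2 * n + 1) := congrArg (fun m => r ^ m) hn
    rw [e, pow_succ, pow_mul, hr, h2L]; ring
  have ha : (2 + r) ^ p = 2 - r := by rw [add_pow_char, h2p, hrp]; ring
  have hb : (2 - r) ^ p = 2 + r := by rw [sub_pow_char, h2p, hrp]; ring
  have ha2 : 2 * ((2 + r) ^ n) ^ 2 = (2 - r) ^ 2 := by
    have e : (2 + r) ^ p = ((2 + r) ^ n) ^ 2 * (2 + r) := by
      rw [← pow_mul, ← pow_succ]; congr 1; omega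
    rw [ha] at e
    linear_combination (-(((2 + r) ^ n) ^ 2)) * hab - (2 - r) * e
  have hb2 : 2 * ((2 - r) ^ n) ^ 2 = (2 + r) ^ 2 := by
    have e : (2 - r) ^ p = ((2 - r) ^ n) ^ 2 * (2 - r) := by
      rw [← pow_mul, ← pow_succ]; congr 1; omega
    rw [hb] at e
    linear_combination (-(((2 - r) ^ n) ^ 2)) * hab - (2 + r) * e
  have hTsq : ((Tseq n : ℤ) : L) ^ 2 = 4 := by
    rw [← hT]
    apply mul_left_cancel₀ hL2
    linear_combination ha2 + hb2 + 4 * habn + 2 * hr
  have hTz : ((Tseq n : ℤ) : ZMod p) ^ 2 = 4 := by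
    apply hinj
    rw [map_pow, map_intCast, map_ofNat]; exact hTsq
  obtain ⟨δ, hδ, hTδ⟩ : ∃ δ : ℤ, (δ = 1 ∨ δ = -1) ∧ ((Tseq n : ℤ) : ZMod p) = 2 * (δ : ZMod p) := by
    have hfac : (((Tseq n : ℤ) : ZMod p) - 2) * (((Tseq n : ℤ) : ZMod p) + 2) = 0 := by linear_combination hTz
    rcases mul_eq_zero.mp hfac with h | h
    · exact ⟨1, Or.inl rfl, by push_cast; linear_combination h⟩
    · exact ⟨-1, Or.inr rfl, by push_cast; linear_combination h⟩
  refine ⟨δ, hδ, hTδ, ?_⟩
  -- Az is empty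
  have hAz : Az p = ∅ := by
    unfold Az
    rw [Finset.filter_eq_empty_iff]
    intro w _ hw
    have hw8 : qc p 8 = 1 := by
      have h8 : (8 : ZMod p) = w ^ 2 := by linear_combination -hw
      rw [h8]
      apply quadraticChar_sq_one'
      rintro rfl
      have : (8 : ZMod p) = 2 ^ 3 := by norm_num
      rw [this] at h8
      exact pow_ne_zero 3 h2 (by rw [h8]; norm_num)
    rw [qc_eight h2, hq2] at hw8
    norm_num at hw8
  have hcard : ((Ap p).card : ℤ) = n := by
    have := card_Ap (p := p) h2 hch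
    rw [hAz, Finset.card_empty] at this
    have h3 : (p : ℤ) = 2 * n + 1 := by exact_mod_cast hn
    push_cast at this
    omega
  have hcardN : (Ap p).card = n := by exact_mod_cast hcard
  have hne4 : ∀ w ∈ Ap p, w + 4 ≠ 0 := by
    intro w hw h
    unfold Ap at hw
    rw [Finset.mem_filter] at hw
    have hw4 : w = -4 := by linear_combination h
    have : qc p 8 = 1 := by
      have h8 : w ^ 2 - 8 = 8 := by rw [hw4]; norm_num
      rw [← h8]; exact hw.2
    rw [qc_eight h2, hq2] at this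
    norm_num at this
  -- polynomial identity
  have hpoly : ∏ w ∈ Ap p, qf w = X ^ (p - 1) - 1 := by
    apply poly_unique
    · exact monic_prod_of_monic _ _ (fun w _ => qf_monic w)
    · rw [prod_natDegree, hcardN]; omega
    · intro x hx
      rw [eval_prod]
      apply Finset.prod_eq_zero (mem_Ap_of x hx ?_) (qf_root x hx)
      intro hx2
      have : qc p 2 = 1 := by rw [← hx2]; exact quadraticChar_sq_one' hx
      rw [hq2] at this
      norm_num at this
  -- evaluate at z0 = -2 + r = -(2 - r)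
  have hev := congrArg (aeval (-(2 - r))) hpoly
  rw [map_prod] at hev
  have hfac : ∀ w ∈ Ap p, aeval (-(2 - r)) (qf w) = (2 - r) * algebraMap (ZMod p) L (w + 4) := by
    intro w _
    unfold qf
    simp only [map_sub, map_add, map_mul, map_pow, aeval_X, aeval_C, map_ofNat]
    linear_combination hr
  rw [Finset.prod_congr rfl hfac, Finset.prod_mul_distrib, Finset.prod_const, hcardN, ← map_prod] at hev
  simp only [map_sub, map_pow, aeval_X, map_one] at hev
  have he2 : (-(2 - r)) ^ (p - 1) = ((2 - r) ^ n) ^ 2 := by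
    have : p - 1 = 2 * n := by omega
    rw [this, pow_mul, neg_sq, ← pow_mul, ← pow_mul, mul_comm 2 n]
  rw [he2] at hev
  have hP : ((∏ w ∈ Ap p, (w + 4) : ZMod p)) = ((Tseq n : ℤ) : ZMod p) := by
    apply hinj
    rw [map_intCast, ← hT]
    linear_combination ((2 + r) ^ n * (-1)) * hev + (algebraMap (ZMod p) L (∏ w ∈ Ap p, (w + 4)) - (2 - r) ^ n) * habn
  have hprodqc : ∏ w ∈ Ap p, qc p (w + 4) = -δ := by
    rw [← map_prod, hP, hTδ, map_mul, hq2]
    rcases hδ with h | h
    · rw [h]; push_cast; rw [map_one]; ring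
    · rw [h]; push_cast; rw [hqm]; ring
  obtain ⟨⟨c, hc⟩, _⟩ := sum_sign_mod_four (Ap p) (fun w => qc p (w + 4)) (fun w hw => qc_pm _ (hne4 w hw))
  rw [hprodqc, hcard] at hc
  have hS := SS_split (p := p) h2 hch
  rw [hAz, Finset.sum_empty, add_zero] at hS
  refine ⟨-(c + f), ?_⟩
  have hn' : (n : ℤ) = 4 * f + 1 := by rw [hnn]; push_cast; ring
  rw [hn'] at hc
  linear_combination (-1 : ℤ) * hS - 2 * hc

/-- sign statement for `p = 8f+1` -/
lemma sign_A (f : ℕ) (hf : p = 8 * f + 1) :
    ∃ δ : ℤ, (δ = 1 ∨ δ = -1) ∧ ((Tseq (4 * f) : ℤ) : ZMod p) = 2 * (δ : ZMod p) ∧ (8 : ℤ) ∣ (-SS p) - 2 * δ := by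
  have hpp := hp.out.two_le
  have hf0 : 0 < f := by
    rcases Nat.eq_zero_or_pos f with h | h
    · exfalso; rw [h] at hf; exact hp.out.one_lt.ne' (by omega)
    · exact h
  have hp2 : p ≠ 2 := by omega
  have hn : p = 2 * (4 * f) + 1 := by omega
  have h2 := two_ne_zero_of (p := p) (4 * f) hn
  have hch : ringChar (ZMod p) ≠ 2 := by rw [ZMod.ringChar_zmod_n]; omega
  have hq2 := qc_two_A f hf
  have hqm := qc_neg_one_A f hf
  have h2n := two_pow_half_one (p := p) f hf
  set n := 4 * f with hnn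
  obtain ⟨r, hr⟩ : ∃ r : ZMod p, r ^ 2 = 2 := by
    have : IsSquare (2 : ZMod p) := (quadraticChar_one_iff_isSquare h2).mp hq2
    obtain ⟨r, hr⟩ := this
    exact ⟨r, by rw [hr]; ring⟩
  have hr0 : r ≠ 0 := by
    rintro rfl
    apply h2
    rw [← hr]; ring
  have hab : (2 + r) * (2 - r) = 2 := by linear_combination -hr
  have ha0 : 2 + r ≠ 0 := by
    intro h; rw [h, zero_mul] at hab; exact h2 hab.symm
  have hb0 : 2 - r ≠ 0 := by
    intro h; rw [h, mul_zero] at hab; exact h2 hab.symm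
  have habn : (2 + r) ^ n * (2 - r) ^ n = 1 := by rw [← mul_pow, hab, h2n]
  have hT := Tseq_eq r hr n
  set δ := qc p (2 + r) with hδdef
  have hδ : δ = 1 ∨ δ = -1 := qc_pm _ ha0
  have hδδ : δ * δ = 1 := by rcases hδ with h | h <;> rw [h] <;> norm_num
  have han : (2 + r) ^ n = (δ : ZMod p) := by
    have := quadraticChar_eq_pow_of_char_ne_two' hch (2 + r)
    rw [ZMod.card, show p / 2 = n by omega] at this
    exact this.symm
  have hbn : (2 - r) ^ n = (δ : ZMod p) := by
    rw [han] at habn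
    have h3 : (δ : ZMod p) * (δ : ZMod p) = 1 := by exact_mod_cast congrArg (Int.cast : ℤ → ZMod p) hδδ
    linear_combination (δ : ZMod p) * habn - ((2 - r) ^ n) * h3
  have hqb : qc p (2 - r) = δ := by
    have h3 : qc p (2 + r) * qc p (2 - r) = 1 := by rw [← map_mul, hab, hq2]
    rw [← hδdef] at h3
    linear_combination δ * h3 - (qc p (2 - r)) * hδδ
  refine ⟨δ, hδ, by rw [← hT, han, hbn]; ring, ?_⟩
  -- Az
  have h2r : (2 * r) ≠ -(2 * r) := by
    intro h
    have : (2 : ZMod p) * (2 * r) = 0 := by linear_combination h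
    exact (mul_ne_zero h2 (mul_ne_zero h2 hr0)) this
  have hAz : Az p = {2 * r, -(2 * r)} := by
    unfold Az
    ext w
    rw [Finset.mem_filter, Finset.mem_insert, Finset.mem_singleton]
    constructor
    · rintro ⟨_, hw⟩
      have : (w - 2 * r) * (w + 2 * r) = 0 := by linear_combination hw - 4 * hr
      rcases mul_eq_zero.mp this with h | h
      · left; linear_combination h
      · right; linear_combination h
    · rintro (rfl | rfl)
      · exact ⟨Finset.mem_univ _, by linear_combination 4 * hr⟩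
      · exact ⟨Finset.mem_univ _, by linear_combination 4 * hr⟩
  have hAzcard : (Az p).card = 2 := by rw [hAz, Finset.card_pair h2r]
  have hAzsum : ∑ w ∈ Az p, qc p (w + 4) = 2 * δ := by
    rw [hAz, Finset.sum_pair h2r]
    have e1 : 2 * r + 4 = 2 * (2 + r) := by ring
    have e2 : -(2 * r) + 4 = 2 * (2 - r) := by ring
    rw [e1, e2, map_mul, map_mul, hq2, hqb, ← hδdef]; ring
  have hcardN : (Ap p).card = n - 1 := by
    have := card_Ap (p := p) h2 hch
    rw [hAzcard] at this
    have h3 : (p : ℤ) = 2 * n + 1 := by exact_mod_cast hn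
    omega
  have h4mem : (-4 : ZMod p) ∈ Ap p := by
    unfold Ap
    rw [Finset.mem_filter]
    refine ⟨Finset.mem_univ _, ?_⟩
    have : ((-4 : ZMod p)) ^ 2 - 8 = 8 := by norm_num
    rw [this, qc_eight h2, hq2]
  -- polynomial identity
  have hm2 : (X ^ 2 - C 2 : (ZMod p)[X]).Monic := monic_X_pow_sub_C _ two_ne_zero
  have hpoly : (∏ w ∈ Ap p, qf w) * (X ^ 2 - C 2) = X ^ (p - 1) - 1 := by
    apply poly_unique
    · exact (monic_prod_of_monic _ _ (fun w _ => qf_monic w)).mul hm2
    · rw [(monic_prod_of_monic _ _ (fun w _ => qf_monic w)).natDegree_mul hm2, prod_natDegree, hcardN,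
        natDegree_X_pow_sub_C]
      omega
    · intro x hx
      rw [eval_mul, eval_prod]
      by_cases hx2 : x ^ 2 = 2
      · simp [hx2]
      · rw [Finset.prod_eq_zero (mem_Ap_of x hx hx2) (qf_root x hx), zero_mul]
  -- differentiate at z0 = -2 + r
  set z := -2 + r with hz
  have hzq : z ^ 2 + 4 * z + 2 = 0 := by rw [hz]; linear_combination hr
  have hz0 : z ≠ 0 := by
    intro h; rw [h] at hzq; apply h2; linear_combination hzq
  rw [← Finset.mul_prod_erase _ _ h4mem, mul_assoc] at hpoly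
  have hder := congrArg (fun P => (derivative P).eval z) hpoly
  simp only [derivative_mul, eval_add, eval_mul] at hder
  have hq4 : (qf (-4 : ZMod p)).eval z = 0 := by
    unfold qf; simp; linear_combination hzq
  have hq4' : (derivative (qf (-4 : ZMod p))).eval z = 2 * r := by
    unfold qf
    simp
    rw [hz]; ring
  have hrhs : (derivative (X ^ (p - 1) - 1 : (ZMod p)[X])).eval z = - z ^ (p - 2) := by
    simp only [derivative_sub, derivative_X_pow, derivative_one, sub_zero, eval_mul, eval_C, eval_pow, eval_X]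
    rw [Nat.cast_sub (by omega), ZMod.natCast_self, show p - 1 - 1 = p - 2 by omega]
    push_cast; ring
  have hprodev : (∏ w ∈ (Ap p).erase (-4), qf w).eval z = z ^ (n - 2) * ∏ w ∈ (Ap p).erase (-4), (w + 4) := by
    rw [eval_prod]
    have hfac : ∀ w ∈ (Ap p).erase (-4), (qf w).eval z = (-z) * (w + 4) := by
      intro w _
      unfold qf
      simp
      linear_combination hzq
    rw [Finset.prod_congr rfl hfac, Finset.prod_mul_distrib, Finset.prod_const, Finset.card_erase_of_mem h4mem, hcardN]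
    have e : n - 1 - 1 = n - 2 := by omega
    have hev : Even (n - 2) := ⟨2 * f - 1, by omega⟩
    rw [e, hev.neg_pow]
  rw [hq4, zero_mul, add_zero, hq4', hprodev, hrhs] at hder
  have hx2ev : (X ^ 2 - C 2 : (ZMod p)[X]).eval z = -4 * (z + 1) := by
    simp; linear_combination hzq
  rw [hx2ev] at hder
  set P' := ∏ w ∈ (Ap p).erase (-4), (w + 4) with hP'
  have hzp : z ^ (p - 2) * z = 1 := by
    rw [← pow_succ, show p - 2 + 1 = p - 1 by omega]
    exact ZMod.pow_card_sub_one_eq_one hz0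
  have hzn : z ^ (n - 2) * z = z ^ (n - 1) := by rw [← pow_succ, show n - 2 + 1 = n - 1 by omega]
  have hmain : (8 : ZMod p) * (r * z ^ (n - 1) * P' * (z + 1)) = 1 := by
    linear_combination (-z) * hder - (8 * r * P' * (z + 1)) * hzn + hzp
  have hz1 : z + 1 ≠ 0 := by
    intro h; rw [h, mul_zero, mul_zero] at hmain; exact one_ne_zero hmain.symm
  have hP'0 : P' ≠ 0 := by
    intro h; rw [h, mul_zero, zero_mul, mul_zero] at hmain; exact one_ne_zero hmain.symm
  have hqP' : qc p P' = 1 := by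
    have h3 := congrArg (qc p) hmain
    rw [map_mul, map_mul, map_mul, map_mul, map_pow, map_one, qc_eight h2, hq2] at h3
    -- qc r * qc z * qc (z+1) = 1
    have h4 : qc p r * qc p z * qc p (z + 1) = 1 := by
      rw [← map_mul, ← map_mul]
      have e : r * z * (z + 1) = (-1) * (r * (r - 1)) ^ 2 := by
        rw [hz]; linear_combination (r ^ 2 - r) * hr
      rw [e, map_mul, hqm, one_mul]
      apply quadraticChar_sq_one'
      apply mul_ne_zero hr0
      intro h
      apply hz1
      rw [hz]; linear_combination h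
    have h5 : qc p z ^ (n - 1) = qc p z := by
      rcases qc_pm z hz0 with h | h
      · rw [h, one_pow]
      · rw [h]
        have hodd : Odd (n - 1) := ⟨2 * f - 1, by omega⟩
        exact hodd.neg_one_pow
    rw [h5] at h3
    have h6 := qc_pm P' hP'0
    rcases h6 with h | h
    · exact h
    · exfalso
      rw [h] at h3
      have : qc p r * qc p z * qc p (z + 1) = -1 := by linear_combination -h3
      rw [h4] at this
      norm_num at this
  have hne4 : ∀ w ∈ (Ap p).erase (-4), w + 4 ≠ 0 := by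
    intro w hw h
    rw [Finset.mem_erase] at hw
    apply hw.1
    linear_combination h
  obtain ⟨⟨c, hc⟩, _⟩ := sum_sign_mod_four ((Ap p).erase (-4)) (fun w => qc p (w + 4)) (fun w hw => qc_pm _ (hne4 w hw))
  rw [← map_prod, ← hP', hqP', Finset.card_erase_of_mem h4mem, hcardN] at hc
  have hS := SS_split (p := p) h2 hch
  rw [hAzsum, ← Finset.add_sum_erase _ _ h4mem] at hS
  have hq0 : qc p ((-4 : ZMod p) + 4) = 0 := by
    have : ((-4 : ZMod p) + 4) = 0 := by ring
    rw [this, MulChar.map_zero]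
  rw [hq0, zero_add] at hS
  have hcn : (((n - 1 - 1 : ℕ)) : ℤ) = 4 * f - 2 := by omega
  rw [hcn] at hc
  rcases hδ with h | h
  · refine ⟨-(c + f), ?_⟩
    rw [h] at hS ⊢
    linear_combination (-1 : ℤ) * hS - 2 * hc
  · refine ⟨-(c + f) + 1, ?_⟩
    rw [h] at hS ⊢
    linear_combination (-1 : ℤ) * hS - 2 * hc

end Pool.Agent.Pell
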