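import Pool.Agent.Pell.Sign3

namespace Pool.Agent.Pell

open Finset

variable {p : ℕ} [hp : Fact p.Prime]

lemma SS_bound : |SS p| ≤ (p : ℤ) - 1 := by
  unfold SS
  rw [← Finset.sum_erase (s := univ) (a := (0 : ZMod p)) (by simp)]
  refine le_trans (Finset.abs_sum_le_sum_abs _ _) ?_
  have h1 : ∀ x ∈ (univ : Finset (ZMod p)).erase 0, |quadraticChar (ZMod p) (x * (x ^ 2 + 4 * x + 2))| ≤ 1 := by
    intro x _
    by_cases h0 : x * (x ^ 2 + 4 * x + 2) = 0
    · rw [h0, MulChar.map_zero]; norm_num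
    · rcases quadraticChar_dichotomy h0 with h | h <;> rw [h] <;> norm_num
  refine le_trans (Finset.sum_le_sum h1) ?_
  rw [Finset.sum_const, Finset.card_erase_of_mem (Finset.mem_univ _), Finset.card_univ, ZMod.card, nsmul_eq_mul, mul_one,
    Nat.cast_sub hp.out.pos]
  simp

theorem sign_main (f n : ℕ) (hf : p = 8 * f + 1 ∨ p = 8 * f + 3) (hn : p = 2 * n + 1) (x y : ℤ)
    (hxy : x ^ 2 + 2 * y ^ 2 = p) (hx : x % 4 = 1) (hH : Hh p n ^ 2 = 4 * (x : ZMod p) ^ 2) :
    Hh p n * ((Tseq n : ℤ) : ZMod p) = 4 * (x : ZMod p) ∧ ((Tseq n : ℤ) : ZMod p) ^ 2 = 4 := by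
  have hpp := hp.out.two_le
  have hpI : Prime (p : ℤ) := Nat.prime_iff_prime_int.mp hp.out
  have hn0 : 0 < n := by
    rcases Nat.eq_zero_or_pos n with h | h
    · exfalso; rw [h] at hn; exact hp.out.one_lt.ne' (by omega)
    · exact h
  obtain ⟨δ, hδ, hT, c, hc⟩ : ∃ δ : ℤ, (δ = 1 ∨ δ = -1) ∧ ((Tseq n : ℤ) : ZMod p) = 2 * (δ : ZMod p) ∧ (8 : ℤ) ∣ (-SS p) - 2 * δ := by
    rcases hf with h | h
    · have := sign_A f h
      rwa [show 4 * f = n by omega] at this
    · have := sign_B f h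
      rwa [show 4 * f + 1 = n by omega] at this
  have hcast : ((-SS p : ℤ) : ZMod p) = Hh p n := by
    push_cast; rw [SS_cast n hn hn0]; ring
  set a := -SS p with ha
  have hbound : |a| ≤ (p : ℤ) - 1 := by rw [ha, abs_neg]; exact SS_bound
  have hdiv : (p : ℤ) ∣ (a - 2 * x) * (a + 2 * x) := by
    rw [← ZMod.intCast_zmod_eq_zero_iff_dvd]
    push_cast
    rw [← hcast] at hH
    push_cast at hH
    linear_combination hH
  have hxle : |2 * x| < p + 1 := by
    apply abs_lt_of_sq_lt_sq _ (by positivity)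
    have : 0 ≤ y ^ 2 := sq_nonneg y
    have hp3 : (3 : ℤ) ≤ p := by
      have : 3 ≤ p := by omega
      exact_mod_cast this
    have hx2 : x ^ 2 < p ∨ x ^ 2 = p := by
      rcases lt_or_eq_of_le (show x ^ 2 ≤ p by linarith) with h | h
      · exact Or.inl h
      · exact Or.inr h
    nlinarith [sq_nonneg ((p : ℤ) - 1)]
  have hodd : (p : ℤ) % 2 = 1 := by
    have : p % 2 = 1 := by omega
    exact_mod_cast congrArg (Nat.cast : ℕ → ℤ) this
  have key : ∀ ε : ℤ, (ε = 1 ∨ ε = -1) → (p : ℤ) ∣ a - 2 * (ε * x) → a = 2 * (ε * x) := by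
    intro ε hε ⟨m, hm⟩
    have hm2 : m % 2 = 0 := by
      have h1 : (a - 2 * (ε * x)) % 2 = 0 := by
        have : a - 2 * (ε * x) = 2 * (4 * c + δ - ε * x) := by linear_combination hc
        rw [this]; simp
      rw [hm, Int.mul_emod, hodd] at h1
      omega
    obtain ⟨m', hm'⟩ : ∃ m', m = 2 * m' := ⟨m / 2, by omega⟩
    have hab : |a - 2 * (ε * x)| < 2 * p := by
      have h1 : |2 * (ε * x)| = |2 * x| := by
        rcases hε with h | h <;> rw [h]
        · simp
        · rw [show 2 * (-1 * x) = -(2 * x) by ring, abs_neg]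
      calc |a - 2 * (ε * x)| ≤ |a| + |2 * (ε * x)| := abs_sub _ _
        _ < (p - 1) + (p + 1) := by rw [h1]; linarith
        _ = 2 * p := by ring
    rw [hm, hm'] at hab
    have hm0 : m' = 0 := by
      by_contra h0
      have h1 : 1 ≤ |m'| := Int.one_le_abs h0
      have h2 : |(p : ℤ) * (2 * m')| = 2 * p * |m'| := by
        rw [abs_mul, abs_mul, abs_of_nonneg (by positivity : (0 : ℤ) ≤ p)]; norm_num; ring
      rw [h2] at hab
      nlinarith [hp.out.pos]
    rw [hm', hm0] at hm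
    linarith
  have hex : ∃ ε : ℤ, (ε = 1 ∨ ε = -1) ∧ a = 2 * (ε * x) := by
    rcases hpI.dvd_or_dvd hdiv with h | h
    · exact ⟨1, Or.inl rfl, key 1 (Or.inl rfl) (by rw [one_mul]; exact h)⟩
    · exact ⟨-1, Or.inr rfl, key (-1) (Or.inr rfl) (by
        have : a - 2 * (-1 * x) = a + 2 * x := by ring
        rw [this]; exact h)⟩
  obtain ⟨ε, hε, hae⟩ := hex
  have hεδ : ε = δ := by
    have h1 : 2 * (ε * x) - 2 * δ = 8 * c := by rw [← hae]; exact hc
    rcases hε with h | h <;> rcases hδ with h' | h' <;> rw [h, h'] at h1 ⊢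
    · exfalso; omega
    · exfalso; omega
  have hHv : Hh p n = 2 * (δ : ZMod p) * x := by
    rw [← hcast, hae, hεδ]; push_cast; ring
  have hδδ : (δ : ZMod p) * δ = 1 := by
    have : δ * δ = 1 := by rcases hδ with h | h <;> rw [h] <;> norm_num
    exact_mod_cast congrArg (Int.cast : ℤ → ZMod p) this
  constructor
  · rw [hHv, hT]; linear_combination (4 * (x : ZMod p)) * hδδ
  · rw [hT]; linear_combination 4 * hδδ

end Pool.Agent.Pell
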