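import Mathlib

/-!
# Supercongruences for Pell-companion-weighted sums: the statements
-/

namespace Pool.Agent.Pell

/-- The companion Pell sequence: `Q_0 = Q_1 = 2` and `Q_{n+2} = 2 Q_{n+1} + Q_n`. -/
def companionPell : ℕ → ℤ
  | 0 => 2
  | 1 => 2
  | (n + 2) => 2 * companionPell (n + 1) + companionPell n

/-- `S_0(p) = ∑_{k=0}^{p-1} Q_k / (-8)^k * C(2k,k)^2`. -/
def S0 (p : ℕ) : ℚ :=
  ∑ k ∈ Finset.range p, (companionPell k : ℚ) / (-8) ^ k * ((2 * k).choose k : ℚ) ^ 2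

/-- `S_1(p) = ∑_{k=0}^{p-1} k Q_k / (-8)^k * C(2k,k)^2`. -/
def S1 (p : ℕ) : ℚ :=
  ∑ k ∈ Finset.range p, (k : ℚ) * (companionPell k : ℚ) / (-8) ^ k * ((2 * k).choose k : ℚ) ^ 2

/-- Congruence modulo `p^2` of rational numbers: `a - b` is zero or has `p`-adic valuation
at least `2`. -/
def CongrModSq (p : ℕ) (a b : ℚ) : Prop := a = b ∨ 2 ≤ padicValRat p (a - b)

end Pool.Agent.Pell
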