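import Pool.Agent.Pell.Lpoly

namespace Pool.Agent.Pell

open Finset Polynomial

variable {p : ℕ} [hp : Fact p.Prime] {k : Type} [Field k] [Fintype k] [DecidableEq k] [CharP k p]

/-- `p ∣ x` iff the zeroth coefficient vanishes -/
lemma p_dvd_iff (x : WittVector p k) : (p : WittVector p k) ∣ x ↔ x.coeff 0 = 0 := by
  rw [← Ideal.mem_span_singleton]
  exact WittVector.mem_span_p_iff_coeff_zero_eq_zero x

lemma coeff_zero_intCast (m : ℤ) : ((m : WittVector p k)).coeff 0 = (m : k) := by
  have := map_intCast (WittVector.constantCoeff (p := p) (R := k)) m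
  exact this

lemma W_p_ne_zero : (p : WittVector p k) ≠ 0 := by
  intro h
  have := WittVector.irreducible (p := p) (k := k)
  exact this.ne_zero h

/-- an integer divisible by `p²` in `W(k)` is divisible by `p²` -/
lemma int_dvd_of_W_dvd (m : ℤ) (h : (p : WittVector p k) ^ 2 ∣ (m : WittVector p k)) : ((p ^ 2 : ℕ) : ℤ) ∣ m := by
  have key : ∀ m : ℤ, (p : WittVector p k) ∣ (m : WittVector p k) → (p : ℤ) ∣ m := by
    intro m hm
    rw [p_dvd_iff, coeff_zero_intCast] at hm
    exact (CharP.intCast_eq_zero_iff k p m).mp hm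
  have h1 : (p : WittVector p k) ∣ (m : WittVector p k) := (dvd_pow_self _ two_ne_zero).trans h
  obtain ⟨m1, rfl⟩ := key m h1
  have h2 : (p : WittVector p k) ∣ (m1 : WittVector p k) := by
    rw [Int.cast_mul, Int.cast_natCast, pow_two] at h
    exact (mul_dvd_mul_iff_left W_p_ne_zero).mp h
  obtain ⟨m2, rfl⟩ := key m1 h2
  refine ⟨m2, ?_⟩
  push_cast
  ring

/-- the ring `W_2 = W(k)/p²` -/
abbrev W2 (p : ℕ) [Fact p.Prime] (k : Type) [Field k] : Type :=
  WittVector p k ⧸ (Ideal.span {(p : WittVector p k) ^ 2})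

/-- projection -/
noncomputable def mk2 : WittVector p k →+* W2 p k := Ideal.Quotient.mk _

lemma mk2_surj : Function.Surjective (mk2 (p := p) (k := k)) := Ideal.Quotient.mk_surjective

omit [Fintype k] [DecidableEq k] [CharP k p] in
lemma mk2_eq_zero_iff (x : WittVector p k) : mk2 x = 0 ↔ (p : WittVector p k) ^ 2 ∣ x := by
  unfold mk2
  rw [Ideal.Quotient.eq_zero_iff_mem, Ideal.mem_span_singleton]

lemma W2_p_sq : (p : W2 p k) * (p : W2 p k) = 0 := by
  have : mk2 ((p : WittVector p k) ^ 2) = 0 := (mk2_eq_zero_iff _).mpr dvd_rfl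
  rw [map_pow, map_natCast, pow_two] at this
  exact this

lemma int_dvd_of_W2 (m : ℤ) (h : (m : W2 p k) = 0) : ((p ^ 2 : ℕ) : ℤ) ∣ m := by
  apply int_dvd_of_W_dvd (k := k)
  rw [← mk2_eq_zero_iff, map_intCast]
  exact h

lemma W2_int_eq {m m' : ℤ} (h : (m : W2 p k) = (m' : W2 p k)) : (m : ZMod (p ^ 2)) = (m' : ZMod (p ^ 2)) := by
  rw [← sub_eq_zero, ← Int.cast_sub] at h ⊢
  exact (ZMod.intCast_zmod_eq_zero_iff_dvd _ _).mpr (int_dvd_of_W2 _ h)

lemma W2_int_of_ZMod {m m' : ℤ} (h : (m : ZMod (p ^ 2)) = (m' : ZMod (p ^ 2))) : (m : W2 p k) = (m' : W2 p k) := by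
  rw [← sub_eq_zero, ← Int.cast_sub, ZMod.intCast_zmod_eq_zero_iff_dvd] at h
  obtain ⟨t, ht⟩ := h
  rw [← sub_eq_zero, ← Int.cast_sub, ht]
  have := W2_p_sq (p := p) (k := k)
  push_cast
  linear_combination (t : W2 p k) * this

/-- unit criterion -/
lemma isUnit_W2_int {m : ℤ} (h : ¬ (p : ℤ) ∣ m) : IsUnit (m : W2 p k) := by
  have h1 : IsUnit ((m : WittVector p k)) := by
    apply WittVector.isUnit_of_coeff_zero_ne_zero
    rw [coeff_zero_intCast]
    intro h0
    exact h ((CharP.intCast_eq_zero_iff k p m).mp h0)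
  have := h1.map (mk2 (p := p) (k := k))
  rwa [map_intCast] at this

/-- Teichmüller representative modulo `p²` -/
noncomputable def tau (p : ℕ) [Fact p.Prime] {k : Type} [Field k] (x : k) : W2 p k :=
  mk2 (WittVector.teichmuller p x)

omit [Fintype k] [DecidableEq k] [CharP k p] in
lemma tau_mul (x y : k) : tau p (x * y) = tau p x * tau p y := by
  unfold tau; rw [map_mul, map_mul]

omit [Fintype k] [DecidableEq k] [CharP k p] in
lemma tau_pow (x : k) (n : ℕ) : tau p (x ^ n) = tau p x ^ n := by
  unfold tau; rw [map_pow, map_pow]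

lemma teich_sub (y : k) : (p : WittVector p k) ∣ WittVector.teichmuller p (1 - y) - (1 - WittVector.teichmuller p y) := by
  rw [p_dvd_iff]
  have h : WittVector.constantCoeff (WittVector.teichmuller p (1 - y) - (1 - WittVector.teichmuller p y)) = (0 : k) := by
    rw [RingHom.map_sub, RingHom.map_sub, RingHom.map_one]
    have h : ∀ z : WittVector p k, WittVector.constantCoeff z = z.coeff 0 := fun z => rfl
    rw [h, h, WittVector.teichmuller_coeff_zero, WittVector.teichmuller_coeff_zero, sub_self]
  exact h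

/-- `τ((1-y)^p) = (1 - τ y)^p` modulo `p²` -/
lemma tau_one_sub_pow (y : k) : tau p ((1 - y) ^ p) = (1 - tau p y) ^ p := by
  have h := dvd_sub_pow_of_dvd_sub (teich_sub (p := p) y) 1
  rw [pow_one] at h
  rw [tau_pow]
  unfold tau
  have h3 : mk2 (WittVector.teichmuller p (1 - y) ^ p - (1 - WittVector.teichmuller p y) ^ p) = 0 := by
    rw [mk2_eq_zero_iff]; exact_mod_cast h
  rw [RingHom.map_sub, map_pow, map_pow, RingHom.map_sub, RingHom.map_one] at h3
  exact sub_eq_zero.mp h3

lemma tau_one_sub (h2 : p ≠ 2) (x y : k) (hy : y ^ p = x) :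
    tau p (1 - x) = 1 - tau p x - (p : W2 p k) * aeval (tau p y) (LL p) := by
  have h1 : (1 - y) ^ p = 1 - x := by
    rw [sub_pow_char, one_pow, hy]
  rw [← h1, tau_one_sub_pow]
  have h3 := congrArg (aeval (tau p y)) (one_sub_X_pow_p (p := p) h2)
  simp only [map_pow, map_sub, map_one, map_mul, aeval_X, map_natCast] at h3
  rw [h3, ← tau_pow, hy]

/-- power sums of Teichmüller representatives -/
lemma sum_tau_pow (g : kˣ) (hg : ∀ x : kˣ, x ∈ Subgroup.zpowers g) (m : ℕ) (hm : 0 < m) :
    ∑ x : k, tau p x ^ m = if (Fintype.card k - 1) ∣ m then ((Fintype.card k - 1 : ℕ) : W2 p k) else 0 := by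
  have hT : ∑ x : k, WittVector.teichmuller p x ^ m =
      if (Fintype.card k - 1) ∣ m then ((Fintype.card k - 1 : ℕ) : WittVector p k) else 0 := by
    have h0 : WittVector.teichmuller p (0 : k) ^ m = 0 := by
      rw [WittVector.teichmuller_zero, zero_pow hm.ne']
    split_ifs with h
    · obtain ⟨t, rfl⟩ := h
      rw [← Finset.sum_erase (s := Finset.univ) (a := (0 : k)) (f := fun x => WittVector.teichmuller p x ^ _) h0]
      have : ∀ x ∈ Finset.univ.erase (0 : k), WittVector.teichmuller p x ^ ((Fintype.card k - 1) * t) = 1 := by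
        intro x hx
        rw [Finset.mem_erase] at hx
        rw [← map_pow, pow_mul, FiniteField.pow_card_sub_one_eq_one x hx.1, one_pow, map_one]
      rw [Finset.sum_congr rfl this, Finset.sum_const, Finset.card_erase_of_mem (Finset.mem_univ _), Finset.card_univ]
      simp
    · -- multiply by T(g)^m - 1
      have hgm : WittVector.teichmuller p (g : k) ^ m ≠ 1 := by
        rw [← map_pow]
        intro h1
        have h2 := congrArg (fun z : WittVector p k => z.coeff 0) h1
        simp only [WittVector.teichmuller_coeff_zero, WittVector.one_coeff_zero] at h2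
        apply h
        have h3 : g ^ m = 1 := by
          ext; push_cast; exact h2
        have h4 : orderOf g = Fintype.card k - 1 := by
          rw [orderOf_eq_card_of_forall_mem_zpowers hg, Nat.card_eq_fintype_card, Fintype.card_units]
        rw [← h4]
        exact orderOf_dvd_of_pow_eq_one h3
      have hmul : WittVector.teichmuller p (g : k) ^ m * ∑ x : k, WittVector.teichmuller p x ^ m =
          ∑ x : k, WittVector.teichmuller p x ^ m := by
        rw [Finset.mul_sum]
        rw [← Equiv.sum_comp (Equiv.mulLeft₀ (g : k) (Units.ne_zero g)) (fun x => WittVector.teichmuller p x ^ m)]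
        apply Finset.sum_congr rfl
        intro x _
        rw [Equiv.mulLeft₀_apply, map_mul, mul_pow]
      have : (WittVector.teichmuller p (g : k) ^ m - 1) * ∑ x : k, WittVector.teichmuller p x ^ m = 0 := by
        rw [sub_mul, hmul, one_mul, sub_self]
      rcases mul_eq_zero.mp this with h1 | h1
      · exact absurd (sub_eq_zero.mp h1) hgm
      · exact h1
  have := congrArg (mk2 (p := p) (k := k)) hT
  rw [map_sum] at this
  simp only [map_pow] at this
  rw [apply_ite (mk2 (p := p) (k := k)), map_natCast, map_zero] at this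
  exact this

/-- coefficient extraction -/
lemma sum_tau_aeval (g : kˣ) (hg : ∀ x : kˣ, x ∈ Subgroup.zpowers g) (e : ℕ) (he : 0 < e)
    (heN : e < Fintype.card k - 1) (P : ℤ[X]) (hP : P.natDegree < e + 2 * (Fintype.card k - 1)) :
    ∑ x : k, tau p x ^ (Fintype.card k - 1 - e) * aeval (tau p x) P =
      ((Fintype.card k - 1 : ℕ) : W2 p k) * (((P.coeff e + P.coeff (e + (Fintype.card k - 1)) : ℤ)) : W2 p k) := by
  set N := Fintype.card k - 1 with hN
  have h1 : ∀ x : k, tau p x ^ (N - e) * aeval (tau p x) P =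
      ∑ m ∈ range (e + 2 * N), ((P.coeff m : ℤ) : W2 p k) * tau p x ^ (N - e + m) := by
    intro x
    rw [aeval_eq_sum_range' hP, Finset.mul_sum]
    apply Finset.sum_congr rfl
    intro m _
    rw [zsmul_eq_mul, pow_add]
    ring
  rw [Finset.sum_congr rfl (fun x _ => h1 x), Finset.sum_comm]
  have h2 : ∀ m ∈ range (e + 2 * N), ∑ x : k, ((P.coeff m : ℤ) : W2 p k) * tau p x ^ (N - e + m) =
      (if m = e then ((P.coeff m : ℤ) : W2 p k) * (N : W2 p k) else 0) +
        (if m = e + N then ((P.coeff m : ℤ) : W2 p k) * (N : W2 p k) else 0) := by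
    intro m hm
    rw [Finset.mem_range] at hm
    rw [← Finset.mul_sum, sum_tau_pow g hg _ (by omega), ← hN]
    by_cases hm1 : m = e
    · subst hm1
      rw [if_pos (by rw [Nat.sub_add_cancel heN.le]), if_pos rfl, if_neg (by omega)]
      ring
    by_cases hm2 : m = e + N
    · subst hm2
      rw [if_pos, if_neg (by omega), if_pos rfl]
      · ring
      · have : N - e + (e + N) = N * 2 := by omega
        rw [this]; exact dvd_mul_right _ _
    · rw [if_neg, if_neg hm1, if_neg hm2]
      · ring
      · rintro ⟨t, ht⟩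
        have h3 : t < 3 := by
          by_contra hcon
          have : N * 3 ≤ N * t := Nat.mul_le_mul_left N (by omega)
          omega
        interval_cases t <;> omega
  rw [Finset.sum_congr rfl h2, Finset.sum_add_distrib, Finset.sum_ite_eq' , Finset.sum_ite_eq',
    if_pos (by rw [Finset.mem_range]; omega), if_pos (by rw [Finset.mem_range]; omega)]
  push_cast
  ring

end Pool.Agent.Pell
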