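import Pool.Agent.Pell.Odd
import Pool.Agent.Pell.SignMain

namespace Pool.Agent.Pell

open Finset Polynomial

/-- companion Pell numbers -/
def Qseq : ℕ → ℤ
  | 0 => 2
  | 1 => 2
  | (n + 2) => 2 * Qseq (n + 1) + Qseq n

lemma Qseq_eq {A : Type*} [CommRing A] (r : A) (hr : r ^ 2 = 2) (n : ℕ) :
    (1 + r) ^ n + (1 - r) ^ n = (Qseq n : A) := by
  induction n using Nat.twoStepInduction with
  | zero => norm_num [Qseq]
  | one => norm_num [Qseq]
  | more n h0 h1 =>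
    rw [Qseq]
    push_cast
    rw [← h0, ← h1]
    linear_combination ((1 + r) ^ n + (1 - r) ^ n) * hr

/-- components of `(2+√2)^k` -/
def ab : ℕ → ℤ × ℤ
  | 0 => (1, 0)
  | (k + 1) => (2 * (ab k).1 + 2 * (ab k).2, (ab k).1 + 2 * (ab k).2)

lemma pow_ab {A : Type*} [CommRing A] (r : A) (hr : r ^ 2 = 2) (k : ℕ) :
    (2 + r) ^ k = ((ab k).1 : A) + ((ab k).2 : A) * r := by
  induction k with
  | zero => simp [ab]
  | succ k ih =>
    rw [pow_succ, ih, ab]
    push_cast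
    linear_combination ((ab k).2 : A) * hr

lemma pow_ab' {A : Type*} [CommRing A] (r : A) (hr : r ^ 2 = 2) (k : ℕ) :
    (2 - r) ^ k = ((ab k).1 : A) - ((ab k).2 : A) * r := by
  have := pow_ab (-r) (by rw [neg_sq, hr]) k
  rw [← sub_eq_add_neg] at this
  rw [this]; ring

lemma norm_ab (k : ℕ) : (ab k).1 ^ 2 - 2 * (ab k).2 ^ 2 = 2 ^ k := by
  induction k with
  | zero => simp [ab]
  | succ k ih =>
    rw [ab, pow_succ (2 : ℤ) k, ← ih]
    ring

lemma Tseq_ab (k : ℕ) : Tseq k = 2 * (ab k).1 := by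
  induction k using Nat.twoStepInduction with
  | zero => simp [ab, Tseq]
  | one => simp [ab, Tseq]
  | more n h0 h1 =>
    simp only [Tseq, h0, h1, ab]
    ring

variable {p : ℕ} [hp : Fact p.Prime]

lemma central_sq {n f : ℕ} (h : Par p n f) (k : ℕ) (hk : k < p) :
    ((2 * k).choose k : ZMod (p ^ 2)) ^ 2 = 16 ^ k * (-1) ^ k * (n.choose k : ZMod (p ^ 2)) * ((n + k).choose k : ZMod (p ^ 2)) := by
  induction k with
  | zero => simp
  | succ k ih =>
    have ih' := ih (by omega)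
    have hne : red p (((k + 1 : ℕ) : ZMod (p ^ 2)) ^ 2) ≠ 0 := by
      rw [map_pow, red_natCast]
      exact pow_ne_zero _ (natCast_ne_zero_of_lt (by omega) hk)
    apply mul_left_cancel_of_red hne
    have h1 : (k + 1) * (2 * (k + 1)).choose (k + 1) = 2 * (2 * k + 1) * (2 * k).choose k := Nat.succ_mul_centralBinom_succ k
    have h1' := congrArg (Nat.cast : ℕ → ZMod (p ^ 2)) h1
    have h2 := congrArg (Int.cast : ℤ → ZMod (p ^ 2)) (choose_succ_int n k)
    have h3 : (n + k + 1) * (n + k).choose k = (n + k + 1).choose (k + 1) * (k + 1) := Nat.add_one_mul_choose_eq (n + k) k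
    have h3' := congrArg (Nat.cast : ℕ → ZMod (p ^ 2)) h3
    have hpc : 2 * (n : ZMod (p ^ 2)) + 1 = (p : ZMod (p ^ 2)) := by
      have := congrArg (Nat.cast : ℕ → ZMod (p ^ 2)) h.two_n
      push_cast at this
      exact this.symm
    have hpp := p_mul_p (p := p)
    have hn2 : (2 * (n : ZMod (p ^ 2)) + 1) * (2 * (n : ZMod (p ^ 2)) + 1) = 0 := by rw [hpc, hpp]
    rw [pow_succ (16 : ZMod (p ^ 2)) k, pow_succ (-1 : ZMod (p ^ 2)) k, show n + (k + 1) = n + k + 1 by ring]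
    push_cast at h1' h2 h3' ⊢
    set C := ((2 * k).choose k : ZMod (p ^ 2))
    set C' := ((2 * (k + 1)).choose (k + 1) : ZMod (p ^ 2))
    set a := (n.choose k : ZMod (p ^ 2))
    set a' := (n.choose (k + 1) : ZMod (p ^ 2))
    set b := ((n + k).choose k : ZMod (p ^ 2))
    set b' := ((n + k + 1).choose (k + 1) : ZMod (p ^ 2))
    have e1 : (((k : ZMod (p ^ 2)) + 1) * C') ^ 2 = 4 * (2 * (k : ZMod (p ^ 2)) + 1) ^ 2 * C ^ 2 := by rw [h1']; ring
    have e2 : (((k : ZMod (p ^ 2)) + 1) ^ 2) * (a' * b') = ((n : ZMod (p ^ 2)) - k) * ((n : ZMod (p ^ 2)) + k + 1) * (a * b) := by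
      linear_combination (((k : ZMod (p ^ 2)) + 1) * b') * h2 - (a * ((n : ZMod (p ^ 2)) - k)) * h3'
    linear_combination e1 + (4 * (2 * (k : ZMod (p ^ 2)) + 1) ^ 2) * ih' + (16 ^ k * (-1) ^ k * 16) * e2
      + (4 * 16 ^ k * (-1) ^ k * a * b) * hn2

/-- `S0` modulo `p^2` -/
noncomputable def S0z (p : ℕ) : ZMod (p ^ 2) :=
  ∑ k ∈ range p, (Qseq k : ZMod (p ^ 2)) * ((-8 : ZMod (p ^ 2)) ^ k)⁻¹ * ((2 * k).choose k : ZMod (p ^ 2)) ^ 2

/-- `S1` modulo `p^2` -/
noncomputable def S1z (p : ℕ) : ZMod (p ^ 2) :=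
  ∑ k ∈ range p, (k : ZMod (p ^ 2)) * (Qseq k : ZMod (p ^ 2)) * ((-8 : ZMod (p ^ 2)) ^ k)⁻¹ * ((2 * k).choose k : ZMod (p ^ 2)) ^ 2

lemma red_neg_eight_pow_ne (h2 : (2 : ZMod p) ≠ 0) (j : ℕ) : red p ((-8 : ZMod (p ^ 2)) ^ j) ≠ 0 := by
  have := red_eight_pow_ne (p := p) h2 1
  rw [pow_one] at this
  rw [map_pow, map_neg]
  exact pow_ne_zero _ (neg_ne_zero.mpr this)

/-- general weighted sum -/
lemma sum_general {n f : ℕ} (h : Par p n f) (g : ℕ → ZMod (p ^ 2)) :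
    ∑ k ∈ range p, g k * ((-8 : ZMod (p ^ 2)) ^ k)⁻¹ * ((2 * k).choose k : ZMod (p ^ 2)) ^ 2
      = ∑ k ∈ range (n + 1), g k * 2 ^ k * ((n.choose k : ZMod (p ^ 2)) * ((n + k).choose k : ZMod (p ^ 2))) := by
  have hterm : ∀ k ∈ range p, g k * ((-8 : ZMod (p ^ 2)) ^ k)⁻¹ * ((2 * k).choose k : ZMod (p ^ 2)) ^ 2
      = g k * 2 ^ k * ((n.choose k : ZMod (p ^ 2)) * ((n + k).choose k : ZMod (p ^ 2))) := by
    intro k hk
    rw [Finset.mem_range] at hk
    rw [central_sq h k hk]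
    have e1 : (16 : ZMod (p ^ 2)) ^ k * (-1) ^ k = (-8) ^ k * 2 ^ k := by
      rw [← mul_pow, ← mul_pow]; norm_num
    have e2 : (-8 : ZMod (p ^ 2)) ^ k * ((-8 : ZMod (p ^ 2)) ^ k)⁻¹ = 1 := mul_inv_self' (red_neg_eight_pow_ne h.two_ne k)
    rw [e1]
    linear_combination (g k * 2 ^ k * ((n.choose k : ZMod (p ^ 2)) * ((n + k).choose k : ZMod (p ^ 2)))) * e2
  rw [Finset.sum_congr rfl hterm]
  have hpn := h.two_n
  have e : p = (n + 1) + n := by omega
  have hr : range p = range ((n + 1) + n) := congrArg range e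
  rw [hr, Finset.sum_range_add]
  have h0 : ∑ x ∈ range n, g (n + 1 + x) * 2 ^ (n + 1 + x) * ((n.choose (n + 1 + x) : ZMod (p ^ 2)) * ((n + (n + 1 + x)).choose (n + 1 + x) : ZMod (p ^ 2))) = 0 := by
    apply Finset.sum_eq_zero
    intro x _
    rw [Nat.choose_eq_zero_of_lt (by omega)]
    simp
  rw [h0, add_zero]

/-- `1/2` -/
noncomputable def hw (p : ℕ) : ZMod (p ^ 2) := (2 : ZMod (p ^ 2))⁻¹

lemma two_hw (h2 : (2 : ZMod p) ≠ 0) : 2 * hw p = 1 := by
  apply mul_inv_self'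
  rw [red_two]; exact h2

lemma red_hw (h2 : (2 : ZMod p) ≠ 0) : red p (hw p) = 1 / 2 := by
  unfold hw
  rw [red_inv (by rw [red_two]; exact h2), red_two, one_div]

lemma sum_even_odd {A : Type*} [CommRing A] (g : ℕ → A) (N : ℕ) :
    ∑ m ∈ range (2 * N), g m = ∑ j ∈ range N, (g (2 * j) + g (2 * j + 1)) := by
  induction N with
  | zero => simp
  | succ N ih =>
    rw [show 2 * (N + 1) = 2 * N + 1 + 1 by ring, Finset.sum_range_succ, Finset.sum_range_succ, Finset.sum_range_succ, ih]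
    ring

section val
variable {A : Type*} [CommRing A] (ι : ZMod (p ^ 2) →+* A)

/-- sum over `m` with weights split in even and odd part -/
lemma rho_sum {n f : ℕ} (h : Par p n f) (u : A) (hu : u ^ 2 = ι (hw p)) (w : ℕ → ℤ) :
    ∑ m ∈ range (n + 1), ((w m : ℤ) : A) * (((rho n m : ℤ) : A) * u ^ m) =
      ι (∑ j ∈ range (2 * f + 1), ((w (2 * j) : ℤ) : ZMod (p ^ 2)) * ((Dj n j : ZMod (p ^ 2)) * ((8 : ZMod (p ^ 2)) ^ j)⁻¹))
      + u * ι (eps p (∑ j ∈ range (2 * f + 1), ((w (2 * j + 1) : ℤ) : ZMod p) * (((qj p n j : ℤ) : ZMod p) * (1 / 2) ^ j))) := by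
  have hext : ∑ m ∈ range (n + 1), ((w m : ℤ) : A) * (((rho n m : ℤ) : A) * u ^ m) = ∑ m ∈ range (2 * (2 * f + 1)), ((w m : ℤ) : A) * (((rho n m : ℤ) : A) * u ^ m) := by
    apply Finset.sum_subset
    · intro x hx
      rw [Finset.mem_range] at hx ⊢
      rcases h with h | h <;> omega
    · intro x _ hx
      rw [Finset.mem_range, not_lt] at hx
      rw [rho_gt (by omega)]; simp
  rw [hext, sum_even_odd, Finset.sum_add_distrib, map_sum, eps_sum, map_sum, Finset.mul_sum]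
  have h2 := h.two_ne
  congr 1
  · apply Finset.sum_congr rfl
    intro j _
    rw [pow_mul, hu, map_mul, map_intCast]
    congr 1
    have e := congrArg ι (rho_even h j)
    rw [map_intCast] at e
    rw [e, ← map_pow, ← map_mul]
    congr 1
    rw [mul_assoc]
    congr 1
    -- (4^j)⁻¹ * hw^j = (8^j)⁻¹
    apply mul_left_cancel_of_red (red_eight_pow_ne h2 j)
    rw [mul_inv_self' (red_eight_pow_ne h2 j)]
    have e4 : (4 : ZMod (p ^ 2)) ^ j * ((4 : ZMod (p ^ 2)) ^ j)⁻¹ = 1 := mul_inv_self' (red_four_pow_ne h2 j)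
    have e2 : (2 * hw p) ^ j = 1 := by rw [two_hw h2, one_pow]
    have e8 : (8 : ZMod (p ^ 2)) ^ j = 4 ^ j * 2 ^ j := by rw [← mul_pow]; norm_num
    rw [mul_pow] at e2
    calc (8 : ZMod (p ^ 2)) ^ j * (((4 : ZMod (p ^ 2)) ^ j)⁻¹ * hw p ^ j) = ((4 : ZMod (p ^ 2)) ^ j * ((4 : ZMod (p ^ 2)) ^ j)⁻¹) * (2 ^ j * hw p ^ j) := by rw [e8]; ring
      _ = 1 := by rw [e4, e2, one_mul]
  · apply Finset.sum_congr rfl
    intro j _
    rw [pow_succ, pow_mul, hu]
    have e := congrArg ι (rho_odd_eps h j)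
    rw [map_intCast] at e
    rw [e, ← map_pow]
    have e1 : eps p (((w (2 * j + 1) : ℤ) : ZMod p) * (((qj p n j : ℤ) : ZMod p) * (1 / 2) ^ j))
        = ((w (2 * j + 1) : ℤ) : ZMod (p ^ 2)) * (eps p ((qj p n j : ℤ) : ZMod p) * hw p ^ j) := by
      rw [eps_mul, mul_eps, red_intCast, map_pow, red_hw h2]
    rw [e1, map_mul, map_mul, map_intCast]
    ring

lemma R_val {n f : ℕ} (h : Par p n f) (u : A) (hu : u ^ 2 = ι (hw p)) :
    ∑ m ∈ range (n + 1), ((rho n m : ℤ) : A) * u ^ m = ι (Hval p n f) + u * ι (eps p ((roP p n f).eval (1 / 2))) := by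
  have := rho_sum ι h u hu (fun _ => 1)
  simp only [Int.cast_one, one_mul] at this
  rw [this]
  congr 3
  unfold roP
  rw [eval_finsetSum]
  simp

/-- `∑ m ρ_m u^m` -/
lemma D_val {n f : ℕ} (h : Par p n f) (u : A) (hu : u ^ 2 = ι (hw p)) :
    ∑ m ∈ range (n + 1), ((m : ℤ) : A) * (((rho n m : ℤ) : A) * u ^ m) =
      ι (∑ j ∈ range (2 * f + 1), (2 * (j : ZMod (p ^ 2))) * ((Dj n j : ZMod (p ^ 2)) * ((8 : ZMod (p ^ 2)) ^ j)⁻¹))
      + u * ι (eps p ((roP p n f).eval (1 / 2) + (derivative (roP p n f)).eval (1 / 2))) := by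
  have := rho_sum ι h u hu (fun m => (m : ℤ))
  rw [this]
  congr 3
  · funext j
    push_cast
    ring
  · congr 1
    have e : (roP p n f).eval (1 / 2) + (derivative (roP p n f)).eval (1 / 2) = (roP p n f).eval (1 / 2) + 2 * (X * derivative (roP p n f)).eval (1 / 2) := by
      rw [eval_mul, eval_X]
      have h2 := h.two_ne
      field_simp
    rw [e]
    have e2 : X * derivative (roP p n f) = ∑ j ∈ range (2 * f + 1), C ((j : ZMod p) * ((qj p n j : ℤ) : ZMod p)) * X ^ j := by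
      ext j
      rw [coeff_theta, coeff_sum_C_mul_X_pow, coeff_roP h]
      split_ifs with hj
      · rfl
      · rw [qj_gt h (by omega)]; simp
    rw [e2]
    unfold roP
    rw [eval_finsetSum, eval_finsetSum, Finset.mul_sum, ← Finset.sum_add_distrib]
    apply Finset.sum_congr rfl
    intro j _
    simp only [eval_mul, eval_C, eval_pow, eval_X]
    push_cast
    ring

/-- the logarithm at a point with `u^2 = 1/2` -/
lemma log_val {n f : ℕ} (h : Par p n f) (u : A) (hu : u ^ 2 = ι (hw p)) :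
    (1 + u) ^ p - (1 - u) ^ p - 2 * u ^ p = 2 * (u * ι (eps p ((lP p n).eval (1 / 2)))) := by
  have hpn := h.two_n
  have hp2 : p ≠ 2 := by omega
  have hodd : Odd p := ⟨n, hpn⟩
  have hX := one_sub_X_pow_p (p := p) hp2
  have e1 := congrArg (aeval u) hX
  have e2 := congrArg (aeval (-u)) hX
  simp only [map_sub, map_pow, map_one, aeval_X, map_mul, map_natCast] at e1 e2
  rw [sub_neg_eq_add, hodd.neg_pow] at e2
  have e3 : (p : A) * (aeval u (LL p)) - (p : A) * (aeval (-u) (LL p)) = 2 * (u * ι (eps p ((lP p n).eval (1 / 2)))) := by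
    have hs : ∀ v : A, aeval v (LL p) = ∑ i ∈ range (2 * n), ((dd p (i + 1) : ℤ) : A) * v ^ (i + 1) := by
      intro v
      unfold LL
      rw [map_sum, show p - 1 = 2 * n by omega]
      apply Finset.sum_congr rfl
      intro i _
      simp
    rw [hs, hs, sum_even_odd, sum_even_odd, ← mul_sub, ← Finset.sum_sub_distrib]
    unfold lP
    rw [eval_finsetSum, eps_sum, map_sum, Finset.mul_sum, Finset.mul_sum, Finset.mul_sum]
    apply Finset.sum_congr rfl
    intro j hj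
    rw [Finset.mem_range] at hj
    have o1 : (-u) ^ (2 * j + 1) = - u ^ (2 * j + 1) := Odd.neg_pow ⟨j, rfl⟩ u
    have o2 : (-u) ^ (2 * j + 1 + 1) = u ^ (2 * j + 1 + 1) := Even.neg_pow ⟨j + 1, by ring⟩ u
    rw [o1, o2]
    simp only [eval_mul, eval_C, eval_pow, eval_X]
    have e4 : eps p (((2 * j + 1 : ℕ) : ZMod p)⁻¹ * (1 / 2) ^ j) = (p : ZMod (p ^ 2)) * ((dd p (2 * j + 1) : ℤ) : ZMod (p ^ 2)) * hw p ^ j := by
      rw [← dd_cast (by omega) (by omega), ← eps_intCast, eps_mul, map_pow, red_hw h.two_ne]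
    rw [e4, map_mul, map_mul, map_natCast, map_intCast, map_pow, ← hu, pow_succ u (2 * j), pow_mul]
    ring
  linear_combination e2 - e1 - e3 + 2 * e3

end val

lemma pow_odd {A : Type*} [CommRing A] (x : A) (n : ℕ) {m : ℕ} (hm : m = 2 * n + 1) : x ^ m = x * (x ^ n) ^ 2 := by
  rw [hm, pow_succ, mul_comm 2 n, pow_mul]; ring

/-- the ring `(Z/p^2)[√2]` -/
abbrev QA (p : ℕ) := QuadraticAlgebra (ZMod (p ^ 2)) 2 0

/-- embedding -/
def io (p : ℕ) : ZMod (p ^ 2) →+* QA p := algebraMap _ _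

lemma io_inj (p : ℕ) : Function.Injective (io p) := QuadraticAlgebra.algebraMap_injective

/-- the root of two -/
def rr (p : ℕ) : QA p := ⟨0, 1⟩

lemma rr_sq (p : ℕ) : rr p ^ 2 = 2 := by
  rw [pow_two, rr, QuadraticAlgebra.mk_mul_mk]
  ext
  · simp; rfl
  · simp; rfl

lemma aux_u (h2 : (2 : ZMod p) ≠ 0) (s : QA p) (hs : s ^ 2 = 2) : (-(s * io p (hw p))) ^ 2 = io p (hw p) := by
  have e := congrArg (io p) (two_hw (p := p) h2)
  rw [map_mul, map_one, map_ofNat] at e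
  linear_combination (io p (hw p)) ^ 2 * hs + io p (hw p) * e

/-- `p ℓ(1/2)` -/
theorem eps_log {n f : ℕ} (h : Par p n f) :
    eps p ((lP p n).eval (1 / 2)) = 4 * ((ab n).2 : ZMod (p ^ 2)) * (((ab n).1 : ZMod (p ^ 2)) + ((ab n).2 : ZMod (p ^ 2))) * hw p ^ (2 * n) := by
  have h2 := h.two_ne
  apply io_inj
  set w := io p (hw p) with hwdef
  set r := rr p with hrdef
  have hr : r ^ 2 = 2 := rr_sq p
  have e := congrArg (io p) (two_hw (p := p) h2)
  rw [map_mul, map_one, map_ofNat, ← hwdef] at e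
  have hl := log_val (io p) h (-(r * w)) (aux_u h2 r hr)
  set L := io p (eps p ((lP p n).eval (1 / 2))) with hL
  have hpn := h.two_n
  have e1 : (1 + -(r * w)) = (2 - r) * w := by linear_combination -e
  have e2 : (1 - -(r * w)) = (2 + r) * w := by linear_combination -e
  have hodd : Odd p := ⟨n, hpn⟩
  have e3 : (-(r * w)) ^ p = - (r ^ p * w ^ p) := by rw [hodd.neg_pow, mul_pow]
  have e4 : r ^ p = r * 2 ^ n := by rw [pow_odd r n hpn, ← pow_mul, mul_comm n 2, pow_mul, hr]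
  set a := ((ab n).1 : QA p) with ha
  set b := ((ab n).2 : QA p) with hb
  have e5 : (2 + r) ^ p = (2 + r) * (a + b * r) ^ 2 := by
    rw [pow_odd (2 + r) n hpn, pow_ab r hr]
  have e6 : (2 - r) ^ p = (2 - r) * (a - b * r) ^ 2 := by
    rw [pow_odd (2 - r) n hpn, pow_ab' r hr]
  have e7 : (2 : QA p) ^ n = a ^ 2 - 2 * b ^ 2 := by
    have := congrArg (Int.cast : ℤ → QA p) (norm_ab n)
    push_cast at this
    exact this.symm
  rw [e1, e2, e3, mul_pow, mul_pow, e4, e5, e6, e7] at hl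
  -- (-8 r b (a+b)) w^p = -2 r w L
  have e8 : (-8 * r * (b * (a + b))) * w ^ p = -2 * r * w * L := by
    linear_combination hl + (2 * b ^ 2 * r * w ^ p) * hr
  -- multiply by -r w^0
  have e9 : (16 * (b * (a + b))) * w ^ p = 4 * w * L := by
    linear_combination (-r) * e8 - (8 * (b * (a + b)) * w ^ p - 2 * w * L) * hr
  have e10 : w ^ p = w ^ (2 * n) * w := by rw [pow_odd w n hpn, ← pow_mul, mul_comm n 2]; ring
  have e11 : 4 * (b * (a + b)) * w ^ (2 * n) = L := by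
    rw [e10] at e9
    linear_combination w * e9 - (4 * (b * (a + b)) * w ^ (2 * n) - L) * (2 * w + 1) * e
  rw [map_mul, map_mul, map_mul, map_add, map_intCast, map_intCast, map_pow, map_ofNat, ← hwdef, ← ha, ← hb, ← e11]
  ring

end Pool.Agent.Pell
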